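import Pool.Agent.WSatAC0.Numbers

/-! The links above the first one for parameterized AC⁰ reductions. -/

namespace Pool.Agent.WSatAC0

open Finset Pool.Agent.ParityAC Pool.Agent.WSatChain Pool.Agent.WSatCount Filter

theorem count_nodes {k s b L a : ℕ} (hL : L = 2 ^ b) (t2 : 40 * (k + 1) ^ 2 + 1 ≤ L)
    (t11 : b + 1 ≤ L) :
    Nat.card (UN k (L ^ a) (L ^ 2) (Fin b) s) + 1 ≤ L ^ (2 * a + 2 * s + 8) := by
  have hL2 : 2 ≤ L := by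
    have : 1 ≤ (k + 1) ^ 2 := Nat.one_le_pow _ _ (by omega)
    omega
  have h0 := card_UN_le (k := k) (N := L ^ a) (A1 := L ^ 2) (B := Fin b) (s := s)
  rw [Fintype.card_fin, ← hL] at h0
  have hp : ∀ m, 1 ≤ L ^ m := fun m => Nat.one_le_pow _ _ (by omega)
  have e1 : b * L + 1 ≤ L ^ 2 := by
    calc b * L + 1 ≤ b * L + L := by omega
      _ = (b + 1) * L := by ring
      _ ≤ L * L := Nat.mul_le_mul_right _ t11
      _ = _ := by ring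
  have e2 : ∀ m, L ^ m + 1 ≤ L ^ (m + 1) := by
    intro m
    have := hp m
    calc L ^ m + 1 ≤ L ^ m * 2 := by omega
      _ ≤ L ^ m * L := Nat.mul_le_mul_left _ hL2
      _ = _ := (pow_succ _ _).symm
  have e3 : Nat.card (UN k (L ^ a) (L ^ 2) (Fin b) s) ≤
      L ^ (2 * a + 2 * s + 7) * (40 * (k + 1) ^ 2) := by
    refine h0.trans ?_
    calc (b * L + 1) ^ s * (L * ((b + 1) * (2 * ((L ^ 2 + 1) * ((L ^ a + 1) * (L ^ a + 1) *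
          ((k + 1) * (k + 1) * (2 * 10)))))))
        ≤ (L ^ 2) ^ s * (L * (L * (2 * (L ^ (2 + 1) * (L ^ (a + 1) * L ^ (a + 1) *
          ((k + 1) * (k + 1) * (2 * 10))))))) := by
          have h2 := e2 2
          have ha := e2 a
          gcongr
      _ = L ^ (2 * a + 2 * s + 7) * (40 * (k + 1) ^ 2) := by
          rw [← pow_mul]
          have : L ^ (2 * a + 2 * s + 7) = L ^ (2 * s) * (L * (L * (L ^ (2 + 1) *
              (L ^ (a + 1) * L ^ (a + 1))))) := by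
            ring
          rw [this]
          ring
  calc Nat.card (UN k (L ^ a) (L ^ 2) (Fin b) s) + 1
      ≤ L ^ (2 * a + 2 * s + 7) * (40 * (k + 1) ^ 2) + L ^ (2 * a + 2 * s + 7) :=
        Nat.add_le_add e3 (hp _)
    _ = L ^ (2 * a + 2 * s + 7) * (40 * (k + 1) ^ 2 + 1) := by ring
    _ ≤ L ^ (2 * a + 2 * s + 7) * L := Nat.mul_le_mul_left _ t2
    _ = _ := by rw [← pow_succ]

theorem card_Gc {b s A1 : ℕ} : Fintype.card (Gc (Fin b) s A1) = b ^ (s + 1) * 2 * A1 := by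
  rw [Fintype.card_prod, Fintype.card_prod, card_vector, Fintype.card_fin, Fintype.card_fin,
    ZMod.card]

theorem card_Ix {V : Type} (F : Red V) : Fintype.card (Ix F) = F.M * 6 + (F.M * F.M + F.K) := by
  simp only [Fintype.card_sum, Fintype.card_prod, Fintype.card_fin]

/-- first estimate: the bad events -/
theorem est_bad {Y : ℝ} (hY : 8 ≤ Y) {k m : ℕ} {z g : ℝ} (hz0 : 0 ≤ z) (hz : z ≤ (Y ^ 6)⁻¹)
    (hg : g ≤ Y ^ 3) (hk : (2 : ℝ) ^ k ≤ Y) (hm : m = k) :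
    ((1 + z) ^ m - 1) + g * z ≤ 1 / 4 := by
  subst hm
  have hY0 : 0 < Y := by linarith
  have h1 : z ≤ 1 := by
    refine hz.trans ?_
    rw [inv_le_one₀ (by positivity)]
    exact one_le_pow₀ (by linarith)
  have h2 := one_add_pow_le hz0 h1 m
  have h3 : (2 ^ m - 1) * z ≤ Y * (Y ^ 6)⁻¹ :=
    mul_le_mul (by linarith) hz hz0 hY0.le
  have h4 : g * z ≤ Y ^ 3 * (Y ^ 6)⁻¹ :=
    mul_le_mul hg hz hz0 (by positivity)
  have h5 : Y * (Y ^ 6)⁻¹ = (Y ^ 5)⁻¹ := by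
    field_simp
  have h6 : Y ^ 3 * (Y ^ 6)⁻¹ = (Y ^ 3)⁻¹ := by
    field_simp
  have h7 : (Y ^ 5)⁻¹ ≤ 1 / 8 := by
    rw [one_div]
    apply inv_anti₀ (by norm_num)
    calc (8 : ℝ) = 8 * 1 := by ring
      _ ≤ Y * Y ^ 4 := mul_le_mul hY (one_le_pow₀ (by linarith)) (by norm_num) hY0.le
      _ = Y ^ 5 := by ring
  have h8 : (Y ^ 3)⁻¹ ≤ 1 / 8 := by
    rw [one_div]
    apply inv_anti₀ (by norm_num)
    calc (8 : ℝ) = 8 * 1 := by ring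
      _ ≤ Y * Y ^ 2 := mul_le_mul hY (one_le_pow₀ (by linarith)) (by norm_num) hY0.le
      _ = Y ^ 3 := by ring
  rw [h5] at h3
  rw [h6] at h4
  linarith

/-- the error of the rounds -/
theorem est_err {Y : ℝ} (hY : 1 ≤ Y) {D c1 s1 m : ℕ} {S : ℝ} (hS : S = Y ^ c1)
    (hs1 : s1 = c1 * D + m) (t6 : (D : ℝ) * (8 * s1) ^ s1 ≤ Y) :
    (D : ℝ) * S ^ D * (4 * s1 * (2 * Y⁻¹)) ^ s1 ≤ Y * (Y ^ m)⁻¹ := by
  have hY0 : 0 < Y := by linarith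
  have e1 : (4 * (s1 : ℝ) * (2 * Y⁻¹)) ^ s1 = (8 * s1) ^ s1 * ((Y ^ (c1 * D))⁻¹ * (Y ^ m)⁻¹) := by
    have h1 : (4 * (s1 : ℝ) * (2 * Y⁻¹)) = (8 * s1) * Y⁻¹ := by ring
    have h2 : Y⁻¹ ^ s1 = (Y ^ (c1 * D))⁻¹ * (Y ^ m)⁻¹ := by
      rw [← mul_inv, ← pow_add, ← hs1, inv_pow]
    rw [h1, mul_pow, h2]
  have e2 : S ^ D = Y ^ (c1 * D) := by rw [hS, ← pow_mul]
  rw [e1, e2]
  have h3 : Y ^ (c1 * D) * (Y ^ (c1 * D))⁻¹ = 1 := by
    apply mul_inv_cancel₀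
    positivity
  calc (D : ℝ) * Y ^ (c1 * D) * ((8 * s1) ^ s1 * ((Y ^ (c1 * D))⁻¹ * (Y ^ m)⁻¹))
      = (D : ℝ) * (8 * s1) ^ s1 * (Y ^ (c1 * D) * (Y ^ (c1 * D))⁻¹) * (Y ^ m)⁻¹ := by ring
    _ = (D : ℝ) * (8 * s1) ^ s1 * (Y ^ m)⁻¹ := by rw [h3, mul_one]
    _ ≤ Y * (Y ^ m)⁻¹ := mul_le_mul_of_nonneg_right t6 (by positivity)

/-- second estimate: the circuits -/
theorem est_main {Y : ℝ} (hY : 8 ≤ Y) {I C μ : ℝ} {c1 D u m : ℕ} (hI : I ≤ Y ^ (2 * c1 + 1))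
    (hC : C ≤ Y ^ ((c1 + 1) * D)) (hC0 : 0 ≤ C) (hμ0 : 0 ≤ μ)
    (hμ : μ ≤ Y ^ u * (Y ^ m)⁻¹) (hm : 2 * c1 + 1 + (c1 + 1) * D + u + 2 ≤ m) :
    I * (C * μ) ≤ 1 / 4 := by
  have hY0 : 0 < Y := by linarith
  have h1 : I * (C * μ) ≤ Y ^ (2 * c1 + 1) * (Y ^ ((c1 + 1) * D) * (Y ^ u * (Y ^ m)⁻¹)) := by
    apply mul_le_mul hI _ (mul_nonneg hC0 hμ0) (by positivity)
    exact mul_le_mul hC hμ hμ0 (by positivity)
  have h2 : Y ^ (2 * c1 + 1) * (Y ^ ((c1 + 1) * D) * (Y ^ u * (Y ^ m)⁻¹)) =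
      Y ^ (2 * c1 + 1 + (c1 + 1) * D + u) * (Y ^ m)⁻¹ := by
    rw [pow_add, pow_add]
    ring
  obtain ⟨w, hw⟩ := Nat.exists_eq_add_of_le hm
  have h3 : Y ^ (2 * c1 + 1 + (c1 + 1) * D + u) * (Y ^ m)⁻¹ = (Y ^ (2 + w))⁻¹ := by
    rw [hw]
    have : Y ^ (2 * c1 + 1 + (c1 + 1) * D + u + 2 + w) =
        Y ^ (2 * c1 + 1 + (c1 + 1) * D + u) * Y ^ (2 + w) := by
      rw [← pow_add]
      congr 1
      ring
    rw [this, mul_inv, ← mul_assoc, mul_inv_cancel₀ (by positivity), one_mul]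
  have h4 : (Y ^ (2 + w))⁻¹ ≤ 1 / 4 := by
    rw [one_div]
    apply inv_anti₀ (by norm_num)
    calc (4 : ℝ) ≤ Y ^ 2 := by nlinarith
      _ ≤ Y ^ (2 + w) := pow_le_pow_right₀ (by linarith) (by omega)
  rw [h2, h3] at h1
  exact h1.trans h4

/-- third estimate: the columns -/
theorem est_col {L : ℕ} (hL : 4 ≤ L) {g : ℝ} (hg : g ≤ L) :
    g * (1 - (1 : ℝ) / L) ^ (L ^ 2) ≤ 1 / 4 := by
  have hL0 : (0 : ℝ) < L := by
    have : 0 < L := by omega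
    exact_mod_cast this
  have hb : (0 : ℝ) ≤ 1 - 1 / L := by
    have : (1 : ℝ) / L ≤ 1 := by
      rw [div_le_one hL0]
      have : 1 ≤ L := by omega
      exact_mod_cast this
    linarith
  have h1 : (1 - (1 : ℝ) / L) ^ (L ^ 2) ≤ (1 / 2) ^ L := by
    rw [pow_two, pow_mul]
    exact pow_le_pow_left₀ (pow_nonneg hb _) (half_pow (by omega)) _
  have h2 : (4 : ℝ) * L ≤ 2 ^ L := by exact_mod_cast four_mul_le hL
  have h3 : (L : ℝ) * (1 / 2) ^ L ≤ 1 / 4 := by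
    rw [one_div, inv_pow, ← div_eq_mul_inv, div_le_iff₀ (by positivity)]
    linarith
  calc g * (1 - (1 : ℝ) / L) ^ (L ^ 2) ≤ L * (1 / 2) ^ L :=
        mul_le_mul hg h1 (pow_nonneg hb _) hL0.le
    _ ≤ 1 / 4 := h3

/-- fourth estimate: peeling -/
theorem est_peel {Y : ℝ} (hY : 8 ≤ Y) {c2 s s2 : ℕ} {S' t : ℝ} (hS' : S' = Y ^ c2)
    (hs2 : s2 = c2 * (s + 1) + 2) (ht : t ^ s2 ≤ Y) {v : ℝ} (hv : v = t * (1 / Y)) :
    S' ^ (s + 1) * v ^ s2 ≤ 1 / 4 := by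
  have hY0 : 0 < Y := by linarith
  have h1 : v ^ s2 = t ^ s2 * ((Y ^ (c2 * (s + 1)))⁻¹ * (Y ^ 2)⁻¹) := by
    rw [hv, mul_pow, one_div, inv_pow]
    congr 1
    rw [← mul_inv, ← pow_add, ← hs2]
  have h2 : S' ^ (s + 1) = Y ^ (c2 * (s + 1)) := by rw [hS', ← pow_mul]
  rw [h1, h2]
  have h3 : Y ^ (c2 * (s + 1)) * (Y ^ (c2 * (s + 1)))⁻¹ = 1 := by
    apply mul_inv_cancel₀
    positivity
  calc Y ^ (c2 * (s + 1)) * (t ^ s2 * ((Y ^ (c2 * (s + 1)))⁻¹ * (Y ^ 2)⁻¹))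
      = (Y ^ (c2 * (s + 1)) * (Y ^ (c2 * (s + 1)))⁻¹) * (t ^ s2 * (Y ^ 2)⁻¹) := by ring
    _ = t ^ s2 * (Y ^ 2)⁻¹ := by rw [h3, one_mul]
    _ ≤ Y * (Y ^ 2)⁻¹ := mul_le_mul_of_nonneg_right ht (by positivity)
    _ = Y⁻¹ := by field_simp
    _ ≤ 1 / 4 := by
      rw [one_div]
      exact inv_anti₀ (by norm_num) (by linarith)

/-- the contradiction, with all numbers -/
theorem big {s d D c r a q k e1 c1 s1 c2 s2 b L n : ℕ} (hc : 1 ≤ c)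
    (hr : r = 2 * c * (D + 2))
    (ha : a = (c * (2 * s + 8) + 1) * (D + 2) + D + 5 + (16 + 8 * D) * r ^ 2)
    (hq : cL d (r ^ 2) + (s + 1) * (6 * r ^ 2) + 3 * r ^ 2 + 2 * r ^ 2 = q)
    (hk : q + a + 6 ≤ k) (hc1 : c1 = c * (2 * a + 2 * s + 8) + 1)
    (hs1 : s1 = c1 * D + a * (r + 1)) (hc2 : c2 = (c1 + 1) * (e1 + 1))
    (hs2 : s2 = c2 * (s + 1) + 2) (hL : L = 2 ^ b)
    (t1 : e1 ≤ L) (t2 : 40 * (k + 1) ^ 2 + 1 ≤ L) (t3 : 8 ≤ L) (t4 : 2 * k + 1 ≤ L)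
    (t5 : (2 ^ (s1 - 1)) ^ (4 * r ^ 2) ≤ L) (t6 : D * (8 * s1) ^ s1 ≤ L) (t7 : 2 ^ k ≤ L)
    (t8 : (2 * q * 2 ^ k * 2 ^ (k + 1)) ^ s2 ≤ L)
    (t9 : (16 * (s2 - 1) + 1) * (16 * (c2 * s + 1)) ^ s ≤ b) (t10 : 2 * b ^ (s + 1) ≤ L)
    (t11 : b + 1 ≤ L) (hb1 : 1 ≤ b)
    (e : UN k (L ^ a) (L ^ 2) (Fin b) s ≃ Fin n) (F : Red (Bit n))
    (hF : F.All (ACFun (e1 * (n + 1) ^ (c - 1)) D)) (hM0 : F.M ≤ e1 * (n + 1) ^ (c - 1))
    (hK : F.K ≤ e1)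
    (hG : ∀ X : Dat k (L ^ a) (L ^ 2) (Fin b), GAMMA (s + 1) d _ (F.apply (bits (srcF e X))))
    (hred : ∀ X : Dat k (L ^ a) (L ^ 2) (Fin b), (srcF e X).WSat (k + 1) ↔
      (F.apply (bits (srcF e X))).WSat (F.param (bits (srcF e X)))) : False := by
  have hLp : ∀ m, 1 ≤ L ^ m := fun m => Nat.one_le_pow _ _ (by omega)
  have hn : n + 1 ≤ L ^ (2 * a + 2 * s + 8) := by
    have h1 := count_nodes (s := s) (a := a) hL t2 t11
    have h2 : Nat.card (UN k (L ^ a) (L ^ 2) (Fin b) s) = n := by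
      rw [Nat.card_congr e, Nat.card_fin]
    rw [h2] at h1
    exact h1
  -- the size of the circuits
  have hS0 : e1 * (n + 1) ^ (c - 1) ≤ L ^ c1 := by
    calc e1 * (n + 1) ^ (c - 1) ≤ L * (L ^ (2 * a + 2 * s + 8)) ^ (c - 1) :=
          Nat.mul_le_mul t1 (Nat.pow_le_pow_left hn _)
      _ = L ^ ((2 * a + 2 * s + 8) * (c - 1) + 1) := by rw [← pow_mul, ← pow_succ']
      _ ≤ L ^ c1 := by
          apply Nat.pow_le_pow_right (by omega)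
          rw [hc1, mul_comm c]
          have := Nat.mul_le_mul_left (2 * a + 2 * s + 8) (Nat.sub_le c 1)
          omega
  have hM : F.M ≤ L ^ c1 := hM0.trans hS0
  have hKS : F.K ≤ L ^ c1 := by
    refine hK.trans (t1.trans ?_)
    calc L = L ^ 1 := (pow_one L).symm
      _ ≤ L ^ c1 := Nat.pow_le_pow_right (by omega) (by omega)
  have hF' : F.All (ACFun (L ^ c1) D) := hF.mono fun f hf => hf.monoS hS0
  have hr2 : 2 ≤ r := by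
    rw [hr]
    have : 1 * 2 ≤ c * (D + 2) := Nat.mul_le_mul hc (by omega)
    have h2 : 2 * c * (D + 2) = 2 * (c * (D + 2)) := by ring
    omega
  have hLc2 : L ^ c1 + 1 ≤ L ^ (c1 + 1) := by
    have := hLp c1
    calc L ^ c1 + 1 ≤ L ^ c1 * 2 := by omega
      _ ≤ L ^ c1 * L := Nat.mul_le_mul_left _ (by omega)
      _ = _ := (pow_succ _ _).symm
  have hS' : L ^ c1 + F.K ≤ L ^ c2 := by
    have h1 : L ^ c1 + F.K ≤ L ^ (c1 + 1) := by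
      calc L ^ c1 + F.K ≤ L ^ c1 * 2 := by omega
        _ ≤ L ^ c1 * L := Nat.mul_le_mul_left _ (by omega)
        _ = _ := (pow_succ _ _).symm
    refine h1.trans (Nat.pow_le_pow_right (by omega) ?_)
    rw [hc2]
    exact Nat.le_mul_of_pos_right _ (by omega)
  have hS'' : (F.M + 1) ^ (F.K + 1) ≤ L ^ c2 := by
    calc (F.M + 1) ^ (F.K + 1) ≤ (L ^ (c1 + 1)) ^ (F.K + 1) :=
          Nat.pow_le_pow_left (by omega) _
      _ ≤ (L ^ (c1 + 1)) ^ (e1 + 1) := Nat.pow_le_pow_right (hLp _) (by omega)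
      _ = L ^ c2 := by rw [← pow_mul, hc2]
  -- real numbers
  have hY : (8 : ℝ) ≤ (L : ℝ) := by exact_mod_cast t3
  generalize hYL : (L : ℝ) = Y at hY
  have hY0 : 0 < Y := by linarith
  have hY1 : 1 ≤ Y := by linarith
  have hp : (1 : ℝ) / Y ≤ 1 / 2 := by
    apply one_div_le_one_div_of_le (by norm_num)
    linarith
  have hp0 : (0 : ℝ) < 1 / Y := by positivity
  have hGc : Fintype.card (Gc (Fin b) s (L ^ 2)) ≤ L ^ 3 := by
    rw [card_Gc]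
    calc b ^ (s + 1) * 2 * L ^ 2 = 2 * b ^ (s + 1) * L ^ 2 := by ring
      _ ≤ L * L ^ 2 := Nat.mul_le_mul_right _ t10
      _ = L ^ 3 := by ring
  have hGcR : (Fintype.card (Gc (Fin b) s (L ^ 2)) : ℝ) ≤ Y ^ 3 := by
    rw [← hYL]
    exact_mod_cast hGc
  have hEc : Fintype.card (Es k (Gc (Fin b) s (L ^ 2))) + 1 ≤ L ^ 4 := by
    rw [Fintype.card_prod, Fintype.card_sum, Fintype.card_fin]
    have h1 : k ≤ L ^ 3 := by
      calc k ≤ L := by omega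
        _ = L ^ 1 := (pow_one L).symm
        _ ≤ L ^ 3 := Nat.pow_le_pow_right (by omega) (by omega)
    calc k * (k + Fintype.card (Gc (Fin b) s (L ^ 2))) + 1 ≤ k * (L ^ 3 + L ^ 3) + L ^ 3 := by
          have := hLp 3
          have h2 := Nat.mul_le_mul_left k (Nat.add_le_add h1 hGc)
          omega
      _ = (2 * k + 1) * L ^ 3 := by ring
      _ ≤ L * L ^ 3 := Nat.mul_le_mul_right _ t4
      _ = L ^ 4 := by ring
  have hEcR : ((Fintype.card (Es k (Gc (Fin b) s (L ^ 2))) + 1 : ℕ) : ℝ) ≤ Y ^ 4 := by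
    rw [← hYL]
    exact_mod_cast hEc
  have hIx : Fintype.card (Ix F) ≤ L ^ (2 * c1 + 1) := by
    rw [card_Ix]
    have h1 := hLp c1
    have h2 : F.M * F.M ≤ L ^ c1 * L ^ c1 := Nat.mul_le_mul hM hM
    have h3 : L ^ c1 ≤ L ^ c1 * L ^ c1 := Nat.le_mul_of_pos_left _ h1
    calc F.M * 6 + (F.M * F.M + F.K) ≤ L ^ c1 * L ^ c1 * 8 := by omega
      _ ≤ L ^ c1 * L ^ c1 * L := Nat.mul_le_mul_left _ t3
      _ = L ^ (2 * c1 + 1) := by ring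
  have hIxR : (Fintype.card (Ix F) : ℝ) ≤ Y ^ (2 * c1 + 1) := by
    rw [← hYL]
    exact_mod_cast hIx
  have hcst : cst (L ^ c1) D ≤ L ^ ((c1 + 1) * D) := by
    have h1 := cst_le (hLp c1) D
    calc cst (L ^ c1) D ≤ (2 * L ^ c1) ^ D := by omega
      _ ≤ (L * L ^ c1) ^ D := Nat.pow_le_pow_left (Nat.mul_le_mul_right _ (by omega)) _
      _ = L ^ ((c1 + 1) * D) := by rw [← pow_succ', ← pow_mul]
  have hcstR : (cst (L ^ c1) D : ℝ) ≤ Y ^ ((c1 + 1) * D) := by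
    rw [← hYL]
    exact_mod_cast hcst
  have hz : ((L ^ a : ℕ) : ℝ) * (1 / Y) ^ k = (Y ^ (k - a))⁻¹ := by
    push_cast
    rw [hYL, one_div, inv_pow]
    have : Y ^ k = Y ^ a * Y ^ (k - a) := by
      rw [← pow_add]
      congr 1
      omega
    rw [this, mul_inv, ← mul_assoc, mul_inv_cancel₀ (by positivity), one_mul]
  have hz6 : ((L ^ a : ℕ) : ℝ) * (1 / Y) ^ k ≤ (Y ^ 6)⁻¹ := by
    rw [hz]
    apply inv_anti₀ (by positivity)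
    exact pow_le_pow_right₀ hY1 (by omega)
  have hb0 := est_bad hY (z := ((L ^ a : ℕ) : ℝ) * (1 / Y) ^ k) (by positivity) hz6 hGcR
    (k := k) (by rw [← hYL]; exact_mod_cast t7) rfl
  have herr := est_err hY1 (D := D) (c1 := c1) (s1 := s1) (m := a * (r + 1))
    (S := ((L ^ c1 : ℕ) : ℝ)) (by push_cast; rw [hYL]) hs1 (by rw [← hYL]; exact_mod_cast t6)
  have hmu := mu_le (Y := Y) (by linarith) (N := L ^ a) (r := r) (dd := s1 - 1) (D := D) (a := a)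
    (E := Es k (Gc (Fin b) s (L ^ 2))) (l := (1 / Y) ^ 2) (err := _) hEcR
    (by rw [one_div, inv_pow]) (by push_cast; rw [hYL]) (by rw [← hYL]; exact_mod_cast t5)
    herr (by positivity)
  have hmain := est_main hY (I := (Fintype.card (Ix F) : ℝ)) (C := (cst (L ^ c1) D : ℝ))
    (c1 := c1) (D := D) (u := (16 + 8 * D) * r ^ 2 + 2) (m := a * (r + 1)) hIxR hcstR
    (by positivity) (μ := _) ?_ hmu ?_
  · refine core e F hF' hG hred (hLp a) (p := 1 / Y) (l := (1 / Y) ^ 2) (κ := 2 * (1 / Y))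
      hp0.le (by linarith) (rw_of hp0 hp) (by positivity) hr2 (hLp c1) (s1 := s1) ?_ ?_ hM hS' hS''
      hq (by omega) (s2 := s2) (by omega) (l2 := 1 / Y) hp0.le hp ?_ (σ := b * (c2 * s) + 1)
      (by omega) ?_ ?_
    · -- two
      have h1 : 1 * 2 ≤ a * (r + 1) := Nat.mul_le_mul (by omega) (by omega)
      omega
    · -- first number
      have e2 : 2 * (1 / Y) = 2 * Y⁻¹ := by rw [one_div]
      rw [e2]
      have e3 : (Fintype.card (Gc (Fin b) s (L ^ 2)) : ℝ) * ((L ^ a : ℕ) : ℝ) * (1 / Y) ^ k =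
          (Fintype.card (Gc (Fin b) s (L ^ 2)) : ℝ) * (((L ^ a : ℕ) : ℝ) * (1 / Y) ^ k) := by ring
      rw [e3]
      linarith
    · -- second number
      have h1 : (Fintype.card (VV (Fin b) s × ZMod 2) : ℝ) ≤ L := by
        rw [Fintype.card_prod, card_vector, Fintype.card_fin, ZMod.card]
        have : b ^ (s + 1) * 2 ≤ L := by
          rw [mul_comm]
          exact t10
        exact_mod_cast this
      have h2 := est_col (L := L) (by omega) h1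
      rw [hYL] at h2
      have h3 := est_peel hY (c2 := c2) (s := s) (s2 := s2) (S' := ((L ^ c2 : ℕ) : ℝ))
        (t := 2 * q * 2 ^ k * 2 ^ (k + 1)) (by push_cast; rw [hYL]) hs2
        (by rw [← hYL]; exact_mod_cast t8) (v := 2 * q * 2 ^ k * (2 ^ (k + 1) * (1 / Y))) (by ring)
      linarith
    · rw [hL, ← pow_mul, ← pow_mul]
      exact Nat.pow_lt_pow_right (by norm_num) (Nat.lt_succ_self _)
    · rw [Fintype.card_fin]
      refine (bnd_le _ (by omega) _ _).trans ?_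
      have h2 : 16 * (b * (c2 * s) + 1) ≤ 16 * (c2 * s + 1) * b := by
        have h3 : 16 * (c2 * s + 1) * b = 16 * (b * (c2 * s)) + 16 * b := by ring
        omega
      calc (16 * (s2 - 1) + 1) * (16 * (b * (c2 * s) + 1)) ^ s
          ≤ (16 * (s2 - 1) + 1) * (16 * (c2 * s + 1) * b) ^ s :=
            Nat.mul_le_mul_left _ (Nat.pow_le_pow_left h2 _)
        _ = (16 * (s2 - 1) + 1) * (16 * (c2 * s + 1)) ^ s * b ^ s := by
            rw [mul_pow]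
            ring
        _ ≤ b * b ^ s := Nat.mul_le_mul_right _ t9
        _ = b ^ (s + 1) := by rw [pow_succ']
  · unfold mu
    positivity
  · -- the exponent
    have h1 : (c1 + 1) * D + 2 * c1 = c1 * (D + 2) + D := by ring
    have h2 : c1 * (D + 2) = a * (2 * c * (D + 2)) + (c * (2 * s + 8) + 1) * (D + 2) := by
      rw [hc1]
      ring
    rw [← hr] at h2
    have h3 : a * (r + 1) = a * r + a := by ring
    omega

theorem split9 {a1 a2 a3 a4 a5 a6 a7 a8 a9 b : ℕ}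
    (h : a1 + a2 + a3 + a4 + a5 + a6 + a7 + a8 + a9 ≤ b) :
    a1 ≤ b ∧ a2 ≤ b ∧ a3 ≤ b ∧ a4 ≤ b ∧ a5 ≤ b ∧ a6 ≤ b ∧ a7 ≤ b ∧ a8 ≤ b ∧ a9 ≤ b := by
  refine ⟨?_, ?_, ?_, ?_, ?_, ?_, ?_, ?_, ?_⟩ <;> omega

/-- **The links above the first one**, for all large slices. -/
theorem not_slice_ac0 (s d D c0 : ℕ) : ∃ k0, ∀ k ≥ k0,
    ¬ SliceAC0 D c0 k (GAMMA (s + 2) 1) (GAMMA (s + 1) d) := by
  obtain ⟨c, hc⟩ : ∃ c, c = c0 + 1 := ⟨_, rfl⟩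
  obtain ⟨r, hr⟩ : ∃ r, r = 2 * c * (D + 2) := ⟨_, rfl⟩
  obtain ⟨a, ha⟩ : ∃ a, a = (c * (2 * s + 8) + 1) * (D + 2) + D + 5 + (16 + 8 * D) * r ^ 2 :=
    ⟨_, rfl⟩
  obtain ⟨q, hq⟩ : ∃ q, cL d (r ^ 2) + (s + 1) * (6 * r ^ 2) + 3 * r ^ 2 + 2 * r ^ 2 = q :=
    ⟨_, rfl⟩
  refine ⟨q + a + 7, ?_⟩
  rintro k' hk' ⟨e1, F, hF, hred⟩
  obtain ⟨k, rfl⟩ : ∃ k, k' = k + 1 := ⟨k' - 1, by omega⟩
  have hk : q + a + 6 ≤ k := by omega
  obtain ⟨c1, hc1⟩ : ∃ c1, c1 = c * (2 * a + 2 * s + 8) + 1 := ⟨_, rfl⟩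
  obtain ⟨s1, hs1⟩ : ∃ s1, s1 = c1 * D + a * (r + 1) := ⟨_, rfl⟩
  obtain ⟨c2, hc2⟩ : ∃ c2, c2 = (c1 + 1) * (e1 + 1) := ⟨_, rfl⟩
  obtain ⟨s2, hs2⟩ : ∃ s2, s2 = c2 * (s + 1) + 2 := ⟨_, rfl⟩
  obtain ⟨T, hT⟩ : ∃ T, T = e1 + (40 * (k + 1) ^ 2 + 1) + 8 + (2 * k + 1) +
    (2 ^ (s1 - 1)) ^ (4 * r ^ 2) + D * (8 * s1) ^ s1 + 2 ^ k +
    (2 * q * 2 ^ k * 2 ^ (k + 1)) ^ s2 + (16 * (s2 - 1) + 1) * (16 * (c2 * s + 1)) ^ s := ⟨_, rfl⟩
  obtain ⟨b, hb1, hb2⟩ : ∃ b, T ≤ b ∧ (2 * b) ^ (s + 1) ≤ 2 ^ b :=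
    ((eventually_ge_atTop T).and (growth 2 (s + 1))).exists
  have hbL : b < 2 ^ b := Nat.lt_two_pow_self
  have hbL' : b ≤ 2 ^ b := hbL.le
  rw [hT] at hb1
  obtain ⟨u1, u2, u3, u4, u5, u6, u7, u8, u9⟩ := split9 hb1
  have t10 : 2 * b ^ (s + 1) ≤ 2 ^ b := by
    refine le_trans ?_ hb2
    rw [mul_pow]
    apply Nat.mul_le_mul_right
    calc 2 = 2 ^ 1 := rfl
      _ ≤ 2 ^ (s + 1) := Nat.pow_le_pow_right (by norm_num) (by omega)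
  obtain ⟨n, hn⟩ : ∃ n, n = Nat.card (UN k ((2 ^ b) ^ a) ((2 ^ b) ^ 2) (Fin b) s) := ⟨_, rfl⟩
  let e : UN k ((2 ^ b) ^ a) ((2 ^ b) ^ 2) (Fin b) s ≃ Fin n :=
    (Finite.equivFinOfCardEq hn.symm)
  obtain ⟨h1, h2, h3⟩ := hF n
  have h4 : ∀ X : Dat k ((2 ^ b) ^ a) ((2 ^ b) ^ 2) (Fin b),
      GAMMA (s + 2) 1 _ (srcF e X) := fun X =>
    isoInv_gamma (s + 2) 1 _ _ _ _ e (srcF_iso e X) srcN_gamma
  have hc0 : c - 1 = c0 := by omega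
  refine big (s := s) (d := d) (D := D) (c := c) (L := 2 ^ b) (n := n) (by omega) hr ha hq hk hc1
    hs1 hc2 hs2 rfl (u1.trans hbL') (u2.trans hbL') (u3.trans hbL') (u4.trans hbL')
    (u5.trans hbL') (u6.trans hbL') (u7.trans hbL') (u8.trans hbL') u9 t10 hbL
    (le_trans (by norm_num) u3) e (F n) ?_ ?_ h3 ?_ ?_
  · rw [hc0]
    exact h1
  · rw [hc0]
    exact h2
  · exact fun X => (hred n (srcF e X) (h4 X)).1
  · exact fun X => (hred n (srcF e X) (h4 X)).2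

end Pool.Agent.WSatAC0
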