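import Pool.Agent.WSatAC0.Src12
import Pool.Agent.WSatAC0.Final

/-! The first link for parameterized AC⁰ reductions. -/

namespace Pool.Agent.WSatAC0

open Finset Pool.Agent.ParityAC Pool.Agent.WSatChain Pool.Agent.WSatCount Filter

section core

variable {k N : ℕ}

/-- the planted tuple survives exactly if all planted bits are true -/
theorem clique_iff {ω : Os k Empty → Fin N} {x : VB (Es k Empty) N → Bool} (h : ¬ BadE ω x)
    (y : Es k Empty → Bool) :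
    (∃ α : Fin k → Fin N, ∀ i j, eb2 (inst endsK x ω y) i j (α i) (α j) = true) ↔
      ∀ e, y e = true := by
  have hst : ∀ i j, inst endsK x ω y ((i, Sum.inl j), ω (Sum.inl i), ω (Sum.inl j)) =
      y (i, Sum.inl j) := by
    intro i j
    exact inst_st endsK x ω y (i, Sum.inl j)
  constructor
  · rintro ⟨α, hα⟩
    have hαω : α = fun i => ω (Sum.inl i) := by
      by_contra hne
      apply h
      refine ⟨α, hne, ?_⟩
      intro i j hij
      have h2 := hα i j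
      unfold eb2 inst at h2
      simp only [st, endsK, Prod.mk.injEq, true_and] at h2
      rw [if_neg (fun hc => hij hc.1)] at h2
      exact h2
    subst hαω
    rintro ⟨i, o⟩
    cases o with
    | inl j =>
      rw [← hst]
      exact hα i j
    | inr g => exact g.elim
  · intro hy
    refine ⟨fun i => ω (Sum.inl i), ?_⟩
    intro i j
    show inst endsK x ω y ((i, Sum.inl j), ω (Sum.inl i), ω (Sum.inl j)) = true
    rw [hst]
    exact hy _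

/-- a function that computes the clique depends on all slots -/
theorem dep_all {ω : Os k Empty → Fin N} {x : VB (Es k Empty) N → Bool} (h : ¬ BadE ω x)
    {f : (VB (Es k Empty) N → Bool) → Bool}
    (hf : ∀ x, f x = true ↔ ∃ α : Fin k → Fin N, ∀ i j, eb2 x i j (α i) (α j) = true) {r : ℕ}
    (hg : Gd endsK r f ω x) : k ≤ r := by
  classical
  have hD : ∀ e, e ∈ Dp endsK f x ω := by
    intro e
    rw [mem_Dp]
    refine ⟨fun _ => true, ?_⟩
    have h1 : f (inst endsK x ω fun _ => true) = true := by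
      rw [hf, clique_iff h]
      exact fun _ => rfl
    have h2 : f (inst endsK x ω (flp (fun _ => true) e)) = false := by
      rw [Bool.eq_false_iff, ne_eq, hf, clique_iff h]
      intro h3
      have h4 := h3 e
      rw [flp_self] at h4
      exact absurd h4 (by simp)
    show f (inst endsK x ω (flp (fun _ => true) e)) ≠ f (inst endsK x ω fun _ => true)
    rw [h1, h2]
    simp
  refine le_trans ?_ hg
  have h1 : (univ : Finset (Fin k)).image (fun i => (Sum.inl i : Os k Empty)) ⊆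
      tch endsK (Dp endsK f x ω) := by
    intro o ho
    obtain ⟨i, _, rfl⟩ := Finset.mem_image.1 ho
    exact tch_fst endsK (hD (i, Sum.inl i))
  have h2 := Finset.card_le_card h1
  rwa [Finset.card_image_of_injective _ (fun i j hij => Sum.inl.inj hij), Finset.card_univ,
    Fintype.card_fin] at h2

theorem core1 {n : ℕ} (e : N2 k N ≃ Fin n) (F : Red (Bit n)) {S D r : ℕ}
    (hF : F.All (ACFun S D))
    (hG : ∀ eb, GAMMA 1 1 _ (F.apply (bits (src2F e eb))))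
    (hred : ∀ eb, (src2F e eb).WSat k ↔
      (F.apply (bits (src2F e eb))).WSat (F.param (bits (src2F e eb))))
    (hN : 1 ≤ N) {p l κ : ℝ} (hp0 : 0 ≤ p) (hp1 : p ≤ 1) (H : RW (lw p) l κ) (hl : 0 < l)
    (hr : 2 ≤ r) (hS : 2 ≤ S) {s1 : ℕ} (hs1 : 2 ≤ s1)
    (hnum1 : (((1 + N * p ^ k) ^ k - 1) + Fintype.card Empty * N * p ^ k) +
      Fintype.card Unit * (cst S (D + 13) * mu (Es k Empty) N r (s1 - 1) (l ^ (D + 13))
        ((D + 13 : ℕ) * S ^ (D + 13) * (4 * s1 * κ) ^ s1)) < 1)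
    (hM : F.M ≤ S) (hK : 2 ^ F.K ≤ S)
    (hthr : ∀ m ≤ F.K + 1, (m * F.M + 1) * (2 * m ^ 2 + 1) ^ m ≤ S) : k ≤ r := by
  classical
  let FX : Red (VB (Es k Empty) N) := F.comp (src2B e)
  have hFX : FX.All (ACG (Sm 1) S D) := Red.comp_all (fun f hf => acfun_comp (src2B_sm e) hf) hF
  have hGX : ∀ x, GAMMA 1 1 _ (FX.apply x) := fun x => hG (eb2 x)
  have h1 := gam11_acg hFX hGX hS hM hK hthr
  obtain ⟨ω, x, hbad, hgd⟩ := stage_one (ends := endsK) endsK_inj hN H hl hr (by omega) hs1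
    (I := Unit) (fun _ => fun x => decide ((FX.apply x).WSat (FX.param x))) (fun _ => h1)
    (fun ω x => BadE ω x ∨ BadC ω x) (plant_bad hN hp0 hp1) hnum1
  push Not at hbad
  refine dep_all hbad.1 (f := fun x => decide ((FX.apply x).WSat (FX.param x))) ?_ (hgd ())
  intro x
  rw [decide_eq_true_eq]
  have h2 : (FX.apply x).WSat (FX.param x) ↔ (src2F e (eb2 x)).WSat k := (hred (eb2 x)).symm
  have h3 : (src2F e (eb2 x)).WSat k ↔ (src2 (eb2 x)).WSat k :=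
    ⟨iso_wsat (src2F_iso e _).symm, iso_wsat (src2F_iso e _)⟩
  rw [h2, h3, src2_wsat]

end core

theorem count_nodes2 {k b L a : ℕ} (hL : L = 2 ^ b) (t2 : 40 * (k + 1) ^ 2 + 1 ≤ L) :
    Nat.card (N2 k (L ^ a)) + 1 ≤ L ^ (2 * a + 8) := by
  have hL2 : 2 ≤ L := by
    have : 1 ≤ (k + 1) ^ 2 := Nat.one_le_pow _ _ (by omega)
    omega
  have hp : ∀ m, 1 ≤ L ^ m := fun m => Nat.one_le_pow _ _ (by omega)
  have e2 : L ^ a + 1 ≤ L ^ (a + 1) := by
    have := hp a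
    calc L ^ a + 1 ≤ L ^ a * 2 := by omega
      _ ≤ L ^ a * L := Nat.mul_le_mul_left _ hL2
      _ = _ := (pow_succ _ _).symm
  have h0 := card_N2_le (k := k) (N := L ^ a)
  calc Nat.card (N2 k (L ^ a)) + 1
      ≤ (k + 1) * (k + 1) * (L ^ (a + 1) * L ^ (a + 1) * (2 * 6)) + L ^ (2 * a + 2) := by
        refine Nat.add_le_add (h0.trans ?_) (hp _)
        gcongr
    _ = L ^ (2 * a + 2) * (12 * (k + 1) ^ 2 + 1) := by ring
    _ ≤ L ^ (2 * a + 2) * L := by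
        apply Nat.mul_le_mul_left
        omega
    _ = L ^ (2 * a + 3) := by rw [← pow_succ]
    _ ≤ _ := Nat.pow_le_pow_right (by omega) (by omega)

/-- the numbers for the first link -/
theorem big1 {D0 D c0 c r a k e1 c1 s1 b L n : ℕ} (hc : c = c0 + 2) (hD : D = D0 + 13)
    (hr : r = 2 * c * (D + 2))
    (ha : a = (c * 8 + 1) * (D + 2) + D + 5 + (16 + 8 * D) * r ^ 2)
    (hk : r + a + 6 ≤ k) (hc1 : c1 = c * (2 * a + 8) + 1)
    (hs1 : s1 = c1 * D + a * (r + 1)) (hL : L = 2 ^ b)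
    (t1 : e1 ≤ L) (t2 : 40 * (k + 1) ^ 2 + 1 ≤ L) (t3 : 8 ≤ L)
    (t5 : (2 ^ (s1 - 1)) ^ (4 * r ^ 2) ≤ L) (t6 : D * (8 * s1) ^ s1 ≤ L) (t7 : 2 ^ k ≤ L)
    (t8 : 2 ^ e1 ≤ L) (t9 : (e1 + 2) * (2 * (e1 + 1) ^ 2 + 1) ^ (e1 + 1) ≤ L)
    (e : N2 k (L ^ a) ≃ Fin n) (F : Red (Bit n))
    (hF : F.All (ACFun (e1 * (n + 1) ^ c0) D0)) (hM0 : F.M ≤ e1 * (n + 1) ^ c0)
    (hK : F.K ≤ e1)
    (hG : ∀ eb, GAMMA 1 1 _ (F.apply (bits (src2F e eb))))
    (hred : ∀ eb, (src2F e eb).WSat k ↔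
      (F.apply (bits (src2F e eb))).WSat (F.param (bits (src2F e eb)))) : False := by
  have hLp : ∀ m, 1 ≤ L ^ m := fun m => Nat.one_le_pow _ _ (by omega)
  have hn : n + 1 ≤ L ^ (2 * a + 8) := by
    have h1 := count_nodes2 (a := a) hL t2
    have h2 : Nat.card (N2 k (L ^ a)) = n := by
      rw [Nat.card_congr e, Nat.card_fin]
    rw [h2] at h1
    exact h1
  have hexp : (2 * a + 8) * c0 + 2 ≤ c1 := by
    rw [hc1, hc]
    have : (c0 + 2) * (2 * a + 8) = (2 * a + 8) * c0 + 2 * (2 * a + 8) := by ring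
    omega
  have hS0 : e1 * (n + 1) ^ c0 ≤ L ^ ((2 * a + 8) * c0 + 1) := by
    calc e1 * (n + 1) ^ c0 ≤ L * (L ^ (2 * a + 8)) ^ c0 :=
          Nat.mul_le_mul t1 (Nat.pow_le_pow_left hn _)
      _ = L ^ ((2 * a + 8) * c0 + 1) := by rw [← pow_mul, ← pow_succ']
  have hS1 : L ^ ((2 * a + 8) * c0 + 1) ≤ L ^ c1 := Nat.pow_le_pow_right (by omega) (by omega)
  have hM' : F.M ≤ L ^ ((2 * a + 8) * c0 + 1) := hM0.trans hS0
  have hM : F.M ≤ L ^ c1 := hM'.trans hS1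
  have hL1 : L ≤ L ^ c1 := by
    calc L = L ^ 1 := (pow_one L).symm
      _ ≤ L ^ c1 := Nat.pow_le_pow_right (by omega) (by omega)
  have hF' : F.All (ACFun (L ^ c1) D0) := hF.mono fun f hf => hf.monoS (hS0.trans hS1)
  have hK2 : 2 ^ F.K ≤ L ^ c1 :=
    (Nat.pow_le_pow_right (by norm_num) hK).trans (t8.trans hL1)
  have hthr : ∀ m ≤ F.K + 1, (m * F.M + 1) * (2 * m ^ 2 + 1) ^ m ≤ L ^ c1 := by
    intro m hm
    have h1 : m ≤ e1 + 1 := by omega
    have h2 : m * F.M + 1 ≤ (e1 + 2) * L ^ ((2 * a + 8) * c0 + 1) := by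
      have h3 := Nat.mul_le_mul h1 hM'
      have h4 := hLp ((2 * a + 8) * c0 + 1)
      have h5 : (e1 + 2) * L ^ ((2 * a + 8) * c0 + 1) =
          (e1 + 1) * L ^ ((2 * a + 8) * c0 + 1) + L ^ ((2 * a + 8) * c0 + 1) := by ring
      omega
    calc (m * F.M + 1) * (2 * m ^ 2 + 1) ^ m
        ≤ (e1 + 2) * L ^ ((2 * a + 8) * c0 + 1) * (2 * (e1 + 1) ^ 2 + 1) ^ (e1 + 1) := by
          apply Nat.mul_le_mul h2
          calc (2 * m ^ 2 + 1) ^ m ≤ (2 * (e1 + 1) ^ 2 + 1) ^ m := by gcongr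
            _ ≤ _ := Nat.pow_le_pow_right (by omega) h1
      _ = ((e1 + 2) * (2 * (e1 + 1) ^ 2 + 1) ^ (e1 + 1)) * L ^ ((2 * a + 8) * c0 + 1) := by ring
      _ ≤ L * L ^ ((2 * a + 8) * c0 + 1) := Nat.mul_le_mul_right _ t9
      _ = L ^ ((2 * a + 8) * c0 + 2) := by rw [← pow_succ']
      _ ≤ L ^ c1 := Nat.pow_le_pow_right (by omega) hexp
  have hr2 : 2 ≤ r := by
    rw [hr]
    have : 1 * 2 ≤ c * (D + 2) := Nat.mul_le_mul (by omega) (by omega)
    have h2 : 2 * c * (D + 2) = 2 * (c * (D + 2)) := by ring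
    omega
  -- real numbers
  have hY : (8 : ℝ) ≤ (L : ℝ) := by exact_mod_cast t3
  generalize hYL : (L : ℝ) = Y at hY
  have hY0 : 0 < Y := by linarith
  have hY1 : 1 ≤ Y := by linarith
  have hp : (1 : ℝ) / Y ≤ 1 / 2 := by
    apply one_div_le_one_div_of_le (by norm_num)
    linarith
  have hp0 : (0 : ℝ) < 1 / Y := by positivity
  have hEc : Fintype.card (Es k Empty) + 1 ≤ L ^ 4 := by
    rw [Fintype.card_prod, Fintype.card_sum, Fintype.card_fin, Fintype.card_empty]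
    calc k * (k + 0) + 1 ≤ 40 * (k + 1) ^ 2 + 1 := by nlinarith
      _ ≤ L := t2
      _ = L ^ 1 := (pow_one L).symm
      _ ≤ L ^ 4 := Nat.pow_le_pow_right (by omega) (by omega)
  have hEcR : ((Fintype.card (Es k Empty) + 1 : ℕ) : ℝ) ≤ Y ^ 4 := by
    rw [← hYL]
    exact_mod_cast hEc
  have hcst : cst (L ^ c1) D ≤ L ^ ((c1 + 1) * D) := by
    have h1 := cst_le (hLp c1) D
    calc cst (L ^ c1) D ≤ (2 * L ^ c1) ^ D := by omega
      _ ≤ (L * L ^ c1) ^ D := Nat.pow_le_pow_left (Nat.mul_le_mul_right _ (by omega)) _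
      _ = L ^ ((c1 + 1) * D) := by rw [← pow_succ', ← pow_mul]
  have hcstR : (cst (L ^ c1) D : ℝ) ≤ Y ^ ((c1 + 1) * D) := by
    rw [← hYL]
    exact_mod_cast hcst
  have hz : ((L ^ a : ℕ) : ℝ) * (1 / Y) ^ k = (Y ^ (k - a))⁻¹ := by
    push_cast
    rw [hYL, one_div, inv_pow]
    have : Y ^ k = Y ^ a * Y ^ (k - a) := by
      rw [← pow_add]
      congr 1
      omega
    rw [this, mul_inv, ← mul_assoc, mul_inv_cancel₀ (by positivity), one_mul]
  have hz6 : ((L ^ a : ℕ) : ℝ) * (1 / Y) ^ k ≤ (Y ^ 6)⁻¹ := by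
    rw [hz]
    apply inv_anti₀ (by positivity)
    exact pow_le_pow_right₀ hY1 (by omega)
  have hb0 := est_bad hY (z := ((L ^ a : ℕ) : ℝ) * (1 / Y) ^ k) (g := (0 : ℝ)) (by positivity)
    hz6 (by positivity) (k := k) (by rw [← hYL]; exact_mod_cast t7) rfl
  have herr := est_err hY1 (D := D) (c1 := c1) (s1 := s1) (m := a * (r + 1))
    (S := ((L ^ c1 : ℕ) : ℝ)) (by push_cast; rw [hYL]) hs1 (by rw [← hYL]; exact_mod_cast t6)
  have hmu := mu_le (Y := Y) (by linarith) (N := L ^ a) (r := r) (dd := s1 - 1) (D := D) (a := a)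
    (E := Es k Empty) (l := (1 / Y) ^ 2) (err := _) hEcR
    (by rw [one_div, inv_pow]) (by push_cast; rw [hYL]) (by rw [← hYL]; exact_mod_cast t5)
    herr (by positivity)
  have hmain := est_main hY (I := (1 : ℝ)) (C := (cst (L ^ c1) D : ℝ))
    (c1 := c1) (D := D) (u := (16 + 8 * D) * r ^ 2 + 2) (m := a * (r + 1))
    (one_le_pow₀ hY1) hcstR (by positivity) (μ := _) ?_ hmu ?_
  · subst hD
    have h1 := core1 e F hF' hG hred (hLp a) (p := 1 / Y) (l := (1 / Y) ^ 2) (κ := 2 * (1 / Y))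
      hp0.le (by linarith) (rw_of hp0 hp) (by positivity) hr2 (by omega) (s1 := s1) ?_ ?_ hM hK2
      hthr
    · omega
    · have h1 : 1 * 2 ≤ a * (r + 1) := Nat.mul_le_mul (by omega) (by omega)
      omega
    · have e2 : 2 * (1 / Y) = 2 * Y⁻¹ := by rw [one_div]
      rw [e2, Fintype.card_empty, Fintype.card_unit]
      push_cast at hb0 hmain ⊢
      linarith
  · unfold mu
    positivity
  · have h1 : (c1 + 1) * D + 2 * c1 = c1 * (D + 2) + D := by ring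
    have h2 : c1 * (D + 2) = a * (2 * c * (D + 2)) + (c * 8 + 1) * (D + 2) := by
      rw [hc1]
      ring
    rw [← hr] at h2
    have h3 : a * (r + 1) = a * r + a := by ring
    omega

theorem split8 {a1 a2 a3 a4 a5 a6 a7 a8 b : ℕ}
    (h : a1 + a2 + a3 + a4 + a5 + a6 + a7 + a8 ≤ b) :
    a1 ≤ b ∧ a2 ≤ b ∧ a3 ≤ b ∧ a4 ≤ b ∧ a5 ≤ b ∧ a6 ≤ b ∧ a7 ≤ b ∧ a8 ≤ b := by
  refine ⟨?_, ?_, ?_, ?_, ?_, ?_, ?_, ?_⟩ <;> omega

/-- **The first link**, for all large slices. -/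
theorem not_slice_first (D0 c0 : ℕ) : ∃ k0, ∀ k ≥ k0,
    ¬ SliceAC0 D0 c0 k (GAMMA 1 2) (GAMMA 1 1) := by
  obtain ⟨c, hc⟩ : ∃ c, c = c0 + 2 := ⟨_, rfl⟩
  obtain ⟨D, hD⟩ : ∃ D, D = D0 + 13 := ⟨_, rfl⟩
  obtain ⟨r, hr⟩ : ∃ r, r = 2 * c * (D + 2) := ⟨_, rfl⟩
  obtain ⟨a, ha⟩ : ∃ a, a = (c * 8 + 1) * (D + 2) + D + 5 + (16 + 8 * D) * r ^ 2 := ⟨_, rfl⟩
  refine ⟨r + a + 6, ?_⟩
  rintro k hk ⟨e1, F, hF, hred⟩
  obtain ⟨c1, hc1⟩ : ∃ c1, c1 = c * (2 * a + 8) + 1 := ⟨_, rfl⟩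
  obtain ⟨s1, hs1⟩ : ∃ s1, s1 = c1 * D + a * (r + 1) := ⟨_, rfl⟩
  obtain ⟨b, hb⟩ : ∃ b, b = e1 + (40 * (k + 1) ^ 2 + 1) + 8 +
    (2 ^ (s1 - 1)) ^ (4 * r ^ 2) + D * (8 * s1) ^ s1 + 2 ^ k + 2 ^ e1 +
    (e1 + 2) * (2 * (e1 + 1) ^ 2 + 1) ^ (e1 + 1) := ⟨_, rfl⟩
  have hbL : b ≤ 2 ^ b := Nat.lt_two_pow_self.le
  obtain ⟨u1, u2, u3, u4, u5, u6, u7, u8⟩ := split8 hb.symm.le
  obtain ⟨n, hn⟩ : ∃ n, n = Nat.card (N2 k ((2 ^ b) ^ a)) := ⟨_, rfl⟩
  let e : N2 k ((2 ^ b) ^ a) ≃ Fin n := (Finite.equivFinOfCardEq hn.symm)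
  obtain ⟨h1, h2, h3⟩ := hF n
  have h4 : ∀ eb, GAMMA 1 2 _ (src2F e eb) := fun eb =>
    isoInv_gamma 1 2 _ _ _ _ e (src2F_iso e eb) src2_gamma
  exact big1 hc hD hr ha hk hc1 hs1 rfl (u1.trans hbL) (u2.trans hbL) (u3.trans hbL)
    (u4.trans hbL) (u5.trans hbL) (u6.trans hbL) (u7.trans hbL) (u8.trans hbL) e (F n) h1 h2 h3
    (fun eb => (hred n (src2F e eb) (h4 eb)).1) (fun eb => (hred n (src2F e eb) (h4 eb)).2)

end Pool.Agent.WSatAC0
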