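import Pool.Agent.WSatAC0.Def
import Pool.Agent.WSatChain.Forward

/-! The reductions along the chain. -/

namespace Pool.Agent.WSatAC0

open Pool.Agent.WSatChain

/-- the identity -/
def idRed (k n : ℕ) : Red (Bit n) where
  M := n
  dom _ _ := true
  isVar p x := x (.isVar p)
  isAnd p x := x (.isAnd p)
  isOr p x := x (.isOr p)
  isNot p x := x (.isNot p)
  isOut p x := x (.isOut p)
  wire p q x := x (.wire p q)
  K := k
  par _ _ := true

theorem idRed_all (k n S : ℕ) : (idRed k n).All (ACFun S 0) where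
  dom p := Or.inl ⟨true, fun _ => rfl⟩
  isVar p := Or.inr (Or.inl ⟨.isVar p, fun _ => rfl⟩)
  isAnd p := Or.inr (Or.inl ⟨.isAnd p, fun _ => rfl⟩)
  isOr p := Or.inr (Or.inl ⟨.isOr p, fun _ => rfl⟩)
  isNot p := Or.inr (Or.inl ⟨.isNot p, fun _ => rfl⟩)
  isOut p := Or.inr (Or.inl ⟨.isOut p, fun _ => rfl⟩)
  wire p q := Or.inr (Or.inl ⟨.wire p q, fun _ => rfl⟩)
  par j := Or.inl ⟨true, fun _ => rfl⟩

/-- the nodes of the image -/
def idE (k n : ℕ) (x : Bit n → Bool) : Fin n ≃ (idRed k n).Univ x where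
  toFun p := ⟨p, rfl⟩
  invFun p := p.1
  left_inv _ := rfl
  right_inv _ := rfl

theorem idRed_iso (k n : ℕ) (C : Circ (Fin n)) :
    CIso C ((idRed k n).apply (bits C)) (idE k n (bits C)) where
  var g := by
    show C.isVar g ↔ bits C (.isVar g) = true
    simp [bits]
  and g := by
    show C.isAnd g ↔ bits C (.isAnd g) = true
    simp [bits]
  or g := by
    show C.isOr g ↔ bits C (.isOr g) = true
    simp [bits]
  not g := by
    show C.isNot g ↔ bits C (.isNot g) = true
    simp [bits]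
  out g := by
    show C.isOut g ↔ bits C (.isOut g) = true
    simp [bits]
  wire g h := by
    show C.wire g h ↔ bits C (.wire g h) = true
    simp [bits]

theorem idRed_param (k n : ℕ) (x : Bit n → Bool) : (idRed k n).param x = k := by
  unfold Red.param
  have : Nat.card {j : Fin (idRed k n).K // (idRed k n).par j x = true} = Nat.card (Fin k) :=
    Nat.card_congr (Equiv.subtypeUnivEquiv fun j => rfl)
  rw [this, Nat.card_fin]

theorem slice_of_sub {A B : CClass} (h : ∀ U C, A U C → B U C) (hB : IsoInv B) (k : ℕ) :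
    SliceAC0 0 1 k A B := by
  refine ⟨k + 1, fun n => idRed k n, ?_, ?_⟩
  · intro n
    refine ⟨idRed_all _ _ _, ?_, Nat.le_succ k⟩
    show n ≤ (k + 1) * (n + 1) ^ 1
    rw [pow_one]
    calc n ≤ 1 * (n + 1) := by omega
      _ ≤ _ := Nat.mul_le_mul_right _ (by omega)
  · intro n C hC
    refine ⟨hB _ _ _ _ _ (idRed_iso k n C) (h _ C hC), ?_⟩
    rw [idRed_param]
    exact ⟨iso_wsat (idRed_iso k n C), iso_wsat (idRed_iso k n C).symm⟩

theorem ac0_of_sub {A B : CClass} (h : ∀ U C, A U C → B U C) (hB : IsoInv B) : ReducesAC0 A B :=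
  ⟨0, 1, slice_of_sub h hB⟩

theorem slice_sub_left {D c k : ℕ} {A A' B : CClass} (h : ∀ U C, A' U C → A U C)
    (hr : SliceAC0 D c k A B) : SliceAC0 D c k A' B := by
  obtain ⟨e, F, h1, h2⟩ := hr
  exact ⟨e, F, h1, fun n C hC => h2 n C (h _ C hC)⟩

end Pool.Agent.WSatAC0
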