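import Pool.Agent.ParityAC.AltR

/-! Queries to variables on which functions depend. -/

namespace Pool.Agent.WSatAC0

open Finset Pool.Agent.ParityAC

section query

variable {V : Type}

/-- `v` is fixed -/
def Fxd (ρ : Rst V) (v : V) : Prop := ∀ x y, Ext ρ x → Ext ρ y → x v = y v

/-- `f` is constant -/
def Cst (ρ : Rst V) (f : (V → Bool) → Bool) : Prop := ∀ x y, Ext ρ x → Ext ρ y → f x = f y

theorem Fxd.sub {ρ ρ' : Rst V} {v : V} (h : Fxd ρ v) (hρ : ∀ x, Ext ρ' x → Ext ρ x) : Fxd ρ' v :=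
  fun x y hx hy => h x y (hρ x hx) (hρ y hy)

theorem Cst.sub {ρ ρ' : Rst V} {f : (V → Bool) → Bool} (h : Cst ρ f)
    (hρ : ∀ x, Ext ρ' x → Ext ρ x) : Cst ρ' f :=
  fun x y hx hy => h x y (hρ x hx) (hρ y hy)

theorem ext_def (ρ : Rst V) : Ext ρ (fun v => (ρ v).getD false) := by
  intro v b hv
  simp only [hv, Option.getD_some]

/-- `f` depends on at most `q` variables -/
def J (q : ℕ) (f : (V → Bool) → Bool) : Prop :=
  ∃ R : Finset V, R.card ≤ q ∧ ∀ x y, (∀ v ∈ R, x v = y v) → f x = f y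

theorem J.mono {q q' : ℕ} {f : (V → Bool) → Bool} (h : J q f) (hq : q ≤ q') : J q' f := by
  obtain ⟨R, h1, h2⟩ := h
  exact ⟨R, h1.trans hq, h2⟩

variable [DecidableEq V]

theorem J.op2 {q q' : ℕ} {f f' : (V → Bool) → Bool} (h : J q f) (h' : J q' f')
    (o : Bool → Bool → Bool) : J (q + q') (fun x => o (f x) (f' x)) := by
  obtain ⟨R, h1, h2⟩ := h
  obtain ⟨R', h1', h2'⟩ := h'
  refine ⟨R ∪ R', (Finset.card_union_le _ _).trans (Nat.add_le_add h1 h1'), ?_⟩
  intro x y hxy
  show o (f x) (f' x) = o (f y) (f' y)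
  rw [h2 x y fun v hv => hxy v (Finset.mem_union_left _ hv),
    h2' x y fun v hv => hxy v (Finset.mem_union_right _ hv)]

/-- `c` queries reach a state with the property `P` -/
def Qy (ρ : Rst V) (c : ℕ) (P : Rst V → Prop) : Prop :=
  ∀ (S q r : ℕ) (β : Bool) (f : (V → Bool) → Bool),
    (∀ ρ' : Rst V, (∀ x, Ext ρ' x → Ext ρ x) → P ρ' → InR ρ' S q r β f) → InR ρ S (q + c) r β f

omit [DecidableEq V] in
theorem Qy.done {ρ : Rst V} {P : Rst V → Prop} (c : ℕ) (h : P ρ) : Qy ρ c P := by
  intro S q r β f hf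
  exact (hf ρ (fun _ hx => hx) h).mono (Nat.le_add_right _ _)

omit [DecidableEq V] in
theorem Qy.bind {ρ : Rst V} {c c' : ℕ} {P Q : Rst V → Prop} (h : Qy ρ c P)
    (h' : ∀ ρ', (∀ x, Ext ρ' x → Ext ρ x) → P ρ' → Qy ρ' c' Q) : Qy ρ (c + c') Q := by
  intro S q r β f hf
  have e : q + (c + c') = (q + c') + c := by omega
  rw [e]
  apply h
  intro ρ' h1 h2
  apply h' ρ' h1 h2
  intro ρ'' h3 h4
  exact hf ρ'' (fun x hx => h1 x (h3 x hx)) h4

omit [DecidableEq V] in
theorem Qy.weaken {ρ : Rst V} {c c' : ℕ} {P Q : Rst V → Prop} (h : Qy ρ c P) (hc : c ≤ c')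
    (h' : ∀ ρ', (∀ x, Ext ρ' x → Ext ρ x) → P ρ' → Q ρ') : Qy ρ c' Q := by
  intro S q r β f hf
  exact (h S q r β f fun ρ' h1 h2 => hf ρ' h1 (h' ρ' h1 h2)).mono (Nat.add_le_add_left hc _)

/-- query the variables of a set -/
theorem Qy.vars (ρ : Rst V) (R : Finset V) {c : ℕ} (hc : R.card ≤ c) :
    Qy ρ c (fun ρ' => ∀ v ∈ R, Fxd ρ' v) := by
  intro S q r β f hf
  have h1 := InR.queryL (S := S) (q := q) (r := r) (β := β) (f := f) R.toList ρ ?_
  · refine h1.mono ?_
    rw [Finset.length_toList]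
    omega
  · intro ρ' h2 h3
    apply hf ρ' h2
    intro v hv x y hx hy
    obtain ⟨b, hb⟩ := h3 v (Finset.mem_toList.2 hv)
    rw [hb x hx, hb y hy]

/-- query a function of few variables -/
theorem Qy.junta (ρ : Rst V) {c : ℕ} {f : (V → Bool) → Bool} (h : J c f) :
    Qy ρ c (fun ρ' => Cst ρ' f) := by
  obtain ⟨R, h1, h2⟩ := h
  refine (Qy.vars ρ R h1).weaken (le_refl _) ?_
  intro ρ' _ h3 x y hx hy
  exact h2 x y fun v hv => h3 v hv x y hx hy

omit [DecidableEq V] in
/-- establish finitely many persistent properties -/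
theorem Qy.finset {ι : Type} [DecidableEq ι] {c : ℕ} (P : ι → Rst V → Prop)
    (hP : ∀ i ρ ρ', (∀ x, Ext ρ' x → Ext ρ x) → P i ρ → P i ρ') (I : Finset ι) :
    ∀ ρ : Rst V, (∀ i ∈ I, ∀ ρ', (∀ x, Ext ρ' x → Ext ρ x) → Qy ρ' c (P i)) →
      Qy ρ (I.card * c) (fun ρ' => ∀ i ∈ I, P i ρ') := by
  induction I using Finset.induction_on with
  | empty =>
    intro ρ _
    apply Qy.done
    intro i hi
    exact absurd hi (Finset.notMem_empty _)
  | insert a I ha ih =>
    intro ρ h
    have h1 := ih ρ fun i hi => h i (Finset.mem_insert_of_mem hi)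
    have h2 : Qy ρ (I.card * c + c) (fun ρ' => ∀ i ∈ insert a I, P i ρ') := by
      refine h1.bind ?_
      intro ρ' hρ' h3
      refine (h a (Finset.mem_insert_self _ _) ρ' hρ').weaken (le_refl _) ?_
      intro ρ'' hρ'' h4 i hi
      rcases Finset.mem_insert.1 hi with rfl | hi
      · exact h4
      · exact hP i ρ' ρ'' hρ'' (h3 i hi)
    refine h2.weaken ?_ fun _ _ h => h
    rw [Finset.card_insert_of_notMem ha]
    exact le_of_eq (by ring)

/-- **find all true members** of a family of functions of few variables, if there are few -/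
theorem Qy.findAll [Fintype V] {ι : Type} [Fintype ι] [DecidableEq ι]
    (H : ι → (V → Bool) → Bool) (R : ι → Finset V)
    {q0 d' : ℕ} (hR : ∀ i, (R i).card ≤ q0)
    (hdep : ∀ i x y, (∀ v ∈ R i, x v = y v) → H i x = H i y) : ∀ (m : ℕ) (ρ : Rst V),
    (∀ x, Ext ρ x → (univ.filter fun i => H i x = true).card ≤ d') →
    (∀ i, (∃ x, Ext ρ x ∧ H i x = true) → ∃ T : Finset V, T.card ≤ m ∧
      ∀ v ∈ R i, Fxd ρ v ∨ v ∈ T) →
    Qy ρ (m * (d' * q0)) (fun ρ' => ∀ i, Cst ρ' (H i)) := by
  classical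
  intro m
  induction m with
  | zero =>
    intro ρ _ hm
    apply Qy.done
    intro i x y hx hy
    by_cases hacc : ∃ x, Ext ρ x ∧ H i x = true
    · obtain ⟨T, hT1, hT2⟩ := hm i hacc
      have hT : T = ∅ := Finset.card_eq_zero.1 (Nat.le_zero.1 hT1)
      subst hT
      apply hdep
      intro v hv
      rcases hT2 v hv with h | h
      · exact h x y hx hy
      · exact absurd h (Finset.notMem_empty _)
    · push Not at hacc
      rw [Bool.eq_false_iff.2 (hacc x hx), Bool.eq_false_iff.2 (hacc y hy)]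
  | succ m ih =>
    intro ρ hprom hm
    obtain ⟨x0, hx0, hmax⟩ : ∃ x0, Ext ρ x0 ∧ ∀ x, Ext ρ x →
        (univ.filter fun i => H i x = true).card ≤ (univ.filter fun i => H i x0 = true).card := by
      have hne : (univ.filter fun x : V → Bool => Ext ρ x).Nonempty :=
        ⟨_, Finset.mem_filter.2 ⟨Finset.mem_univ _, ext_def ρ⟩⟩
      obtain ⟨x0, h1, h2⟩ := Finset.exists_max_image _
        (fun x => (univ.filter fun i => H i x = true).card) hne
      exact ⟨x0, (Finset.mem_filter.1 h1).2,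
        fun x hx => h2 x (Finset.mem_filter.2 ⟨Finset.mem_univ _, hx⟩)⟩
    let I0 : Finset ι := univ.filter fun i => H i x0 = true
    let Q : Finset V := I0.biUnion R
    have hQ : Q.card ≤ d' * q0 :=
      (Finset.card_biUnion_le_card_mul _ _ q0 fun i _ => hR i).trans
        (Nat.mul_le_mul_right _ (hprom x0 hx0))
    have e : (m + 1) * (d' * q0) = d' * q0 + m * (d' * q0) := by ring
    rw [e]
    refine (Qy.vars ρ Q hQ).bind ?_
    intro ρ' hρ' hfix
    refine ih ρ' (fun x hx => hprom x (hρ' x hx)) ?_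
    rintro i ⟨x1, hx1, hi1⟩
    obtain ⟨T, hT1, hT2⟩ := hm i ⟨x1, hρ' x1 hx1, hi1⟩
    by_cases hex : ∃ v ∈ R i, v ∈ Q ∧ ¬ Fxd ρ v
    · obtain ⟨v, hv1, hv2, hv3⟩ := hex
      have hvT : v ∈ T := (hT2 v hv1).resolve_left hv3
      refine ⟨T.erase v, ?_, ?_⟩
      · rw [Finset.card_erase_of_mem hvT]
        omega
      · intro u hu
        by_cases huv : u = v
        · subst huv
          exact Or.inl (hfix u hv2)
        · rcases hT2 u hu with h | h
          · exact Or.inl (h.sub hρ')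
          · exact Or.inr (Finset.mem_erase.2 ⟨huv, h⟩)
    · push Not at hex
      have hmem : i ∈ I0 := by
        by_contra hni
        let x2 : V → Bool := fun v => if v ∈ R i then x1 v else x0 v
        have hx2 : Ext ρ x2 := by
          intro v b hvb
          show (if v ∈ R i then x1 v else x0 v) = b
          split
          · exact hρ' x1 hx1 v b hvb
          · exact hx0 v b hvb
        have h1 : H i x2 = true := by
          rw [← hi1]
          apply hdep
          intro v hv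
          show (if v ∈ R i then x1 v else x0 v) = x1 v
          rw [if_pos hv]
        have h2 : insert i I0 ⊆ univ.filter fun i => H i x2 = true := by
          intro j hj
          rw [Finset.mem_filter]
          refine ⟨Finset.mem_univ _, ?_⟩
          rcases Finset.mem_insert.1 hj with rfl | hj
          · exact h1
          · have h3 : H j x0 = true := (Finset.mem_filter.1 hj).2
            rw [← h3]
            apply hdep
            intro v hv
            show (if v ∈ R i then x1 v else x0 v) = x0 v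
            split
            · rename_i hvi
              exact hex v hvi (Finset.mem_biUnion.2 ⟨j, hj, hv⟩) x1 x0 (hρ' x1 hx1) hx0
            · rfl
        have h3 := (Finset.card_le_card h2).trans (hmax x2 hx2)
        rw [Finset.card_insert_of_notMem hni] at h3
        exact absurd h3 (by simp [I0])
      refine ⟨∅, Nat.zero_le _, ?_⟩
      intro v hv
      exact Or.inl (hfix v (Finset.mem_biUnion.2 ⟨i, hmem, hv⟩))

/-- the same, from functions of few variables -/
theorem Qy.findJ [Fintype V] {ι : Type} [Fintype ι] [DecidableEq ι]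
    {H : ι → (V → Bool) → Bool} {q0 d' : ℕ} (hJ : ∀ i, J q0 (H i)) (ρ : Rst V)
    (hprom : ∀ x, Ext ρ x → (univ.filter fun i => H i x = true).card ≤ d') :
    Qy ρ (q0 * (d' * q0)) (fun ρ' => ∀ i, Cst ρ' (H i)) := by
  choose R h1 h2 using hJ
  exact Qy.findAll H R h1 h2 q0 ρ hprom fun i _ => ⟨R i, h1 i, fun v hv => Or.inr hv⟩

omit [DecidableEq V] in
/-- queries before a constant -/
theorem Qy.toInR {ρ : Rst V} {c : ℕ} {f : (V → Bool) → Bool} (h : Qy ρ c (fun ρ' => Cst ρ' f))
    {S : ℕ} (hS : 1 ≤ S) (r : ℕ) (β : Bool) : InR ρ S c r β f := by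
  have h1 := h S 0 r β f ?_
  · rwa [Nat.zero_add] at h1
  · intro ρ' _ h2
    exact InR.const hS 0 (f fun v => (ρ' v).getD false) r β fun x hx => h2 _ _ hx (ext_def ρ')

end query

end Pool.Agent.WSatAC0
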