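import Pool.Agent.WSatAC0.JEval

/-! The whole image as an alternating function. -/

namespace Pool.Agent.WSatAC0

open Finset Pool.Agent.ParityAC Pool.Agent.WSatChain Pool.Agent.WSatCount

section alt

variable {V : Type}

theorem gt_surj {S S' : ℕ} {β : Bool} (φ : Fin S' → Fin S) (hφ : Function.Surjective φ)
    (u : Fin S → Bool) : gt β (fun i => u (φ i)) = gt β u := by
  cases β
  · rw [Bool.eq_iff_iff, gt_false, gt_false]
    constructor
    · rintro ⟨i, hi⟩
      exact ⟨φ i, hi⟩
    · rintro ⟨i, hi⟩
      obtain ⟨j, rfl⟩ := hφ i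
      exact ⟨j, hi⟩
  · rw [Bool.eq_iff_iff, gt_true, gt_true]
    constructor
    · intro h i
      obtain ⟨j, rfl⟩ := hφ i
      exact h j
    · intro h i
      exact h _

theorem InAlt.monoS {S S' q : ℕ} (hS : 1 ≤ S) (hSS : S ≤ S') : ∀ {r : ℕ} {β : Bool}
    {f : (V → Bool) → Bool}, InAlt S q r β f → InAlt S' q r β f := by
  intro r
  induction r with
  | zero => intro β f h; exact h
  | succ r ih =>
    rintro β f ⟨u, hu1, hu2⟩
    let φ : Fin S' → Fin S := fun i => ⟨min i.1 (S - 1), by omega⟩
    have hφ : Function.Surjective φ := by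
      intro i
      refine ⟨⟨i.1, by omega⟩, ?_⟩
      apply Fin.ext
      show min i.1 (S - 1) = i.1
      omega
    refine ⟨fun i => u (φ i), fun i => ih (hu1 _), ?_⟩
    intro x
    rw [hu2]
    exact (gt_surj φ hφ fun i => u i x).symm

/-- add conditions to an AND gate -/
theorem InR.andFam {ρ : Rst V} {S S' q r : ℕ} (hS : 1 ≤ S) {ι : Type} [Fintype ι]
    (hι : S + Fintype.card ι ≤ S') {f : (V → Bool) → Bool} (hf : InR ρ S q (r + 1) true f)
    (c : ι → (V → Bool) → Bool) (hc : ∀ i, InR ρ S' q r false (c i)) {h : (V → Bool) → Bool}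
    (hh : ∀ x, Ext ρ x → (h x = true ↔ f x = true ∧ ∀ i, c i x = true)) :
    InR ρ S' q (r + 1) true h := by
  obtain ⟨g, ⟨u, hu1, hu2⟩, hg⟩ := hf
  refine InR.gate (by omega) (ι := Fin S ⊕ ι)
    (by rw [Fintype.card_sum, Fintype.card_fin]; exact hι) (Sum.elim u c) ?_ ?_
  · rintro (i | i)
    · exact ⟨u i, InAlt.monoS hS (by omega) (hu1 i), fun _ _ => rfl⟩
    · exact hc i
  · intro x hx
    rw [hh x hx, ← hg x hx, hu2, gt_true]
    simp only [if_true]
    constructor
    · rintro ⟨h1, h2⟩ (i | i)
      · exact h1 i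
      · exact h2 i
    · intro h1
      exact ⟨fun i => h1 (Sum.inl i), fun i => h1 (Sum.inr i)⟩

end alt

section top

variable {V : Type} [Fintype V] [DecidableEq V] {F : Red V} {t' d q0 : ℕ}

/-- the chosen variables -/
def gset (γ : Fin F.K → Option (Fin F.M)) : Fin F.M → Prop := fun m => ∃ j, γ j = some m

/-- the test of the parameter bit `j` -/
def chk (F : Red V) (γ : Fin F.K → Option (Fin F.M)) (j : Fin F.K) : (V → Bool) → Bool := fun x =>
  match γ j with
  | none => !(F.par j x)
  | some m => F.par j x && (F.dom m x && F.isVar m x)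

/-- the test of the output -/
def chkO (F : Red V) (o : Fin F.M) : (V → Bool) → Bool := fun x => F.dom o x && F.isOut o x

omit [Fintype V] in
theorem chk_J (hJ : F.All (J q0)) (γ : Fin F.K → Option (Fin F.M)) (j : Fin F.K) :
    J (3 * q0) (chk F γ j) := by
  cases hγ : γ j with
  | none =>
    have h1 := (hJ.par j).op2 (hJ.par j) (fun a _ => !a)
    refine J.mono (q := q0 + q0) ?_ (by omega)
    have e : chk F γ j = fun x => !(F.par j x) := by
      funext x
      simp only [chk, hγ]
    rw [e]
    exact h1
  | some m =>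
    have h1 := (hJ.par j).op2 ((hJ.dom m).op2 (hJ.isVar m) (fun a b => a && b)) (fun a b => a && b)
    refine J.mono (q := q0 + (q0 + q0)) ?_ (by omega)
    have e : chk F γ j = fun x => F.par j x && (F.dom m x && F.isVar m x) := by
      funext x
      simp only [chk, hγ]
    rw [e]
    exact h1

/-- the guess is injective -/
def gInj (γ : Fin F.K → Option (Fin F.M)) : Prop :=
  ∀ j j' m, γ j = some m → γ j' = some m → j = j'

omit [Fintype V] [DecidableEq V] in
theorem wsat_iffJ (hG : ∀ x, GAMMA t' d _ (F.apply x)) (x : V → Bool) :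
    (F.apply x).WSat (F.param x) ↔ ∃ i : (Fin F.K → Option (Fin F.M)) × Fin F.M,
      gInj i.1 ∧ chkO F i.2 x = true ∧ valF hG (gset i.1) i.2 x ∧ ∀ j, chk F i.1 j x = true := by
  classical
  have hfin := univ_finite F x
  have hC := (hG x).1.toIsCircuit
  constructor
  · rintro ⟨val, hv, hout, hcard⟩
    obtain ⟨e⟩ : Nonempty ({j : Fin F.K // F.par j x = true} ≃
        {q // (F.apply x).isVar q ∧ val q}) :=
      (Finite.card_eq (α := {j : Fin F.K // F.par j x = true})).1 hcard.symm
    let γ : Fin F.K → Option (Fin F.M) := fun j =>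
      if h : F.par j x = true then some (e ⟨j, h⟩).1.1 else none
    have hγ : ∀ j (h : F.par j x = true), γ j = some (e ⟨j, h⟩).1.1 := fun j h => by
      simp only [γ, dif_pos h]
    have hγ' : ∀ j, ¬ F.par j x = true → γ j = none := fun j h => by
      simp only [γ, dif_neg h]
    have hγ2 : ∀ j m, γ j = some m → ∃ h : F.par j x = true, m = (e ⟨j, h⟩).1.1 := by
      intro j m hm
      by_cases h : F.par j x = true
      · refine ⟨h, ?_⟩
        rw [hγ j h] at hm
        exact (Option.some.inj hm).symm
      · rw [hγ' j h] at hm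
        exact absurd hm (by simp)
    obtain ⟨o, ho, _⟩ := hC.out
    refine ⟨(γ, o.1), ?_, ?_, ?_, ?_⟩
    · intro j j' m hj hj'
      obtain ⟨h, h1⟩ := hγ2 j m hj
      obtain ⟨h', h1'⟩ := hγ2 j' m hj'
      have h2 : e ⟨j, h⟩ = e ⟨j', h'⟩ := Subtype.ext (Subtype.ext (h1.symm.trans h1'))
      exact congrArg Subtype.val (e.injective h2)
    · show (F.dom o.1 x && F.isOut o.1 x) = true
      rw [Bool.and_eq_true]
      exact ⟨o.2, ho⟩
    · rw [valF_iff o.2]
      have hev := evv_spec hG (gset γ) x
      have h1 := eval_unique hC hev.1 hv ?_ o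
      · exact h1.2 (hout o ho)
      · intro q hq
        rw [hev.2 q hq]
        constructor
        · rintro ⟨j, hj⟩
          obtain ⟨h, h1⟩ := hγ2 j q.1 hj
          have h2 : q = (e ⟨j, h⟩).1 := Subtype.ext h1
          rw [h2]
          exact (e ⟨j, h⟩).2.2
        · intro h2
          let j := e.symm ⟨q, hq, h2⟩
          refine ⟨j.1, ?_⟩
          rw [hγ j.1 j.2]
          have h3 : e ⟨j.1, j.2⟩ = ⟨q, hq, h2⟩ := e.apply_symm_apply _
          rw [h3]
    · intro j
      by_cases h : F.par j x = true
      · have h1 := (e ⟨j, h⟩).2.1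
        have h2 := (e ⟨j, h⟩).1.2
        simp only [chk, hγ j h, h, Bool.true_and, Bool.and_eq_true]
        exact ⟨h2, h1⟩
      · simp only [chk, hγ' j h]
        simpa using h
  · rintro ⟨⟨γ, o⟩, hinj, hO, hval, hchk⟩
    have hev := evv_spec hG (gset γ) x
    simp only [chkO, Bool.and_eq_true] at hO
    refine ⟨evv hG (gset γ) x, hev.1, ?_, ?_⟩
    · intro q hq
      have h1 : q = ⟨o, hO.1⟩ := hC.out.unique hq hO.2
      rw [h1]
      exact (valF_iff hO.1).1 hval
    · have hsome : ∀ j, F.par j x = true → ∃ m, γ j = some m ∧ F.dom m x = true ∧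
          F.isVar m x = true := by
        intro j hj
        have h1 := hchk j
        cases hγ : γ j with
        | none =>
          simp only [chk, hγ, hj] at h1
          exact absurd h1 (by simp)
        | some m =>
          simp only [chk, hγ, Bool.and_eq_true] at h1
          exact ⟨m, rfl, h1.2.1, h1.2.2⟩
      have hpar : ∀ j m, γ j = some m → F.par j x = true := by
        intro j m hm
        have h1 := hchk j
        simp only [chk, hm, Bool.and_eq_true] at h1
        exact h1.1
      choose m hm1 hm2 hm3 using hsome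
      let φ : {j : Fin F.K // F.par j x = true} →
          {q // (F.apply x).isVar q ∧ evv hG (gset γ) x q} := fun j =>
        ⟨⟨m j.1 j.2, hm2 j.1 j.2⟩, hm3 j.1 j.2,
          (hev.2 ⟨m j.1 j.2, hm2 j.1 j.2⟩ (hm3 j.1 j.2)).2 ⟨j.1, hm1 j.1 j.2⟩⟩
      have hφ : Function.Bijective φ := by
        constructor
        · intro j j' h
          have h1 : m j.1 j.2 = m j'.1 j'.2 := congrArg (fun q => q.1.1) h
          apply Subtype.ext
          apply hinj j.1 j'.1 (m j.1 j.2) (hm1 j.1 j.2)
          rw [h1]
          exact hm1 j'.1 j'.2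
        · rintro ⟨q, hq1, hq2⟩
          obtain ⟨j, hj⟩ := (hev.2 _ hq1).1 hq2
          refine ⟨⟨j, hpar j _ hj⟩, ?_⟩
          apply Subtype.ext
          apply Subtype.ext
          show m j _ = q.1
          have h1 := hm1 j (hpar j _ hj)
          show m j _ = _
          exact Option.some.inj (h1.symm.trans hj)
      unfold Red.param
      rw [← Nat.card_congr (Equiv.ofBijective φ hφ)]

open Classical in
/-- **the image as an alternating function** -/
theorem jtop {s : ℕ} (hJ : F.All (J q0)) (hG : ∀ x, GAMMA (s + 1) d _ (F.apply x)) {S S' : ℕ}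
    (hS : 1 ≤ S) (hM : F.M ≤ S) (hS' : S + F.K ≤ S') (hS'' : (F.M + 1) ^ (F.K + 1) ≤ S') :
    InAlt S' (cL d q0 + (s + 1) * (6 * q0) + 3 * q0 + 2 * q0) (s + 2) false
      (fun x => decide ((F.apply x).WSat (F.param x))) := by
  apply InR.toAlt
  let u : (Fin F.K → Option (Fin F.M)) × Fin F.M → (V → Bool) → Bool := fun i x =>
    decide (gInj i.1 ∧ chkO F i.2 x = true ∧ valF hG (gset i.1) i.2 x ∧
      ∀ j, chk F i.1 j x = true)
  have hS1 : 1 ≤ S' := by omega
  refine InR.gate hS1 (ι := (Fin F.K → Option (Fin F.M)) × Fin F.M) ?_ u ?_ ?_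
  · rw [Fintype.card_prod, Fintype.card_fun, Fintype.card_option, Fintype.card_fin,
      Fintype.card_fin]
    refine le_trans ?_ hS''
    rw [pow_succ]
    exact Nat.mul_le_mul_left _ (Nat.le_succ _)
  · intro i
    by_cases hinj : gInj i.1
    · have hOJ : J (2 * q0) (chkO F i.2) := by
        have := (hJ.dom i.2).op2 (hJ.isOut i.2) (fun a b => a && b)
        exact J.mono this (by omega)
      apply Qy.junta _ hOJ
      intro ρ s1 k1
      by_cases hO : chkO F i.2 (fun v => (ρ v).getD false) = true
      · have hO' : ∀ x, Ext ρ x → chkO F i.2 x = true := by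
          intro x hx
          rw [k1 x _ hx (ext_def ρ)]
          exact hO
        have h1 := evJ hJ hG (gset i.1) hS hM (s + 1) true ρ i.2 ?_
        · have h2 := InR.andFam (S' := S') (q := cL d q0 + (s + 1) * (6 * q0) + 3 * q0)
            (r := s) hS (ι := Fin F.K) (by rw [Fintype.card_fin]; exact hS')
            (h1.mono (Nat.le_add_right _ _)) (fun j => chk F i.1 j) ?_ (h := u i) ?_
          · exact h2
          · intro j
            exact ((Qy.junta ρ (chk_J hJ i.1 j)).toInR hS1 s false).mono (by omega)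
          · intro x hx
            simp only [u, decide_eq_true_eq, hinj, hO' x hx, true_and]
        · intro x hx
          have h2 := hO' x hx
          simp only [chkO, Bool.and_eq_true] at h2
          exact ⟨h2.1, (hG x).2 _ h2.2⟩
      · refine InR.const hS1 _ false _ _ ?_
        intro x hx
        show decide _ = false
        rw [decide_eq_false_iff_not]
        rintro ⟨_, h2, _⟩
        rw [k1 x _ hx (ext_def ρ)] at h2
        exact hO h2
    · refine InR.const hS1 _ false _ _ ?_
      intro x hx
      show decide _ = false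
      rw [decide_eq_false_iff_not]
      rintro ⟨h2, _⟩
      exact hinj h2
  · intro x _
    simp only [u, decide_eq_true_eq, Bool.false_eq_true, if_false]
    exact wsat_iffJ hG x

end top

end Pool.Agent.WSatAC0
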