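import Pool.Agent.WSatAC0.NodesSem

/-! The number of nodes of the source circuits, and their weighted satisfiability. -/

namespace Pool.Agent.WSatAC0

open Pool.Agent.WSatChain Pool.Agent.ParityAC Finset

section src

variable {k N A1 : ℕ} {B : Type} [Fintype B] {s : ℕ}

/-- the size of the history -/
def lenN : Nd k N A1 B → ℕ
  | .gate L => L.length
  | .leaf L _ _ _ _ => L.length
  | .nt L _ _ _ _ _ _ => L.length
  | _ => 0

theorem vld_len {e : Nd k N A1 B} (h : vld s e) : lenN e ≤ s := by
  cases e with
  | gate L => exact h.2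
  | leaf L j β w u => exact le_of_eq h.2.1
  | nt L j β w u i a => exact le_of_eq h.2.1
  | _ => exact Nat.zero_le _

/-- the codes of the names -/
abbrev CN (k N A1 : ℕ) (B : Type) (s : ℕ) : Type :=
  (Fin s → Option (B × (B → ZMod 2))) × ((B → ZMod 2) × (Option B × (ZMod 2 × (Option (Fin A1) ×
    ((Option (Fin N) × Option (Fin N)) × ((Option (Fin k) × Option (Fin k)) ×
      (Bool × Fin 10)))))))

/-- the list as a function -/
def codeLN (s : ℕ) (L : List (B × (B → ZMod 2))) : Fin s → Option (B × (B → ZMod 2)) :=
  fun p => L[p.1]?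

omit [Fintype B] in
theorem codeLN_inj {L L' : List (B × (B → ZMod 2))} (h : L.length ≤ s) (h' : L'.length ≤ s)
    (he : codeLN s L = codeLN s L') : L = L' := by
  apply List.ext_getElem?
  intro n
  by_cases hn : n < s
  · exact congrFun he ⟨n, hn⟩
  · rw [List.getElem?_eq_none (by omega), List.getElem?_eq_none (by omega)]

/-- the code of a name -/
def codeN (s : ℕ) : Nd k N A1 B → CN k N A1 B s
  | .var i a => (codeLN s [], 0, none, 0, none, (some a, none), (some i, none), false, 0)
  | .gam γ => (codeLN s [], γ, none, 0, none, (none, none), (none, none), false, 1)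
  | .grp i => (codeLN s [], 0, none, 0, none, (none, none), (some i, none), false, 2)
  | .grpG => (codeLN s [], 0, none, 0, none, (none, none), (none, none), false, 3)
  | .dump => (codeLN s [], 0, none, 0, none, (none, none), (none, none), false, 4)
  | .cl i j a a' => (codeLN s [], 0, none, 0, none, (some a, some a'), (some i, some j), false, 5)
  | .ncl i j a a' b => (codeLN s [], 0, none, 0, none, (some a, some a'), (some i, some j), b, 6)
  | .gate L => (codeLN s L, 0, none, 0, none, (none, none), (none, none), false, 7)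
  | .leaf L j β w u => (codeLN s L, 0, some j, β, some w, (some u, none), (none, none), false, 8)
  | .nt L j β w u i a => (codeLN s L, 0, some j, β, some w, (some u, some a), (some i, none),
      false, 9)

omit [Fintype B] in
theorem codeN_inj {e e' : Nd k N A1 B} (h : lenN e ≤ s) (h' : lenN e' ≤ s)
    (he : codeN s e = codeN s e') : e = e' := by
  cases e <;> cases e' <;> simp only [codeN, Prod.mk.injEq, Option.some.injEq, Fin.isValue,
    Fin.reduceEq, and_false, and_true, true_and, reduceCtorEq] at he
  case var.var => rw [he.1, he.2]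
  case gam.gam => rw [he]
  case grp.grp => rw [he]
  case grpG.grpG => rfl
  case dump.dump => rfl
  case cl.cl => rw [he.1.1, he.1.2, he.2.1, he.2.2]
  case ncl.ncl => rw [he.1.1, he.1.2, he.2.1.1, he.2.1.2, he.2.2]
  case gate.gate => rw [codeLN_inj h h' he]
  case leaf.leaf => rw [codeLN_inj h h' he.1, he.2.1, he.2.2.1, he.2.2.2.1, he.2.2.2.2]
  case nt.nt =>
    rw [codeLN_inj h h' he.1, he.2.1, he.2.2.1, he.2.2.2.1, he.2.2.2.2.1.1, he.2.2.2.2.1.2,
      he.2.2.2.2.2]

theorem codeU_inj : Function.Injective (fun e : UN k N A1 B s => codeN s e.1) := by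
  intro e e' he
  exact Subtype.ext (codeN_inj (vld_len e.2) (vld_len e'.2) he)

instance : Finite (UN k N A1 B s) := Finite.of_injective _ codeU_inj

theorem card_UN_le : Nat.card (UN k N A1 B s) ≤
    (Fintype.card B * 2 ^ Fintype.card B + 1) ^ s * (2 ^ Fintype.card B * ((Fintype.card B + 1) *
      (2 * ((A1 + 1) * ((N + 1) * (N + 1) * ((k + 1) * (k + 1) * (2 * 10))))))) := by
  classical
  refine (Nat.card_le_card_of_injective _ codeU_inj).trans ?_
  unfold CN
  simp only [Nat.card_eq_fintype_card, Fintype.card_option,
    Fintype.card_prod, Fintype.card_fin, Fintype.card_fun, Fintype.card_bool, ZMod.card]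
  exact le_refl _

variable {X : Dat k N A1 B}

/-- **weighted satisfiability** of the source circuits is the parity of the hidden bits -/
theorem src_wsatN {ω : Fin k → Fin N} {ζ : List B → ZMod 2}
    (hω : ∀ α : Fin k → Fin N, (∀ i j, X.eb i j (α i) (α j) = true) ↔ α = ω)
    (hh : Hid X s ω ζ) : (srcN s X).WSat (k + 1) ↔ bp ζ (s + 1) [] = 0 := by
  constructor
  · rintro ⟨val, hv, hout, hcard⟩
    have hroot := hout _ rootN_out
    have hroot' := hroot
    rw [hv.and rootN Even.zero] at hroot'
    have h1 : ∀ i : Fin k, ∃ a, val ⟨Nd.var i a, trivial⟩ := by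
      intro i
      have h2 := hroot' ⟨Nd.grp i, trivial⟩ rfl
      rw [hv.or ⟨Nd.grp i, trivial⟩ trivial] at h2
      obtain ⟨⟨x, hx⟩, hw, h3⟩ := h2
      change wrN s X _ x at hw
      cases x <;> simp only [wrN] at hw
      case var i' a =>
        subst hw
        exact ⟨a, h3⟩
    obtain ⟨γ, hγ0, hγ⟩ : ∃ (γ : B → ZMod 2) (h : ∑ x, γ x = 0), val ⟨Nd.gam γ, h⟩ := by
      have h2 := hroot' ⟨Nd.grpG, trivial⟩ rfl
      rw [hv.or ⟨Nd.grpG, trivial⟩ trivial] at h2
      obtain ⟨⟨x, hx⟩, hw, h3⟩ := h2
      change wrN s X _ x at hw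
      cases x <;> simp only [wrN] at hw
      case gam γ => exact ⟨γ, hx, h3⟩
    choose α hα using h1
    let φ : Option (Fin k) → {g // (srcN s X).isVar g ∧ val g} := fun o =>
      match o with
      | none => ⟨⟨Nd.gam γ, hγ0⟩, trivial, hγ⟩
      | some i => ⟨⟨Nd.var i (α i), trivial⟩, trivial, hα i⟩
    have hφ : Function.Injective φ := by
      intro o o' h
      have h2 : (φ o).1.1 = (φ o').1.1 := by rw [h]
      cases o <;> cases o' <;> simp only [φ, reduceCtorEq, Nd.var.injEq] at h2
      · rfl
      · rw [h2.1]
    have hbij : Function.Bijective φ := by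
      have : Fintype {g // (srcN s X).isVar g ∧ val g} := Fintype.ofFinite _
      rw [Fintype.bijective_iff_injective_and_card]
      refine ⟨hφ, ?_⟩
      rw [Fintype.card_option, Fintype.card_fin, ← Nat.card_eq_fintype_card, hcard]
    have hs : Sel val α γ := by
      refine ⟨hγ0, ?_, ?_⟩
      · intro i a
        constructor
        · intro h
          obtain ⟨o, ho⟩ := hbij.2 ⟨⟨Nd.var i a, trivial⟩, trivial, h⟩
          have h2 := congrArg (fun x => x.1.1) ho
          cases o <;> simp only [φ, reduceCtorEq, Nd.var.injEq] at h2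
          obtain ⟨rfl, rfl⟩ := h2
          rfl
        · rintro rfl
          exact hα i
      · intro γ' h'
        constructor
        · intro h
          obtain ⟨o, ho⟩ := hbij.2 ⟨⟨Nd.gam γ', h'⟩, trivial, h⟩
          have h2 := congrArg (fun x => x.1.1) ho
          cases o <;> simp only [φ, reduceCtorEq, Nd.gam.injEq] at h2
          exact h2.symm
        · rintro rfl
          exact hγ
    have hcl := root_clique hv hs hroot
    have hαω := (hω α).1 hcl
    subst hαω
    have h4 := (root_val hv hs hh hcl).1 hroot
    show ∑ j, bp ζ s [j] = 0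
    rw [Finset.sum_congr rfl fun j _ => h4 j]
    exact hγ0
  · intro h
    let γ : B → ZMod 2 := fun j => bp ζ s [j]
    have hγ0 : ∑ x, γ x = 0 := h
    obtain ⟨val, hv, hvar⟩ := eval_exists (srcN_isCircuit (X := X) (s := s))
      (fun e => (∃ i, e.1 = Nd.var i (ω i)) ∨ e.1 = Nd.gam γ)
    have hs : Sel val ω γ := by
      refine ⟨hγ0, ?_, ?_⟩
      · intro i a
        rw [hvar ⟨Nd.var i a, trivial⟩ trivial]
        constructor
        · rintro (⟨i', hi'⟩ | h')
          · simp only [Nd.var.injEq] at hi'
            obtain ⟨rfl, rfl⟩ := hi'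
            rfl
          · simp at h'
        · rintro rfl
          exact Or.inl ⟨i, rfl⟩
      · intro γ' h'
        rw [hvar ⟨Nd.gam γ', h'⟩ trivial]
        constructor
        · rintro (⟨i', hi'⟩ | h')
          · simp at hi'
          · simp only [Nd.gam.injEq] at h'
            exact h'
        · rintro rfl
          exact Or.inr rfl
    have hcl : ∀ i j, X.eb i j (ω i) (ω j) = true := (hω ω).2 rfl
    refine ⟨val, hv, ?_, ?_⟩
    · intro g hg
      rw [out_rootN hg]
      exact (root_val hv hs hh hcl).2 fun j => rfl
    · let φ : Option (Fin k) → {g // (srcN s X).isVar g ∧ val g} := fun o =>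
        match o with
        | none => ⟨⟨Nd.gam γ, hγ0⟩, trivial, (hs.gam _ _).2 rfl⟩
        | some i => ⟨⟨Nd.var i (ω i), trivial⟩, trivial, (hs.var _ _).2 rfl⟩
      have hbij : Function.Bijective φ := by
        constructor
        · intro o o' h
          have h2 : (φ o).1.1 = (φ o').1.1 := by rw [h]
          cases o <;> cases o' <;> simp only [φ, reduceCtorEq, Nd.var.injEq] at h2
          · rfl
          · rw [h2.1]
        · rintro ⟨⟨x, hx⟩, h1, h2⟩
          change nVar x at h1
          cases x <;> simp only [nVar] at h1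
          case var i a =>
            have h3 := (hs.var _ _).1 h2
            subst h3
            exact ⟨some i, rfl⟩
          case gam γ' =>
            have h3 := (hs.gam _ _).1 h2
            subst h3
            exact ⟨none, rfl⟩
      rw [← Nat.card_congr (Equiv.ofBijective φ hbij), Nat.card_eq_fintype_card,
        Fintype.card_option, Fintype.card_fin]

end src

end Pool.Agent.WSatAC0
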