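import Pool.Agent.WSatAC0.Plant
import Pool.Agent.WSatAC0.JTop
import Pool.Agent.WSatAC0.NodesCard
import Pool.Agent.WSatCount.AltEval

/-! Reductions applied to the source circuits, as functions of the planted data. -/

namespace Pool.Agent.WSatAC0

open Finset Pool.Agent.ParityAC Pool.Agent.WSatChain Pool.Agent.WSatCount

section comp

variable {V W : Type}

/-- composition with a map of the input bits -/
def Red.comp (F : Red V) (τ : (W → Bool) → (V → Bool)) : Red W where
  M := F.M
  dom p x := F.dom p (τ x)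
  isVar p x := F.isVar p (τ x)
  isAnd p x := F.isAnd p (τ x)
  isOr p x := F.isOr p (τ x)
  isNot p x := F.isNot p (τ x)
  isOut p x := F.isOut p (τ x)
  wire p q x := F.wire p q (τ x)
  K := F.K
  par j x := F.par j (τ x)

theorem Red.comp_all {F : Red V} {τ : (W → Bool) → (V → Bool)} {P : ((V → Bool) → Bool) → Prop}
    {Q : ((W → Bool) → Bool) → Prop} (h : ∀ f, P f → Q (fun x => f (τ x))) (hF : F.All P) :
    (F.comp τ).All Q where
  dom p := h _ (hF.dom p)
  isVar p := h _ (hF.isVar p)
  isAnd p := h _ (hF.isAnd p)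
  isOr p := h _ (hF.isOr p)
  isNot p := h _ (hF.isNot p)
  isOut p := h _ (hF.isOut p)
  wire p q := h _ (hF.wire p q)
  par j := h _ (hF.par j)

theorem ACG.monoS {X : Type} {P : (X → Bool) → Prop} {S S' : ℕ} (hS : S ≤ S') :
    ∀ {D : ℕ} {f : X → Bool}, ACG P S D f → ACG P S' D f := by
  intro D
  induction D with
  | zero => intro f h; exact h
  | succ D ih =>
    rintro f ⟨n, hn, g, hg, hf⟩
    exact ⟨n, hn.trans hS, g, fun i => ih (hg i), hf⟩

/-- constants and literals -/
def Bp (p : (W → Bool) → Prop) : Prop :=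
  (∃ c : Prop, ∀ x, p x ↔ c) ∨ (∃ v, ∀ x, p x ↔ x v = true) ∨ (∃ v, ∀ x, p x ↔ x v = false)

theorem Bp.const (c : Prop) : Bp (W := W) (fun _ => c) := Or.inl ⟨c, fun _ => Iff.rfl⟩

theorem Bp.and {c : Prop} {p : (W → Bool) → Prop} (h : Bp p) : Bp (fun x => c ∧ p x) := by
  by_cases hc : c
  · rcases h with ⟨c', h⟩ | ⟨v, h⟩ | ⟨v, h⟩
    · exact Or.inl ⟨c', fun x => (and_iff_right hc).trans (h x)⟩
    · exact Or.inr (Or.inl ⟨v, fun x => (and_iff_right hc).trans (h x)⟩)
    · exact Or.inr (Or.inr ⟨v, fun x => (and_iff_right hc).trans (h x)⟩)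
  · exact Or.inl ⟨False, fun x => ⟨fun h => hc h.1, fun h => h.elim⟩⟩

open Classical in
theorem Bp.sm {p : (W → Bool) → Prop} (h : Bp p) : Sm 1 (fun x => decide (p x)) := by
  rcases h with ⟨c, h⟩ | ⟨v, h⟩ | ⟨v, h⟩
  · refine ⟨DT.leaf (decide c), Nat.zero_le _, ?_⟩
    intro x
    simp only [DT.eval, h]
  · refine ⟨DT.node v (DT.leaf false) (DT.leaf true), by simp [DT.depth], ?_⟩
    intro x
    simp only [DT.eval, h]
    cases x v <;> simp
  · refine ⟨DT.node v (DT.leaf true) (DT.leaf false), by simp [DT.depth], ?_⟩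
    intro x
    simp only [DT.eval, h]
    cases x v <;> simp

theorem Sm.not {d : ℕ} {f : (W → Bool) → Bool} (h : Sm d f) : Sm d (fun x => !(f x)) := by
  obtain ⟨t, h1, h2⟩ := h
  exact ⟨t.neg, by rw [DT.depth_neg]; exact h1, fun x => by rw [DT.eval_neg, h2]⟩

theorem acfun_comp {σ : (W → Bool) → (V → Bool)} (hσ : ∀ v, Sm 1 (fun x => σ x v)) {S : ℕ} :
    ∀ {D : ℕ} {f : (V → Bool) → Bool}, ACFun S D f → ACG (Sm 1) S D (fun x => f (σ x)) := by
  intro D
  induction D with
  | zero =>
    rintro f (⟨c, h⟩ | ⟨v, h⟩ | ⟨v, h⟩)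
    · exact ⟨DT.leaf c, Nat.zero_le _, fun x => (h _).symm⟩
    · have e : (fun x => f (σ x)) = fun x => σ x v := funext fun x => h _
      show Sm 1 _
      rw [e]
      exact hσ v
    · have e : (fun x => f (σ x)) = fun x => !(σ x v) := funext fun x => h _
      show Sm 1 _
      rw [e]
      exact (hσ v).not
  | succ D ih =>
    rintro f ⟨n, hn, g, hg, hf⟩
    refine ⟨n, hn, fun i x => g i (σ x), fun i => ih (hg i), ?_⟩
    rcases hf with hf | hf
    · exact Or.inl fun x => hf _
    · exact Or.inr fun x => hf _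

end comp

section src

variable {k N A1 : ℕ} {B : Type} [Fintype B] {s : ℕ}

/-- the columns -/
abbrev Gc (B : Type) (s A1 : ℕ) : Type := (VV B s × ZMod 2) × Fin A1

/-- the data from the bits -/
def dat (x : VB (Es k (Gc B s A1)) N → Bool) : Dat k N A1 B where
  eb i j a a' := x ((i, Sum.inl j), a, a')
  cb i P β w a u := if h : P.length = s + 1 then x ((i, Sum.inr ((⟨P, h⟩, β), w)), a, u) else false

omit [Fintype B] in
theorem cb_true (i : Fin k) (P : List B) (β : ZMod 2) (w : Fin A1) (a u : Fin N) :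
    Bp (fun x : VB (Es k (Gc B s A1)) N → Bool => (dat x).cb i P β w a u = true) := by
  by_cases h : P.length = s + 1
  · exact Or.inr (Or.inl ⟨_, fun x => by simp only [dat, dif_pos h]; exact Iff.rfl⟩)
  · exact Or.inl ⟨False, fun x => by simp [dat, h]⟩

omit [Fintype B] in
theorem cb_false (i : Fin k) (P : List B) (β : ZMod 2) (w : Fin A1) (a u : Fin N) :
    Bp (fun x : VB (Es k (Gc B s A1)) N → Bool => (dat x).cb i P β w a u = false) := by
  by_cases h : P.length = s + 1
  · exact Or.inr (Or.inr ⟨_, fun x => by simp only [dat, dif_pos h]; exact Iff.rfl⟩)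
  · exact Or.inl ⟨True, fun x => by simp [dat, h]⟩

theorem wrN_bp (a b : Nd k N A1 B) :
    Bp (fun x : VB (Es k (Gc B s A1)) N → Bool => wrN s (dat x) a b) := by
  cases a <;> cases b <;> simp only [wrN]
  case cl.gam i j a a' γ => exact Or.inr (Or.inl ⟨_, fun x => Iff.rfl⟩)
  case dump.nt => exact cb_true _ _ _ _ _ _
  case leaf.var => exact (cb_false _ _ _ _ _ _).and
  case leaf.nt => exact (cb_false _ _ _ _ _ _).and.and.and.and.and
  all_goals exact Bp.const _

/-- the source circuit on `Fin n` -/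
def srcF {n : ℕ} (e : UN k N A1 B s ≃ Fin n) (X : Dat k N A1 B) : Circ (Fin n) where
  isVar p := nVar (e.symm p).1
  isAnd p := nAnd s (e.symm p).1
  isOr p := nOr s (e.symm p).1
  isNot p := nNot (e.symm p).1
  isOut p := nOut (e.symm p).1
  wire p q := wrN s X (e.symm p).1 (e.symm q).1

theorem srcF_iso {n : ℕ} (e : UN k N A1 B s ≃ Fin n) (X : Dat k N A1 B) :
    CIso (srcN s X) (srcF e X) e where
  var g := by simp only [srcF, e.symm_apply_apply]; exact Iff.rfl
  and g := by simp only [srcF, e.symm_apply_apply]; exact Iff.rfl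
  or g := by simp only [srcF, e.symm_apply_apply]; exact Iff.rfl
  not g := by simp only [srcF, e.symm_apply_apply]; exact Iff.rfl
  out g := by simp only [srcF, e.symm_apply_apply]; exact Iff.rfl
  wire g h := by simp only [srcF, e.symm_apply_apply]; exact Iff.rfl

/-- the bits of the source circuit -/
noncomputable def srcB {n : ℕ} (e : UN k N A1 B s ≃ Fin n)
    (x : VB (Es k (Gc B s A1)) N → Bool) : Bit n → Bool := bits (srcF e (dat x))

theorem srcB_sm {n : ℕ} (e : UN k N A1 B s ≃ Fin n) (v : Bit n) :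
    Sm 1 (fun x : VB (Es k (Gc B s A1)) N → Bool => srcB e x v) := by
  cases v with
  | isVar g => exact (Bp.const _).sm
  | isAnd g => exact (Bp.const _).sm
  | isOr g => exact (Bp.const _).sm
  | isNot g => exact (Bp.const _).sm
  | isOut g => exact (Bp.const _).sm
  | wire g h => exact (wrN_bp _ _).sm

end src

section dep

variable {k N : ℕ} {G : Type} [Fintype G] [DecidableEq G]

/-- a good function depends on few bits at the planted positions -/
theorem junta_of_good {r : ℕ} {f : (VB (Es k G) N → Bool) → Bool} {ω : Os k G → Fin N}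
    {x : VB (Es k G) N → Bool} (h : Gd endsK r f ω x) :
    J (r ^ 2) (fun v : Fin k × G → Bool => f (inst endsK x ω (yv v))) := by
  classical
  refine ⟨univ.filter fun c => (c.1, Sum.inr c.2) ∈ Dp endsK f x ω, ?_, ?_⟩
  · have h1 : (univ.filter fun c : Fin k × G => ((c.1, Sum.inr c.2) : Es k G) ∈
        Dp endsK f x ω).card ≤ (Dp endsK f x ω).card := by
      refine Finset.card_le_card_of_injOn (fun c => (c.1, Sum.inr c.2)) ?_ ?_
      · intro c hc
        exact (Finset.mem_filter.1 hc).2
      · intro c _ c' _ hcc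
        simp only [Prod.mk.injEq, Sum.inr.injEq] at hcc
        exact Prod.ext hcc.1 hcc.2
    exact h1.trans ((card_le_tch endsK endsK_inj _).trans (Nat.pow_le_pow_left h 2))
  · intro v v' hvv
    apply eq_of_agree (g := fun y => f (inst endsK x ω y))
    rintro ⟨i, o⟩ he
    cases o with
    | inl j => rfl
    | inr g =>
      apply hvv (i, g)
      rw [Finset.mem_filter]
      exact ⟨Finset.mem_univ _, (mem_Dp endsK).2 he⟩

/-- all output bits -/
abbrev Ix {V : Type} (F : Red V) : Type := (Fin F.M × Fin 6) ⊕ ((Fin F.M × Fin F.M) ⊕ Fin F.K)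

/-- the output bit with a given name -/
def outF {V : Type} (F : Red V) : Ix F → (V → Bool) → Bool
  | Sum.inl (p, c) =>
    if c = 0 then F.dom p else if c = 1 then F.isVar p else if c = 2 then F.isAnd p
    else if c = 3 then F.isOr p else if c = 4 then F.isNot p else F.isOut p
  | Sum.inr (Sum.inl (p, q)) => F.wire p q
  | Sum.inr (Sum.inr j) => F.par j

theorem outF_of {V : Type} {F : Red V} {P : ((V → Bool) → Bool) → Prop} (h : F.All P) (i : Ix F) :
    P (outF F i) := by
  rcases i with ⟨p, c⟩ | ⟨p, q⟩ | j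
  · simp only [outF]
    split
    · exact h.dom p
    split
    · exact h.isVar p
    split
    · exact h.isAnd p
    split
    · exact h.isOr p
    split
    · exact h.isNot p
    · exact h.isOut p
  · exact h.wire p q
  · exact h.par j

theorem of_outF {V : Type} {F : Red V} {P : ((V → Bool) → Bool) → Prop}
    (h : ∀ i, P (outF F i)) : F.All P where
  dom p := h (Sum.inl (p, 0))
  isVar p := h (Sum.inl (p, 1))
  isAnd p := h (Sum.inl (p, 2))
  isOr p := h (Sum.inl (p, 3))
  isNot p := h (Sum.inl (p, 4))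
  isOut p := h (Sum.inl (p, 5))
  wire p q := h (Sum.inr (Sum.inl (p, q)))
  par j := h (Sum.inr (Sum.inr j))

end dep

end Pool.Agent.WSatAC0
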