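import Pool.Agent.WSatAC0.Rounds
import Pool.Agent.ParityAC.AltR

/-! Restrictions of whole columns. -/

namespace Pool.Agent.WSatAC0

open Finset Pool.Agent.ParityAC

/-- alternating gates over functions with property `P` -/
def InG {X : Type} (P : (X → Bool) → Prop) (S : ℕ) : ℕ → Bool → (X → Bool) → Prop
  | 0, _, f => P f
  | r + 1, β, f => ∃ u : Fin S → (X → Bool), (∀ i, InG P S r (!β) (u i)) ∧
      ∀ x, f x = gt β fun i => u i x

theorem inG_of_inAlt {V : Type} {S q : ℕ} : ∀ {r : ℕ} {β : Bool} {f : (V → Bool) → Bool},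
    InAlt S q r β f → InG (Sm q) S r β f := by
  intro r
  induction r with
  | zero => intro β f h; exact h
  | succ r ih =>
    rintro β f ⟨u, h1, h2⟩
    exact ⟨u, fun i => ih (h1 i), h2⟩

theorem inAlt_of_inG {V : Type} {S q : ℕ} : ∀ {r : ℕ} {β : Bool} {f : (V → Bool) → Bool},
    InG (Sm q) S r β f → InAlt S q r β f := by
  intro r
  induction r with
  | zero => intro β f h; exact h
  | succ r ih =>
    rintro β f ⟨u, h1, h2⟩
    exact ⟨u, fun i => ih (h1 i), h2⟩

theorem InG.mapX {X Y : Type} {P : (X → Bool) → Prop} {Q : (Y → Bool) → Prop} {S : ℕ}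
    (τ : Y → X) (h : ∀ f, P f → Q (fun y => f (τ y))) : ∀ {r : ℕ} {β : Bool} {f : X → Bool},
    InG P S r β f → InG Q S r β (fun y => f (τ y)) := by
  intro r
  induction r with
  | zero => intro β f hf; exact h f hf
  | succ r ih =>
    rintro β f ⟨u, h1, h2⟩
    exact ⟨fun i y => u i (τ y), fun i => ih (h1 i), fun y => h2 (τ y)⟩

section peel

variable {V A : Type} [Fintype V] [DecidableEq V] [Fintype A]

/-- peel one level of gates -/
theorem peel_prob {w : A → ℝ} (hw : ∀ a, 0 ≤ w a) {X Y : Type} {P : (X → Bool) → Prop}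
    {Q : (Y → Bool) → Prop} {S : ℕ} (τ : (V → A) → Y → X) {ε : ℝ}
    (h : ∀ (β : Bool) (f : X → Bool), InG P S 1 β f →
      PP w (fun ρ => ¬ Q (fun y => f (τ ρ y))) ≤ ε) :
    ∀ (r : ℕ) (β : Bool) (f : X → Bool), InG P S (r + 1) β f →
      PP w (fun ρ => ¬ InG Q S r β (fun y => f (τ ρ y))) ≤ S ^ r * ε := by
  intro r
  induction r with
  | zero =>
    intro β f hf
    rw [pow_zero, one_mul]
    exact h β f hf
  | succ r ih =>
    rintro β f ⟨u, h1, h2⟩
    have h3 : PP w (fun ρ => ¬ InG Q S (r + 1) β (fun y => f (τ ρ y))) ≤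
        ∑ i : Fin S, PP w (fun ρ => ¬ InG Q S r (!β) (fun y => u i (τ ρ y))) := by
      refine le_trans (PP_mono hw ?_) (PP_exists hw Finset.univ _)
      intro ρ hρ
      by_contra hcon
      push Not at hcon
      exact hρ ⟨fun i y => u i (τ ρ y), fun i => hcon i (Finset.mem_univ _), fun y => h2 _⟩
    refine h3.trans ((Finset.sum_le_sum fun i _ => ih (!β) (u i) (h1 i)).trans ?_)
    rw [Finset.sum_const, Finset.card_univ, Fintype.card_fin, nsmul_eq_mul, pow_succ]
    apply le_of_eq
    ring

end peel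

/-- `f` has a decision tree over the alphabet of depth at most `d` -/
def SmC {G A : Type} (d : ℕ) (f : (G → A) → Bool) : Prop :=
  ∃ t : DTA G A, t.DepthLe d ∧ ∀ x, t.eval x = f x

/-- negation -/
def DTA.neg {V A : Type} : DTA V A → DTA V A
  | .leaf b => .leaf (!b)
  | .node v t => .node v fun a => (t a).neg

theorem DTA.neg_depth {V A : Type} : ∀ (t : DTA V A) (d : ℕ), t.DepthLe d → t.neg.DepthLe d := by
  intro t
  induction t with
  | leaf b => intro d _; cases d <;> exact trivial
  | node v t ih =>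
    intro d h
    cases d with
    | zero => exact h.elim
    | succ d => exact fun a => ih a d (h a)

theorem DTA.neg_eval {V A : Type} (x : V → A) : ∀ (t : DTA V A), t.neg.eval x = !(t.eval x) := by
  intro t
  induction t with
  | leaf b => rfl
  | node v t ih => exact ih _

/-- prune by a restriction -/
def DTA.prune {V A : Type} (ρ : V → Option A) : DTA V A → DTA V A
  | .leaf b => .leaf b
  | .node v t =>
    match ρ v with
    | some a => (t a).prune ρ
    | none => .node v fun a => (t a).prune ρ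

theorem DTA.prune_depth {V A : Type} (ρ : V → Option A) : ∀ (t : DTA V A) (d : ℕ), t.DepthLe d →
    (t.prune ρ).DepthLe d := by
  intro t
  induction t with
  | leaf b => intro d _; cases d <;> exact trivial
  | node v t ih =>
    intro d h
    cases d with
    | zero => exact h.elim
    | succ d =>
      simp only [DTA.prune]
      split
      · exact (ih _ d (h _)).mono (Nat.le_succ _)
      · exact fun a => ih a d (h a)

theorem DTA.prune_eval {V A : Type} (ρ : V → Option A) (x : V → A) : ∀ (t : DTA V A),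
    (t.prune ρ).eval x = t.eval (ov ρ x) := by
  intro t
  induction t with
  | leaf b => rfl
  | node v t ih =>
    simp only [DTA.prune, DTA.eval]
    have hv : ov ρ x v = (ρ v).getD (x v) := rfl
    rw [hv]
    cases hρ : ρ v with
    | some a => simp only [Option.getD_some, ih]
    | none => simp only [DTA.eval, Option.getD_none, ih]

theorem smC_of_small {V A : Type} {f : (V → A) → Bool} {ρ : V → Option A} {d : ℕ}
    (h : SmallA f ρ d) : SmC d (fun x => f (ov ρ x)) := by
  obtain ⟨t, h1, h2⟩ := h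
  refine ⟨t.prune ρ, t.prune_depth ρ d h1, ?_⟩
  intro x
  rw [DTA.prune_eval]
  exact h2 _ (extA_ov ρ x)

theorem smC_of_neg {V A : Type} {f : (V → A) → Bool} {d : ℕ} (h : SmC d (fun x => !(f x))) :
    SmC d f := by
  obtain ⟨t, h1, h2⟩ := h
  refine ⟨t.neg, t.neg_depth d h1, ?_⟩
  intro x
  rw [DTA.neg_eval, h2]
  simp

/-- substitute symbols that depend on one bit each -/
def DTA.subst {G A Z : Type} (vv : G → Z) (c0 c1 : G → A) : DTA G A → DT Z
  | .leaf b => .leaf b
  | .node g t => .node (vv g) ((t (c0 g)).subst vv c0 c1) ((t (c1 g)).subst vv c0 c1)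

theorem DTA.subst_depth {G A Z : Type} (vv : G → Z) (c0 c1 : G → A) : ∀ (t : DTA G A) (d : ℕ),
    t.DepthLe d → (t.subst vv c0 c1).depth ≤ d := by
  intro t
  induction t with
  | leaf b => intro d _; exact Nat.zero_le _
  | node g t ih =>
    intro d h
    cases d with
    | zero => exact h.elim
    | succ d =>
      simp only [DTA.subst, DT.depth]
      have h1 := ih _ d (h (c0 g))
      have h2 := ih _ d (h (c1 g))
      omega

theorem DTA.subst_eval {G A Z : Type} (vv : G → Z) (c0 c1 : G → A) (z : Z → Bool) :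
    ∀ (t : DTA G A), (t.subst vv c0 c1).eval z =
      t.eval (fun g => if z (vv g) then c1 g else c0 g) := by
  intro t
  induction t with
  | leaf b => rfl
  | node g t ih =>
    simp only [DTA.subst, DT.eval, DTA.eval]
    by_cases h : z (vv g) = true
    · simp only [h, if_true, ih]
    · simp only [h, ih]
      rfl

theorem smC_subst {G A Z : Type} {d : ℕ} (vv : G → Z) (c0 c1 : G → A) {f : (G → A) → Bool}
    (h : SmC d f) : Sm d (fun z : Z → Bool => f (fun g => if z (vv g) then c1 g else c0 g)) := by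
  obtain ⟨t, h1, h2⟩ := h
  exact ⟨t.subst vv c0 c1, t.subst_depth vv c0 c1 d h1, fun z => by rw [DTA.subst_eval, h2]⟩

section columns

variable {k : ℕ} {G : Type} [Fintype G] [DecidableEq G]

/-- the bits of an assignment of columns -/
def bitsOf (X : G → Fin k → Bool) : Fin k × G → Bool := fun v => X v.2 v.1

/-- the column term of a path -/
noncomputable def colTerm (p : List (Fin k × G)) (M : Fin k × G → Bool) :
    TermA G (Fin k → Bool) where
  vars := p.map Prod.snd
  ok g a := decide (∀ v ∈ p, v.2 = g → a v.1 = M v)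
  sat g i := if (i, g) ∈ p then M (i, g) else false
  hsat := by
    intro g _
    rw [decide_eq_true_eq]
    rintro ⟨i, g'⟩ hv rfl
    simp [hv]

theorem colTerm_good {p : List (Fin k × G)} (hp : p.length < k) (M : Fin k × G → Bool) (g : G) :
    (colTerm p M).sat g ≠ fun _ => true := by
  intro h
  have h1 : ∀ i : Fin k, (i, g) ∈ p := by
    intro i
    by_contra hi
    have := congrFun h i
    simp [colTerm, hi] at this
  have h2 : (univ.image fun i : Fin k => (i, g)) ⊆ p.toFinset := by
    intro v hv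
    obtain ⟨i, _, rfl⟩ := Finset.mem_image.1 hv
    exact List.mem_toFinset.2 (h1 i)
  have h3 := (Finset.card_le_card h2).trans (List.toFinset_card_le p)
  rw [Finset.card_image_of_injective _ (fun i j hij => by simpa using hij), Finset.card_univ,
    Fintype.card_fin] at h3
  omega

/-- the column DNF of an OR of decision trees -/
noncomputable def dnfC {n : ℕ} (t : Fin n → DT (Fin k × G)) : List (TermA G (Fin k → Bool)) := by
  classical
  exact ((univ : Finset (Fin n × (Fin k × G → Bool))).filter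
    (fun p => (t p.1).eval p.2 = true)).toList.map fun p => colTerm ((t p.1).path p.2) p.2

theorem dnfC_eval {n : ℕ} (t : Fin n → DT (Fin k × G)) (X : G → Fin k → Bool) :
    evalF (dnfC t) X = true ↔ ∃ i, (t i).eval (bitsOf X) = true := by
  classical
  rw [evalF_iff]
  constructor
  · rintro ⟨C, hC, hx⟩
    rw [dnfC] at hC
    obtain ⟨p, hp, rfl⟩ := List.mem_map.1 hC
    rw [Finset.mem_toList, Finset.mem_filter] at hp
    refine ⟨p.1, ?_⟩
    rw [DT.eval_of_path p.2 (bitsOf X) (t p.1)]
    · exact hp.2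
    · intro v hv
      have h1 := hx v.2 (List.mem_map.2 ⟨v, hv, rfl⟩)
      simp only [colTerm, decide_eq_true_eq] at h1
      exact h1 v hv rfl
  · rintro ⟨i, hi⟩
    refine ⟨colTerm ((t i).path (bitsOf X)) (bitsOf X), ?_, ?_⟩
    · rw [dnfC]
      refine List.mem_map.2 ⟨(i, bitsOf X), ?_, rfl⟩
      rw [Finset.mem_toList, Finset.mem_filter]
      exact ⟨Finset.mem_univ _, hi⟩
    · intro g _
      simp only [colTerm, decide_eq_true_eq]
      rintro v _ rfl
      rfl

/-- weights of the dead columns -/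
noncomputable def wC (k : ℕ) : (Fin k → Bool) → ℝ := fun a =>
  if a = (fun _ => true) then 0 else 1 / ((2 : ℝ) ^ k - 1)

theorem wC_nonneg (a : Fin k → Bool) : 0 ≤ wC k a := by
  unfold wC
  split
  · exact le_refl _
  · have : (1 : ℝ) ≤ 2 ^ k := one_le_pow₀ (by norm_num)
    apply div_nonneg (by norm_num)
    linarith

theorem wC_sum (hk : 1 ≤ k) : ∑ a : Fin k → Bool, wC k a = 1 := by
  classical
  unfold wC
  rw [← Finset.sum_filter_add_sum_filter_not univ (fun a : Fin k → Bool => a = fun _ => true)]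
  rw [Finset.sum_congr rfl (fun a ha => if_pos (Finset.mem_filter.1 ha).2),
    Finset.sum_congr rfl (fun a ha => if_neg (Finset.mem_filter.1 ha).2)]
  rw [Finset.sum_const_zero, zero_add, Finset.sum_const, nsmul_eq_mul]
  have h1 : (univ.filter fun a : Fin k → Bool => ¬ a = fun _ => true) =
      univ.erase (fun _ => true) := by
    ext a
    simp
  rw [h1, Finset.card_erase_of_mem (Finset.mem_univ _), Finset.card_univ, Fintype.card_fun,
    Fintype.card_bool, Fintype.card_fin]
  have h2 : (2 : ℝ) ≤ 2 ^ k := by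
    calc (2 : ℝ) = 2 ^ 1 := by norm_num
      _ ≤ 2 ^ k := pow_le_pow_right₀ (by norm_num) hk
  rw [Nat.cast_sub Nat.one_le_two_pow]
  push_cast
  rw [mul_one_div, div_self]
  linarith

variable {l : ℝ}

theorem wC_ineq (hk : 1 ≤ k) (h0 : 0 ≤ l) (h1 : l ≤ 1 / 2) (a : Fin k → Bool)
    (ha : a ≠ fun _ => true) : l ≤ 2 ^ (k + 1) * l * ((1 - l) * wC k a) := by
  have h2 : (2 : ℝ) ≤ 2 ^ k := by
    calc (2 : ℝ) = 2 ^ 1 := by norm_num
      _ ≤ 2 ^ k := pow_le_pow_right₀ (by norm_num) hk
  unfold wC
  rw [if_neg ha]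
  have h3 : 0 < (2 : ℝ) ^ k - 1 := by linarith
  have h4 : (1 : ℝ) / 2 ^ k ≤ 1 / (2 ^ k - 1) := one_div_le_one_div_of_le h3 (by linarith)
  have h5 : (2 : ℝ) ^ (k + 1) * l * ((1 / 2) * (1 / 2 ^ k)) = l := by
    rw [pow_succ]
    field_simp
  calc l = 2 ^ (k + 1) * l * ((1 / 2) * (1 / 2 ^ k)) := h5.symm
    _ ≤ _ := by
      apply mul_le_mul_of_nonneg_left _ (by positivity)
      apply mul_le_mul (by linarith) h4 (by positivity) (by linarith)

/-- switching for a gate over decision trees that read fewer than `k` bits -/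
theorem col_gate (hk : 1 ≤ k) (h0 : 0 ≤ l) (h1 : l ≤ 1 / 2) {S q s : ℕ} (hq : q < k) (hs : 1 ≤ s)
    (β : Bool) (f : (Fin k × G → Bool) → Bool) (hf : InG (Sm q) S 1 β f) :
    PP (wo (wC k) l) (fun ρ : G → Option (Fin k → Bool) =>
      ¬ SmC (s - 1) (fun X => f (bitsOf (ov ρ X)))) ≤
      (2 * q * 2 ^ k * (2 ^ (k + 1) * l)) ^ s := by
  classical
  obtain ⟨u, hu, hf⟩ := hf
  choose t ht1 ht2 using hu
  have hl1 : l ≤ 1 := by linarith
  have hwo := fun a => wo_nonneg (wC_nonneg (k := k)) h0 hl1 a
  let t' : Fin S → DT (Fin k × G) := fun i => if β then (t i).neg else t i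
  have ht' : ∀ i, (t' i).depth ≤ q := by
    intro i
    simp only [t']
    split
    · rw [DT.depth_neg]
      exact ht1 i
    · exact ht1 i
  have hwidth : ∀ C ∈ dnfC t', C.vars.length ≤ q := by
    intro C hC
    rw [dnfC] at hC
    obtain ⟨p, hp, rfl⟩ := List.mem_map.1 hC
    show (((t' p.1).path p.2).map Prod.snd).length ≤ q
    rw [List.length_map]
    exact (DT.path_length _ _).trans (ht' p.1)
  have hgood : ∀ C ∈ dnfC t', ∀ g, C.sat g ≠ fun _ => true := by
    intro C hC g
    rw [dnfC] at hC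
    obtain ⟨p, hp, rfl⟩ := List.mem_map.1 hC
    exact colTerm_good (lt_of_le_of_lt ((DT.path_length _ _).trans (ht' p.1)) hq) _ _
  have hsw := switchW (V := G) (A := Fin k → Bool) wC_nonneg (wC_sum hk) h0 hl1
    (good := fun a => a ≠ fun _ => true) (κ := 2 ^ (k + 1) * l) (by positivity)
    (fun a ha => wC_ineq hk h0 h1 a ha) (dnfC t') hwidth hgood hs
  have hcard : (2 * (q : ℝ) * (Fintype.card (Fin k → Bool) : ℝ) * (2 ^ (k + 1) * l)) ^ s =
      (2 * q * 2 ^ k * (2 ^ (k + 1) * l)) ^ s := by
    rw [Fintype.card_fun, Fintype.card_bool, Fintype.card_fin]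
    push_cast
    rfl
  rw [← hcard]
  refine le_trans (PP_mono hwo ?_) hsw
  intro ρ hρ hsm
  apply hρ
  have h2 := smC_of_small hsm
  cases β
  · convert h2 using 1
    funext X
    rw [Bool.eq_iff_iff, dnfC_eval, hf, gt_false]
    simp only [t', Bool.false_eq_true, if_false, ht2]
  · apply smC_of_neg
    convert h2 using 1
    funext X
    rw [Bool.eq_iff_iff, dnfC_eval, hf, Bool.not_eq_true', Bool.eq_false_iff, ne_eq, gt_true]
    push Not
    simp only [t', if_true, DT.eval_neg, ht2]
    constructor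
    · rintro ⟨i, hi⟩
      exact ⟨i, by simpa using hi⟩
    · rintro ⟨i, hi⟩
      exact ⟨i, by simpa using hi⟩

end columns

/-- **peeling one level** by a restriction of whole columns that leaves one free column in every
block and never makes a dead column entirely bad -/
theorem stage_two {k : ℕ} {Blk : Type} [Fintype Blk] [DecidableEq Blk] {A1 S q s r : ℕ}
    {β : Bool} (f : (Fin k × (Blk × Fin A1) → Bool) → Bool) (hf : InAlt S q (r + 1) β f)
    (hq : q < k) (hs : 1 ≤ s) {l : ℝ} (h0 : 0 ≤ l) (h1 : l ≤ 1 / 2)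
    (hnum : (S : ℝ) ^ r * (2 * q * 2 ^ k * (2 ^ (k + 1) * l)) ^ s +
      Fintype.card Blk * (1 - l) ^ A1 < 1) :
    ∃ (w : Blk → Fin A1) (o : Blk × Fin A1 → Fin k → Bool), (∀ g, o g ≠ fun _ => true) ∧
      ∀ (Z : Type) (vv : Blk → Z) (sym : Blk → Bool → Fin k → Bool), Nonempty Z →
        InAlt S (s - 1) r β (fun z : Z → Bool => f (fun v =>
          if v.2.2 = w v.2.1 then sym v.2.1 (z (vv v.2.1)) v.1 else o v.2 v.1)) := by
  classical
  have hk : 1 ≤ k := by omega
  have hl1 : l ≤ 1 := by linarith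
  have hwo := fun a => wo_nonneg (wC_nonneg (k := k)) h0 hl1 a
  have hws := wo_sum (wC_sum hk) l
  -- the bad events
  let B1 : ((Blk × Fin A1) → Option (Fin k → Bool)) → Prop := fun ρ =>
    ¬ InG (SmC (s - 1)) S r β (fun X => f (bitsOf (ov ρ X)))
  let B2 : ((Blk × Fin A1) → Option (Fin k → Bool)) → Prop := fun ρ =>
    ∃ P ∈ (univ : Finset Blk), ∀ g ∈ (univ : Finset (Fin A1)).image (fun u => (P, u)), ρ g ≠ none
  let B3 : ((Blk × Fin A1) → Option (Fin k → Bool)) → Prop := fun ρ =>
    ∃ g ∈ (univ : Finset (Blk × Fin A1)), ∀ g' ∈ ({g} : Finset (Blk × Fin A1)),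
      ρ g' = some fun _ => true
  have p1 : PP (wo (wC k) l) B1 ≤ (S : ℝ) ^ r * (2 * q * 2 ^ k * (2 ^ (k + 1) * l)) ^ s :=
    peel_prob hwo (fun ρ X => bitsOf (ov ρ X))
      (fun β' f' hf' => col_gate hk h0 h1 hq hs β' f' hf') r β f (inG_of_inAlt hf)
  have p2 : PP (wo (wC k) l) B2 ≤ Fintype.card Blk * (1 - l) ^ A1 := by
    refine (PP_exists hwo _ _).trans ?_
    have h2 : ∀ P : Blk, PP (wo (wC k) l) (fun ρ : (Blk × Fin A1) → Option (Fin k → Bool) =>
        ∀ g ∈ (univ : Finset (Fin A1)).image (fun u => (P, u)), ρ g ≠ none) = (1 - l) ^ A1 := by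
      intro P
      rw [PP_forall hws _ (fun _ o => o ≠ none)]
      have h3 : ∑ o : Option (Fin k → Bool), wo (wC k) l o * (if o ≠ none then 1 else 0) =
          1 - l := by
        rw [Fintype.sum_option]
        simp only [wo, ne_eq, not_true_eq_false, if_false, mul_zero, reduceCtorEq,
          not_false_eq_true, if_true, mul_one, zero_add, ← Finset.mul_sum, wC_sum hk]
      rw [Finset.prod_congr rfl fun g _ => h3, Finset.prod_const,
        Finset.card_image_of_injective _ (fun u v huv => by simpa using huv), Finset.card_univ,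
        Fintype.card_fin]
    rw [Finset.sum_congr rfl fun P _ => h2 P, Finset.sum_const, Finset.card_univ, nsmul_eq_mul]
  have p3 : PP (wo (wC k) l) B3 ≤ 0 := by
    refine (PP_exists hwo _ _).trans ?_
    apply Finset.sum_nonpos
    intro g _
    rw [PP_forall hws _ (fun _ o => o = some fun _ => true), Finset.prod_singleton,
      Fintype.sum_option]
    simp only [reduceCtorEq, if_false, mul_zero, Option.some.injEq, zero_add]
    apply Finset.sum_nonpos
    intro a _
    by_cases ha : a = fun _ => true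
    · simp [ha, wo, wC]
    · simp [ha]
  have hlt : PP (wo (wC k) l) (fun ρ => (B1 ρ ∨ B2 ρ) ∨ B3 ρ) < 1 := by
    have a1 := PP_or hwo (fun ρ => B1 ρ ∨ B2 ρ) B3
    have a2 := PP_or hwo B1 B2
    linarith
  obtain ⟨ρ, hρ⟩ := PP_lt_one hws hlt
  push Not at hρ
  obtain ⟨⟨g1, g2⟩, g3⟩ := hρ
  have g1' : InG (SmC (s - 1)) S r β (fun X => f (bitsOf (ov ρ X))) := not_not.1 g1
  have hstar : ∀ P : Blk, ∃ u, ρ (P, u) = none := by
    intro P
    by_contra hcon
    push Not at hcon
    apply g2
    refine ⟨P, Finset.mem_univ _, ?_⟩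
    intro g hg
    obtain ⟨u, _, rfl⟩ := Finset.mem_image.1 hg
    exact hcon u
  choose w hw using hstar
  refine ⟨w, fun g => (ρ g).getD fun _ => false, ?_, ?_⟩
  · intro g hg
    change (ρ g).getD (fun _ => false) = _ at hg
    cases hρg : ρ g with
    | none =>
      rw [hρg, Option.getD_none] at hg
      have := congrFun hg ⟨0, hk⟩
      simp at this
    | some a =>
      rw [hρg, Option.getD_some] at hg
      apply g3
      refine ⟨g, Finset.mem_univ _, ?_⟩
      intro g' hg'
      rw [Finset.mem_singleton] at hg'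
      rw [hg', hρg, hg]
  · intro Z vv sym hZ
    apply inAlt_of_inG
    have h2 := InG.mapX (P := SmC (s - 1)) (Q := Sm (s - 1)) (S := S)
      (fun (z : Z → Bool) (g : Blk × Fin A1) =>
        if z (vv g.1) then (if g.2 = w g.1 then sym g.1 true else (ρ g).getD fun _ => false)
        else (if g.2 = w g.1 then sym g.1 false else (ρ g).getD fun _ => false))
      (fun F hF => smC_subst (fun g : Blk × Fin A1 => vv g.1)
        (fun g => if g.2 = w g.1 then sym g.1 false else (ρ g).getD fun _ => false)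
        (fun g => if g.2 = w g.1 then sym g.1 true else (ρ g).getD fun _ => false) hF) g1'
    convert h2 using 1
    funext z
    congr 1
    funext v
    obtain ⟨i, P, u⟩ := v
    simp only [bitsOf, ov]
    by_cases hu : u = w P
    · subst hu
      rw [hw P]
      simp only [if_true, Option.getD_none]
      cases z (vv P) <;> simp
    · simp only [hu, if_false]
      cases hρ' : ρ (P, u) with
      | none => simp
      | some a => simp

end Pool.Agent.WSatAC0
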