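import Pool.Agent.WSatAC0.Comp
import Pool.Agent.WSatAC0.Peel
import Pool.Agent.WSatCount.Top

/-! The contradiction for suitable numbers. -/

namespace Pool.Agent.WSatAC0

open Finset Pool.Agent.ParityAC Pool.Agent.WSatChain Pool.Agent.WSatCount

section core

variable {k N A1 : ℕ} {B : Type} [Fintype B] [DecidableEq B] {s d : ℕ}

omit [Fintype B] [DecidableEq B] in
theorem bz_some (z : VV B s → Bool) {P : List B} (h : P.length = s + 1) :
    bz z P = if z ⟨P, h⟩ then 1 else 0 := by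
  simp only [bz, dif_pos h]

omit [Fintype B] in
/-- the hidden bits of the planted instance -/
theorem hid_of {ω : Os k (Gc B s A1) → Fin N} {x : VB (Es k (Gc B s A1)) N → Bool}
    (hC : ¬ BadC ω x) (hk : 1 ≤ k) (w : VV B s × ZMod 2 → Fin A1)
    (o : (VV B s × ZMod 2) × Fin A1 → Fin k → Bool) (ho : ∀ g, o g ≠ fun _ => true)
    (z : VV B s → Bool) (v : Fin k × Gc B s A1 → Bool)
    (hv : v = fun v => if v.2.2 = w v.2.1 then
      decide ((if z v.2.1.1 then (1 : ZMod 2) else 0) ≠ v.2.1.2) else o v.2 v.1) :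
    Hid (dat (inst endsK x ω (yv v))) s (fun i => ω (Sum.inl i)) (bz z) := by
  intro P hP β
  rw [bz_some z hP]
  have h1 : ∀ w', (∀ u, ∃ i, (dat (inst endsK x ω (yv v))).cb i P β w' (ω (Sum.inl i)) u = false) ↔
      ∃ i, v (i, ((⟨P, hP⟩, β), w')) = false := by
    intro w'
    rw [← col_good hC v]
    simp only [dat, dif_pos hP]
  rw [forall_congr' h1]
  constructor
  · intro h2
    obtain ⟨i, hi⟩ := h2 (w (⟨P, hP⟩, β))
    rw [hv] at hi
    simp only [if_true, decide_eq_false_iff_not, not_not] at hi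
    exact hi
  · intro h2 w'
    rw [hv]
    by_cases hw : w' = w (⟨P, hP⟩, β)
    · refine ⟨⟨0, hk⟩, ?_⟩
      simp only [hw, if_true, decide_eq_false_iff_not, not_not]
      exact h2
    · by_contra hcon
      push Not at hcon
      apply ho ((⟨P, hP⟩, β), w')
      funext i
      have h3 := hcon i
      simp only [hw, if_false] at h3
      simpa using h3

/-- **the contradiction** -/
theorem core {n : ℕ} (e : UN k N A1 B s ≃ Fin n) (F : Red (Bit n)) {S D r : ℕ}
    (hF : F.All (ACFun S D))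
    (hG : ∀ X : Dat k N A1 B, GAMMA (s + 1) d _ (F.apply (bits (srcF e X))))
    (hred : ∀ X : Dat k N A1 B, (srcF e X).WSat (k + 1) ↔
      (F.apply (bits (srcF e X))).WSat (F.param (bits (srcF e X))))
    (hN : 1 ≤ N) {p l κ : ℝ} (hp0 : 0 ≤ p) (hp1 : p ≤ 1) (H : RW (lw p) l κ) (hl : 0 < l)
    (hr : 2 ≤ r) (hS : 1 ≤ S) {s1 : ℕ} (hs1 : 2 ≤ s1)
    (hnum1 : (((1 + N * p ^ k) ^ k - 1) + Fintype.card (Gc B s A1) * N * p ^ k) +
      Fintype.card (Ix F) * (cst S D * mu (Es k (Gc B s A1)) N r (s1 - 1) (l ^ D)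
        (D * S ^ D * (4 * s1 * κ) ^ s1)) < 1)
    {S' : ℕ} (hM : F.M ≤ S) (hS' : S + F.K ≤ S') (hS'' : (F.M + 1) ^ (F.K + 1) ≤ S')
    {q : ℕ} (hq : cL d (r ^ 2) + (s + 1) * (6 * r ^ 2) + 3 * r ^ 2 + 2 * r ^ 2 = q) (hqk : q < k)
    {s2 : ℕ} (hs2 : 1 ≤ s2) {l2 : ℝ} (hl20 : 0 ≤ l2) (hl21 : l2 ≤ 1 / 2)
    (hnum2 : (S' : ℝ) ^ (s + 1) * (2 * q * 2 ^ k * (2 ^ (k + 1) * l2)) ^ s2 +
      Fintype.card (VV B s × ZMod 2) * (1 - l2) ^ A1 < 1)
    {σ : ℕ} (hσ : 1 ≤ σ) (hSσ : S' ^ s < 2 ^ σ)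
    (hbnd : bnd σ (s + 1) (s2 - 1) ≤ Fintype.card B ^ (s + 1)) : False := by
  classical
  let FX : Red (VB (Es k (Gc B s A1)) N) := F.comp (srcB e)
  have hFX : FX.All (ACG (Sm 1) S D) := Red.comp_all (fun f hf => acfun_comp (srcB_sm e) hf) hF
  obtain ⟨ω, x, hbad, hgd⟩ := stage_one (ends := endsK) endsK_inj hN H hl hr hS hs1
    (I := Ix FX) (outF FX) (outF_of hFX) (fun ω x => BadE ω x ∨ BadC ω x)
    (plant_bad hN hp0 hp1) hnum1
  push Not at hbad
  obtain ⟨hbE, hbC⟩ := hbad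
  let τ : (Fin k × Gc B s A1 → Bool) → (VB (Es k (Gc B s A1)) N → Bool) :=
    fun v => inst endsK x ω (yv v)
  let FV : Red (Fin k × Gc B s A1) := FX.comp τ
  have hFV : FV.All (J (r ^ 2)) := by
    have h1 : FX.All (fun f => J (r ^ 2) (fun v => f (τ v))) :=
      of_outF fun i => junta_of_good (hgd i)
    exact Red.comp_all (fun f hf => hf) h1
  have hGV : ∀ v, GAMMA (s + 1) d _ (FV.apply v) := fun v => hG (dat (τ v))
  have h1 := jtop hFV hGV hS hM hS' hS''
  rw [hq] at h1
  obtain ⟨w, o, ho, h2⟩ := stage_two _ h1 hqk hs2 hl20 hl21 hnum2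
  have h3 := h2 (VV B s) Prod.fst (fun b c _ => decide ((if c then (1 : ZMod 2) else 0) ≠ b.2)) ?_
  · have h4 : (fun z : VV B s → Bool => (fun v => decide ((FV.apply v).WSat (FV.param v)))
        (fun v => if v.2.2 = w v.2.1 then
          (fun (b : VV B s × ZMod 2) (c : Bool) (_ : Fin k) =>
            decide ((if c then (1 : ZMod 2) else 0) ≠ b.2)) v.2.1 (z (Prod.fst v.2.1)) v.1
          else o v.2 v.1)) = fun z => decide (bp (bz z) (s + 1) [] = 0) := by
      funext z
      simp only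
      rw [decide_eq_decide]
      generalize hv : (fun v : Fin k × Gc B s A1 => if v.2.2 = w v.2.1 then
          decide ((if z v.2.1.1 then (1 : ZMod 2) else 0) ≠ v.2.1.2) else o v.2 v.1) = v
      have h5 := hred (dat (τ v))
      have h6 : (srcF e (dat (τ v))).WSat (k + 1) ↔ (srcN s (dat (τ v))).WSat (k + 1) :=
        ⟨iso_wsat (srcF_iso e _).symm, iso_wsat (srcF_iso e _)⟩
      have h7 : (srcN s (dat (τ v))).WSat (k + 1) ↔ bp (bz z) (s + 1) [] = 0 :=
        src_wsatN (fun α => uniq_tuple hbE v α)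
          (hid_of hbC (by omega) w o ho z v hv.symm)
      exact h5.symm.trans (h6.trans h7)
    rw [h4] at h3
    refine no_flip S' σ hσ (s + 1) (VV B s) inferInstance _ (s2 - 1) false _
      (by omega) h3 flip_parity hSσ ?_
    rw [card_vector]
    exact hbnd
  · by_contra hne
    rw [not_nonempty_iff] at hne
    have : Fintype.card B = 0 := by
      by_contra hB
      have : Nonempty B := Fintype.card_pos_iff.1 (Nat.pos_of_ne_zero hB)
      obtain ⟨b⟩ := this
      exact hne.false ⟨List.replicate (s + 1) b, by simp⟩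
    rw [this] at hbnd
    simp only [ne_eq, Nat.add_eq_zero_iff, one_ne_zero, and_false, not_false_eq_true, zero_pow,
      nonpos_iff_eq_zero] at hbnd
    have h5 : ∀ r q, bnd σ r q ≠ 0 := by
      intro r
      induction r using Nat.strong_induction_on with
      | _ r ih =>
        intro q
        match r with
        | 0 => simp [bnd]
        | 1 => simp [bnd]
        | r + 2 =>
          simp only [bnd]
          exact Nat.mul_ne_zero (by omega) (ih (r + 1) (by omega) _)
    exact h5 _ _ hbnd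

end core

end Pool.Agent.WSatAC0
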