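import Pool.Agent.WSatChain.Defs

/-! Reductions computed by constant-depth circuits. -/

namespace Pool.Agent.WSatAC0

open Pool.Agent.WSatChain

/-- The input bits that describe a labelled graph on the nodes `0, …, n - 1`. -/
inductive Bit (n : ℕ) : Type
  | isVar (g : Fin n)
  | isAnd (g : Fin n)
  | isOr (g : Fin n)
  | isNot (g : Fin n)
  | isOut (g : Fin n)
  | wire (g h : Fin n)

open Classical in
/-- The description of a labelled graph by its bits. -/
noncomputable def bits {n : ℕ} (C : Circ (Fin n)) : Bit n → Bool
  | .isVar g => decide (C.isVar g)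
  | .isAnd g => decide (C.isAnd g)
  | .isOr g => decide (C.isOr g)
  | .isNot g => decide (C.isNot g)
  | .isOut g => decide (C.isOut g)
  | .wire g h => decide (C.wire g h)

/-- Boolean functions of the bits `V` that are computed in depth `D` with gates of fan-in at most
`S`: constants and literals in depth `0`, AND gates and OR gates of at most `S` such functions in
depth `D + 1`. -/
def ACFun {V : Type} (S : ℕ) : ℕ → ((V → Bool) → Bool) → Prop
  | 0, f => (∃ c, ∀ x, f x = c) ∨ (∃ v, ∀ x, f x = x v) ∨ (∃ v, ∀ x, f x = !(x v))
  | D + 1, f => ∃ n ≤ S, ∃ g : Fin n → ((V → Bool) → Bool), (∀ i, ACFun S D (g i)) ∧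
      ((∀ x, f x = true ↔ ∀ i, g i x = true) ∨ (∀ x, f x = true ↔ ∃ i, g i x = true))

/-- A map from bit strings to labelled graphs with at most `M` nodes, together with a new
parameter. For an input `x` the nodes of the image are those `p < M` with `dom p x = true`, and the
other functions are the bits that describe the image; the new parameter is the number of those
`j < K` with `par j x = true`. -/
structure Red (V : Type) where
  M : ℕ
  dom : Fin M → (V → Bool) → Bool
  isVar : Fin M → (V → Bool) → Bool
  isAnd : Fin M → (V → Bool) → Bool
  isOr : Fin M → (V → Bool) → Bool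
  isNot : Fin M → (V → Bool) → Bool
  isOut : Fin M → (V → Bool) → Bool
  wire : Fin M → Fin M → (V → Bool) → Bool
  K : ℕ
  par : Fin K → (V → Bool) → Bool

variable {V : Type}

/-- The nodes of the image of `x`. -/
def Red.Univ (F : Red V) (x : V → Bool) : Type := {p : Fin F.M // F.dom p x = true}

/-- The image of `x`. -/
def Red.apply (F : Red V) (x : V → Bool) : Circ (F.Univ x) where
  isVar p := F.isVar p.1 x = true
  isAnd p := F.isAnd p.1 x = true
  isOr p := F.isOr p.1 x = true
  isNot p := F.isNot p.1 x = true
  isOut p := F.isOut p.1 x = true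
  wire p q := F.wire p.1 q.1 x = true

/-- The new parameter. -/
noncomputable def Red.param (F : Red V) (x : V → Bool) : ℕ :=
  Nat.card {j : Fin F.K // F.par j x = true}

/-- All output bits have the property `P`. -/
structure Red.All (F : Red V) (P : ((V → Bool) → Bool) → Prop) : Prop where
  dom : ∀ p, P (F.dom p)
  isVar : ∀ p, P (F.isVar p)
  isAnd : ∀ p, P (F.isAnd p)
  isOr : ∀ p, P (F.isOr p)
  isNot : ∀ p, P (F.isNot p)
  isOut : ∀ p, P (F.isOut p)
  wire : ∀ p q, P (F.wire p q)
  par : ∀ j, P (F.par j)

/-- The slice `k` of `p-WSAT(A)` reduces to `p-WSAT(B)` by nonuniform AC⁰ reductions of depth `D`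
and size exponent `c`: for some `e` and every size `n` there is a map `F n` from descriptions of
labelled graphs on `n` nodes to labelled graphs with at most `e * (n + 1) ^ c` nodes and a new
parameter at most `e`, all output bits of which are computed in depth `D` with gates of fan-in at
most `e * (n + 1) ^ c`, such that for every circuit `C ∈ A` on the nodes `0, …, n - 1` the image is
in `B`, and `C` is `k`-satisfiable exactly if the image is satisfiable by an assignment whose
weight is the new parameter. Nothing is required about how `F n` depends on `n`. -/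
def SliceAC0 (D c k : ℕ) (A B : CClass) : Prop :=
  ∃ (e : ℕ) (F : ∀ n : ℕ, Red (Bit n)),
    (∀ n, (F n).All (ACFun (e * (n + 1) ^ c) D) ∧ (F n).M ≤ e * (n + 1) ^ c ∧ (F n).K ≤ e) ∧
    ∀ (n : ℕ) (C : Circ (Fin n)), A _ C →
      B _ ((F n).apply (bits C)) ∧
      (C.WSat k ↔ ((F n).apply (bits C)).WSat ((F n).param (bits C)))

/-- `p-WSAT(A)` reduces to `p-WSAT(B)` by nonuniform parameterized AC⁰ reductions: the depth `D`
and the exponent `c` do not depend on the parameter, while the constant `e` and the maps may depend
on it in any way. -/
def ReducesAC0 (A B : CClass) : Prop := ∃ D c : ℕ, ∀ k, SliceAC0 D c k A B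

end Pool.Agent.WSatAC0
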