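import Pool.Agent.WSatAC0.Thr

/-! Weighted satisfiability of conjunctions of literals in constant depth. -/

namespace Pool.Agent.WSatAC0

open Finset Pool.Agent.ParityAC Pool.Agent.WSatChain Pool.Agent.WSatCount

section circ

variable {U : Type} {C : Circ U}

/-- the possible nodes of a conjunction of literals -/
def GoodN (C : Circ U) (g : U) : Prop :=
  (C.isAnd g ∧ ∀ h, C.wire g h → C.InLevel 1 false 0 h) ∨ C.InLevel 1 false 0 g

theorem good_step (hC : C.IsCircuit) {g h : U} (hg : GoodN C g) (hw : C.wire g h) : GoodN C h := by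
  rcases hg with ⟨_, hg⟩ | hg
  · exact Or.inr (hg h hw)
  · exact Or.inr (Or.inl ⟨le_refl _, lev0_child_lit hC hg hw⟩)

theorem wf_up [Finite U] (hC : C.IsCircuit) : WellFounded C.wire := by
  have h1 : IsTrans U (Relation.TransGen C.wire) :=
    ⟨fun a b c hab hbc => Relation.TransGen.trans hab hbc⟩
  have h2 : Std.Irrefl (Relation.TransGen C.wire) := ⟨fun a => hC.acyclic a⟩
  have h3 : WellFounded (Relation.TransGen C.wire) := Finite.wellFounded_of_trans_of_irrefl _
  exact Subrelation.wf (fun h => Relation.TransGen.single h) h3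

theorem all_good [Finite U] (hG : GAMMA 1 1 U C) (g : U) : GoodN C g := by
  have hC := hG.1.toIsCircuit
  induction g using (wf_up hC).induction with
  | _ g ih =>
    rcases hG.1.used g with hg | ⟨p, hp⟩
    · rcases hG.2 g hg with h | h
      · exact Or.inr h
      · exact Or.inl h
    · exact good_step hC (ih p hp) hp

/-- positive occurrence -/
def PosN (C : Circ U) (v : U) : Prop := C.isOut v ∨ ∃ p, ¬ C.isNot p ∧ C.wire p v

/-- negative occurrence -/
def NegN (C : Circ U) (v : U) : Prop := ∃ p, C.isNot p ∧ C.wire p v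

theorem not_child_var [Finite U] (hG : GAMMA 1 1 U C) {p g : U} (hp : C.isNot p)
    (hw : C.wire p g) : C.isVar g := by
  have hC := hG.1.toIsCircuit
  have hk := hC.kind p
  rcases all_good hG p with ⟨h, _⟩ | h
  · tauto
  · rcases h with ⟨_, h⟩ | ⟨h, _, _⟩
    · exact lit_child_var hC h hw
    · simp only [Circ.gate] at h
      tauto

theorem or_child_unique [Finite U] (hG : GAMMA 1 1 U C) {p g h : U} (hp : C.isOr p)
    (hw : C.wire p g) (hw' : C.wire p h) : g = h := by
  have hC := hG.1.toIsCircuit
  have hk := hC.kind p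
  rcases all_good hG p with ⟨h, _⟩ | hl
  · tauto
  · rcases hl with ⟨_, hl⟩ | ⟨_, _, hl⟩
    · rcases hl with hl | ⟨hl, _⟩ <;> tauto
    · have h1 := Finite.card_le_one_iff_subsingleton.1 hl
      have h2 : (⟨g, hw⟩ : {h // C.wire p h}) = ⟨h, hw'⟩ := Subsingleton.elim _ _
      exact congrArg Subtype.val h2

/-- in a satisfying evaluation all gates are true -/
theorem gates_true [Finite U] (hG : GAMMA 1 1 U C) {val : U → Prop} (hv : C.IsEval val)
    (hout : ∀ g, C.isOut g → val g) (g : U) : ((¬ C.isVar g) → val g) ∧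
      (C.isVar g → PosN C g → val g) := by
  have hC := hG.1.toIsCircuit
  -- the step
  have step : ∀ p g, C.wire p g → val p → ¬ C.isNot p → val g := by
    intro p g hw hp hn
    have hnv : ¬ C.isVar p := fun h => hC.var_in _ _ h hw
    rcases hC.kind p with h | h | h | h
    · exact absurd h.1 hnv
    · exact (hv.and p h.2.1).1 hp g hw
    · obtain ⟨y, hy, hvy⟩ := (hv.or p h.2.2.1).1 hp
      rwa [or_child_unique hG h.2.2.1 hw hy]
    · exact absurd h.2.2.2 hn
  have main : ∀ g, ¬ C.isVar g → val g := by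
    intro g
    induction g using (wf_up hC).induction with
    | _ g ih =>
      intro hg
      rcases hG.1.used g with ho | ⟨p, hp⟩
      · exact hout g ho
      · have hnv : ¬ C.isVar p := fun h => hC.var_in _ _ h hp
        exact step p g hp (ih p hp hnv) fun hn => hg (not_child_var hG hn hp)
  refine ⟨main g, ?_⟩
  rintro _ (ho | ⟨p, hn, hp⟩)
  · exact hout g ho
  · exact step p g hp (main p fun h => hC.var_in _ _ h hp) hn

/-- weighted satisfiability of a conjunction of literals -/
theorem wsat11 [Finite U] (hG : GAMMA 1 1 U C) {κ : ℕ} : C.WSat κ ↔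
    (∀ g, C.isOr g → ∃ h, C.wire g h) ∧ (∀ v, C.isVar v → ¬ (PosN C v ∧ NegN C v)) ∧
      Nat.card {v // C.isVar v ∧ PosN C v} = κ := by
  have hC := hG.1.toIsCircuit
  have hPN : ∀ v, C.isVar v → ¬ PosN C v → NegN C v := by
    intro v _ hnp
    rcases hG.1.used v with ho | ⟨p, hp⟩
    · exact absurd (Or.inl ho) hnp
    · by_cases hn : C.isNot p
      · exact ⟨p, hn, hp⟩
      · exact absurd (Or.inr ⟨p, hn, hp⟩) hnp
  constructor
  · rintro ⟨val, hv, hout, hcard⟩
    have hgt := gates_true hG hv hout
    have hneg : ∀ v, NegN C v → ¬ val v := by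
      rintro v ⟨p, hn, hw⟩
      have h1 : val p := (hgt p).1 fun h => hC.var_in _ _ h hw
      rw [hv.not p hn] at h1
      exact h1 v hw
    refine ⟨?_, ?_, ?_⟩
    · intro g hg
      have hnv : ¬ C.isVar g := by
        have := hC.kind g
        tauto
      have h1 := (hgt g).1 hnv
      rw [hv.or g hg] at h1
      obtain ⟨h, hw, _⟩ := h1
      exact ⟨h, hw⟩
    · rintro v hvar ⟨h1, h2⟩
      exact hneg v h2 ((hgt v).2 hvar h1)
    · rw [← hcard]
      apply Nat.card_congr
      apply Equiv.subtypeEquivRight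
      intro v
      constructor
      · rintro ⟨h1, h2⟩
        exact ⟨h1, (hgt v).2 h1 h2⟩
      · rintro ⟨h1, h2⟩
        refine ⟨h1, ?_⟩
        by_contra hcon
        exact hneg v (hPN v h1 hcon) h2
  · rintro ⟨h1, h2, h3⟩
    obtain ⟨val, hv, hvar⟩ := eval_exists hC (fun v => PosN C v)
    have main : ∀ g, ¬ C.isVar g → val g := by
      intro g
      induction g using hC.wf.induction with
      | _ g ih =>
        intro hg
        have hch : ∀ h, C.wire g h → ¬ C.isNot g → val h := by
          intro h hw hn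
          by_cases hvh : C.isVar h
          · rw [hvar h hvh]
            exact Or.inr ⟨g, hn, hw⟩
          · exact ih h hw hvh
        rcases hC.kind g with hk | hk | hk | hk
        · exact absurd hk.1 hg
        · rw [hv.and g hk.2.1]
          intro h hw
          exact hch h hw hk.2.2.2
        · rw [hv.or g hk.2.2.1]
          obtain ⟨h, hw⟩ := h1 g hk.2.2.1
          exact ⟨h, hw, hch h hw hk.2.2.2⟩
        · rw [hv.not g hk.2.2.2]
          intro h hw hval
          have hvh := not_child_var hG hk.2.2.2 hw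
          rw [hvar h hvh] at hval
          exact h2 h hvh ⟨hval, g, hk.2.2.2, hw⟩
    refine ⟨val, hv, ?_, ?_⟩
    · intro g hg
      by_cases hvg : C.isVar g
      · rw [hvar g hvg]
        exact Or.inl hg
      · exact main g hvg
    · rw [← h3]
      apply Nat.card_congr
      apply Equiv.subtypeEquivRight
      intro v
      constructor
      · rintro ⟨h4, h5⟩
        exact ⟨h4, (hvar v h4).1 h5⟩
      · rintro ⟨h4, h5⟩
        exact ⟨h4, (hvar v h4).2 h5⟩

end circ

section acg

variable {V : Type} {F : Red V} {S D : ℕ}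

/-- positive occurrence as a function -/
def fPos (F : Red V) (v : Fin F.M) (x : V → Bool) : Bool :=
  F.isOut v x || decide (∃ p, ((F.dom p x && !(F.isNot p x)) && F.wire p v x) = true)

/-- negative occurrence as a function -/
def fNeg (F : Red V) (v : Fin F.M) (x : V → Bool) : Bool :=
  decide (∃ p, ((F.dom p x && F.isNot p x) && F.wire p v x) = true)

/-- a variable with a positive occurrence -/
def fPV (F : Red V) (v : Fin F.M) (x : V → Bool) : Bool := (F.dom v x && F.isVar v x) && fPos F v x

theorem fPos_iff {v : Fin F.M} {x : V → Bool} (hv : F.dom v x = true) :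
    fPos F v x = true ↔ PosN (F.apply x) ⟨v, hv⟩ := by
  simp only [fPos, Bool.or_eq_true, decide_eq_true_eq, Bool.and_eq_true, Bool.not_eq_true']
  constructor
  · rintro (h | ⟨p, ⟨h1, h2⟩, h3⟩)
    · exact Or.inl h
    · refine Or.inr ⟨⟨p, h1⟩, ?_, h3⟩
      intro h4
      change F.isNot p x = true at h4
      rw [h2] at h4
      exact absurd h4 (by simp)
  · rintro (h | ⟨⟨p, h1⟩, h2, h3⟩)
    · exact Or.inl h
    · refine Or.inr ⟨p, ⟨h1, ?_⟩, h3⟩
      change ¬ F.isNot p x = true at h2
      simpa using h2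

theorem fNeg_iff {v : Fin F.M} {x : V → Bool} (hv : F.dom v x = true) :
    fNeg F v x = true ↔ NegN (F.apply x) ⟨v, hv⟩ := by
  simp only [fNeg, decide_eq_true_eq, Bool.and_eq_true]
  constructor
  · rintro ⟨p, ⟨h1, h2⟩, h3⟩
    exact ⟨⟨p, h1⟩, h2, h3⟩
  · rintro ⟨⟨p, h1⟩, h2, h3⟩
    exact ⟨p, ⟨h1, h2⟩, h3⟩

theorem sm_not {f : (V → Bool) → Bool} (h : Sm 1 f) : Sm 1 (fun x => !(f x)) := h.not

theorem fPos_acg (hF : F.All (ACG (Sm 1) S D)) (hS : 2 ≤ S) (hM : F.M ≤ S) (v : Fin F.M) :
    ACG (Sm 1) S (D + 4) (fPos F v) := by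
  have hS1 : 1 ≤ S := by omega
  refine ACG.or2 hS ((hF.isOut v).raise_le hS1 (by omega)) ?_
  refine ACG.ex (D := D + 2) (ι := Fin F.M) (by rw [Fintype.card_fin]; exact hM)
    (g := fun p x => (F.dom p x && !(F.isNot p x)) && F.wire p v x) ?_ ?_
  · intro p
    exact ACG.and2 hS (ACG.and2 hS (hF.dom p) ((hF.isNot p).neg fun _ => sm_not))
      ((hF.wire p v).raise hS1)
  · intro x
    simp only [decide_eq_true_eq]

theorem fNeg_acg (hF : F.All (ACG (Sm 1) S D)) (hS : 2 ≤ S) (hM : F.M ≤ S) (v : Fin F.M) :
    ACG (Sm 1) S (D + 3) (fNeg F v) := by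
  have hS1 : 1 ≤ S := by omega
  refine ACG.ex (D := D + 2) (ι := Fin F.M) (by rw [Fintype.card_fin]; exact hM)
    (g := fun p x => (F.dom p x && F.isNot p x) && F.wire p v x) ?_ ?_
  · intro p
    exact ACG.and2 hS (ACG.and2 hS (hF.dom p) (hF.isNot p)) ((hF.wire p v).raise hS1)
  · intro x
    simp only [fNeg, decide_eq_true_eq]

theorem fPV_acg (hF : F.All (ACG (Sm 1) S D)) (hS : 2 ≤ S) (hM : F.M ≤ S) (v : Fin F.M) :
    ACG (Sm 1) S (D + 5) (fPV F v) := by
  have hS1 : 1 ≤ S := by omega
  exact ACG.and2 hS ((ACG.and2 hS (hF.dom v) (hF.isVar v)).raise_le hS1 (by omega))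
    (fPos_acg hF hS hM v)

open Classical in
/-- **weighted satisfiability of conjunctions of literals is in constant depth** -/
theorem gam11_acg (hF : F.All (ACG (Sm 1) S D)) (hG : ∀ x, GAMMA 1 1 _ (F.apply x)) (hS : 2 ≤ S)
    (hM : F.M ≤ S) (hK : 2 ^ F.K ≤ S)
    (h1 : ∀ m ≤ F.K + 1, (m * F.M + 1) * (2 * m ^ 2 + 1) ^ m ≤ S) :
    ACG (Sm 1) S (D + 13) (fun x => decide ((F.apply x).WSat (F.param x))) := by
  have hS1 : 1 ≤ S := by omega
  let c1 : (V → Bool) → Bool := fun x => decide (∀ g, (!(F.dom g x && F.isOr g x) ||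
    decide (∃ h, (F.dom h x && F.wire g h x) = true)) = true)
  let c2 : (V → Bool) → Bool := fun x => decide (∀ v, (!(fPV F v x && fNeg F v x)) = true)
  let c3 : (V → Bool) → Bool := fun x => decide ((univ.filter fun v => fPV F v x = true).card =
    (univ.filter fun j => F.par j x = true).card)
  have a1 : ACG (Sm 1) S (D + 11) c1 := by
    refine ACG.raise_le hS1 (show D + 4 ≤ D + 11 by omega) ?_
    refine ACG.all (D := D + 3) (ι := Fin F.M) (by rw [Fintype.card_fin]; exact hM)
      (g := fun g x => (!(F.dom g x && F.isOr g x) ||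
        decide (∃ h, (F.dom h x && F.wire g h x) = true))) ?_ ?_
    · intro g
      refine ACG.or2 hS ?_ ?_
      · exact ((ACG.and2 hS (hF.dom g) (hF.isOr g)).neg fun _ => sm_not).raise_le hS1 (by omega)
      · refine ACG.ex (D := D + 1) (ι := Fin F.M) (by rw [Fintype.card_fin]; exact hM)
          (g := fun h x => (F.dom h x && F.wire g h x)) ?_ ?_
        · intro h
          exact ACG.and2 hS (hF.dom h) (hF.wire g h)
        · intro x
          simp only [decide_eq_true_eq]
    · intro x
      simp only [c1, decide_eq_true_eq]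
  have a2 : ACG (Sm 1) S (D + 11) c2 := by
    refine ACG.raise_le hS1 (show D + 7 ≤ D + 11 by omega) ?_
    refine ACG.all (D := D + 6) (ι := Fin F.M) (by rw [Fintype.card_fin]; exact hM)
      (g := fun v x => !(fPV F v x && fNeg F v x)) ?_ ?_
    · intro v
      exact (ACG.and2 hS (fPV_acg hF hS hM v)
        ((fNeg_acg hF hS hM v).raise_le hS1 (by omega))).neg fun _ => sm_not
    · intro x
      simp only [c2, decide_eq_true_eq]
  have a3 : ACG (Sm 1) S (D + 11) c3 :=
    ACG.cntEq (D := D + 5) (fun _ => sm_not) hS hK h1 hM (fPV_acg hF hS hM)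
      fun j => (hF.par j).raise_le hS1 (by omega)
  have a4 : ACG (Sm 1) S (D + 13) (fun x => (c1 x && c2 x) && c3 x) :=
    ACG.and2 hS (ACG.and2 hS a1 a2) (a3.raise hS1)
  have e : (fun x => decide ((F.apply x).WSat (F.param x))) = fun x => (c1 x && c2 x) && c3 x := by
    funext x
    have hfin := univ_finite F x
    rw [Bool.eq_iff_iff, decide_eq_true_eq, wsat11 (hG x), Bool.and_eq_true, Bool.and_eq_true,
      and_assoc]
    have b1 : (∀ g, (F.apply x).isOr g → ∃ h, (F.apply x).wire g h) ↔ c1 x = true := by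
      simp only [c1, decide_eq_true_eq, Bool.or_eq_true, Bool.not_eq_true', Bool.and_eq_false_iff,
        Bool.and_eq_true]
      constructor
      · intro h g
        by_cases hd : F.dom g x = true
        · by_cases ho : F.isOr g x = true
          · obtain ⟨⟨h', hh'⟩, hw⟩ := h ⟨g, hd⟩ ho
            exact Or.inr ⟨h', hh', hw⟩
          · exact Or.inl (Or.inr (by simpa using ho))
        · exact Or.inl (Or.inl (by simpa using hd))
      · rintro h ⟨g, hd⟩ ho
        rcases h g with (h2 | h2) | ⟨h', hh', hw⟩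
        · rw [h2] at hd
          exact absurd hd (by simp)
        · change F.isOr g x = true at ho
          rw [h2] at ho
          exact absurd ho (by simp)
        · exact ⟨⟨h', hh'⟩, hw⟩
    have b2 : (∀ v, (F.apply x).isVar v → ¬ (PosN (F.apply x) v ∧ NegN (F.apply x) v)) ↔
        c2 x = true := by
      simp only [c2, decide_eq_true_eq, Bool.not_eq_true', fPV]
      constructor
      · intro h v
        rw [Bool.eq_false_iff]
        intro h2
        simp only [Bool.and_eq_true] at h2
        obtain ⟨⟨⟨h3, h4⟩, h5⟩, h6⟩ := h2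
        exact h ⟨v, h3⟩ h4 ⟨(fPos_iff h3).1 h5, (fNeg_iff h3).1 h6⟩
      · rintro h ⟨v, hd⟩ hvar ⟨h2, h3⟩
        have h4 := h v
        rw [Bool.eq_false_iff] at h4
        apply h4
        simp only [Bool.and_eq_true]
        exact ⟨⟨⟨hd, hvar⟩, (fPos_iff hd).2 h2⟩, (fNeg_iff hd).2 h3⟩
    have b3 : Nat.card {v // (F.apply x).isVar v ∧ PosN (F.apply x) v} = F.param x ↔
        c3 x = true := by
      simp only [c3, decide_eq_true_eq, Red.param]
      have e1 : Nat.card {j : Fin F.K // F.par j x = true} =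
          (univ.filter fun j => F.par j x = true).card := by
        rw [Nat.card_eq_fintype_card, Fintype.card_subtype]
      have e2 : Nat.card {v // (F.apply x).isVar v ∧ PosN (F.apply x) v} =
          (univ.filter fun v => fPV F v x = true).card := by
        have e3 : Nat.card {v // (F.apply x).isVar v ∧ PosN (F.apply x) v} =
            Nat.card {v : Fin F.M // fPV F v x = true} := by
          apply Nat.card_congr
          refine ⟨fun v => ⟨v.1.1, ?_⟩, fun v => ⟨⟨v.1, ?_⟩, ?_, ?_⟩, fun _ => rfl, fun _ => rfl⟩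
          · simp only [fPV, Bool.and_eq_true]
            exact ⟨⟨v.1.2, v.2.1⟩, (fPos_iff v.1.2).2 v.2.2⟩
          · have := v.2
            simp only [fPV, Bool.and_eq_true] at this
            exact this.1.1
          · have := v.2
            simp only [fPV, Bool.and_eq_true] at this
            exact this.1.2
          · have := v.2
            simp only [fPV, Bool.and_eq_true] at this
            exact (fPos_iff this.1.1).1 this.2
        rw [e3, Nat.card_eq_fintype_card, Fintype.card_subtype]
      rw [e1, e2]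
    rw [b1, b2, b3]
  rw [e]
  exact a4

end acg

end Pool.Agent.WSatAC0
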