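import Pool.Agent.WSatAC0.Query
import Pool.Agent.WSatAC0.Def
import Pool.Agent.WSatCount.Eval

/-! Weighted satisfiability of an image whose bits depend on few variables. -/

namespace Pool.Agent.WSatAC0

open Finset Pool.Agent.ParityAC Pool.Agent.WSatChain Pool.Agent.WSatCount

theorem univ_finite {V : Type} (F : Red V) (x : V → Bool) : Finite (F.Univ x) := by
  unfold Red.Univ
  infer_instance

section lit

variable {U : Type} {C : Circ U}

theorem lit_child_var (hC : C.IsCircuit) {g h : U} (hl : C.IsLit g) (hw : C.wire g h) :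
    C.isVar h := by
  rcases hl with hl | ⟨_, hl⟩
  · exact absurd hw (hC.var_in _ _ hl)
  · exact hl h hw

theorem lit_card (hC : C.IsCircuit) {g : U} (hl : C.IsLit g) :
    Subsingleton {h // C.wire g h} := by
  rcases hl with hl | ⟨hl, _⟩
  · exact ⟨fun a _ => absurd a.2 (hC.var_in _ _ hl)⟩
  · obtain ⟨x, hx1, hx2⟩ := hC.not_in g hl
    exact ⟨fun a b => Subtype.ext ((hx2 a.1 a.2).trans (hx2 b.1 b.2).symm)⟩

theorem lev0_child_lit (hC : C.IsCircuit) {d : ℕ} {b : Bool} {g h : U} (hl : C.InLevel d b 0 g)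
    (hw : C.wire g h) : C.IsLit h := by
  rcases hl with hl | ⟨_, hl, _⟩
  · exact Or.inl (lit_child_var hC hl.2 hw)
  · exact hl h hw

theorem lev0_card [Finite U] (hC : C.IsCircuit) {d : ℕ} {b : Bool} {g : U}
    (hl : C.InLevel d b 0 g) : Nat.card {h // C.wire g h} ≤ d + 1 := by
  rcases hl with hl | ⟨_, _, hl⟩
  · have := lit_card hC hl.2
    have h2 := Finite.card_le_one_iff_subsingleton.2 this
    omega
  · omega

end lit

section eval

variable {V : Type} {F : Red V} {t' d : ℕ}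

/-- the evaluation of the image -/
noncomputable def evv (hG : ∀ x, GAMMA t' d _ (F.apply x)) (g : Fin F.M → Prop) (x : V → Bool) :
    F.Univ x → Prop :=
  have := univ_finite F x
  Classical.choose (eval_exists (hG x).1.toIsCircuit (fun q => g q.1))

theorem evv_spec (hG : ∀ x, GAMMA t' d _ (F.apply x)) (g : Fin F.M → Prop) (x : V → Bool) :
    (F.apply x).IsEval (evv hG g x) ∧ ∀ q, (F.apply x).isVar q → (evv hG g x q ↔ g q.1) :=
  have := univ_finite F x
  Classical.choose_spec (eval_exists (hG x).1.toIsCircuit (fun q => g q.1))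

/-- the value of a node -/
def valF (hG : ∀ x, GAMMA t' d _ (F.apply x)) (g : Fin F.M → Prop) (p : Fin F.M)
    (x : V → Bool) : Prop := ∃ h : F.dom p x = true, evv hG g x ⟨p, h⟩

theorem valF_iff {hG : ∀ x, GAMMA t' d _ (F.apply x)} {g : Fin F.M → Prop} {p : Fin F.M}
    {x : V → Bool} (h : F.dom p x = true) : valF hG g p x ↔ evv hG g x ⟨p, h⟩ :=
  ⟨fun ⟨_, h2⟩ => h2, fun h2 => ⟨h, h2⟩⟩

/-- the kinds of a node are constant -/
structure Kc (F : Red V) (ρ : Rst V) (p : Fin F.M) : Prop where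
  v : Cst ρ (F.isVar p)
  a : Cst ρ (F.isAnd p)
  o : Cst ρ (F.isOr p)
  n : Cst ρ (F.isNot p)

theorem Kc.sub {ρ ρ' : Rst V} {p : Fin F.M} (h : Kc F ρ p) (hρ : ∀ x, Ext ρ' x → Ext ρ x) :
    Kc F ρ' p := ⟨h.v.sub hρ, h.a.sub hρ, h.o.sub hρ, h.n.sub hρ⟩

/-- the present children -/
def chd (F : Red V) (p i : Fin F.M) : (V → Bool) → Bool := fun x => F.dom i x && F.wire p i x

theorem chd_iff {p i : Fin F.M} {x : V → Bool} (h : F.dom p x = true) :
    chd F p i x = true ↔ ∃ hi : F.dom i x = true, (F.apply x).wire ⟨p, h⟩ ⟨i, hi⟩ := by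
  unfold chd
  rw [Bool.and_eq_true]
  constructor
  · rintro ⟨h1, h2⟩
    exact ⟨h1, h2⟩
  · rintro ⟨h1, h2⟩
    exact ⟨h1, h2⟩

theorem chd_card {p : Fin F.M} {x : V → Bool} (h : F.dom p x = true) :
    (univ.filter fun i => chd F p i x = true).card ≤
      Nat.card {r // (F.apply x).wire ⟨p, h⟩ r} := by
  classical
  have := univ_finite F x
  have e : (univ.filter fun i => chd F p i x = true).card =
      Nat.card {i // i ∈ univ.filter fun i => chd F p i x = true} := by
    rw [Nat.card_eq_fintype_card, Fintype.card_coe]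
  rw [e]
  let φ : {i // i ∈ univ.filter fun i => chd F p i x = true} →
      {r // (F.apply x).wire ⟨p, h⟩ r} := fun i =>
    ⟨⟨i.1, ((chd_iff h).1 (Finset.mem_filter.1 i.2).2).1⟩,
      ((chd_iff h).1 (Finset.mem_filter.1 i.2).2).2⟩
  refine Nat.card_le_card_of_injective φ ?_
  intro i j hij
  apply Subtype.ext
  exact congrArg (fun r => r.1.1) hij

theorem lit_const {hG : ∀ x, GAMMA t' d _ (F.apply x)} {g : Fin F.M → Prop} {ρ : Rst V}
    {p : Fin F.M} (hk : Kc F ρ p) (hc : ∀ i, Cst ρ (chd F p i)) {x y : V → Bool} (hx : Ext ρ x)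
    (hy : Ext ρ y) (h : F.dom p x = true) (h' : F.dom p y = true)
    (hl : (F.apply x).IsLit ⟨p, h⟩) (hl' : (F.apply y).IsLit ⟨p, h'⟩) :
    evv hG g x ⟨p, h⟩ ↔ evv hG g y ⟨p, h'⟩ := by
  have hv := evv_spec hG g x
  have hv' := evv_spec hG g y
  have hC := (hG x).1.toIsCircuit
  have hC' := (hG y).1.toIsCircuit
  apply gate_val hC hv.1 hv'.1
  · intro h1
    have h2 : (F.apply y).isVar ⟨p, h'⟩ := (hk.v x y hx hy).symm.trans h1
    rw [hv.2 _ h1, hv'.2 _ h2]
  · intro h1
    exact (hk.a x y hx hy).symm.trans h1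
  · intro h1
    exact (hk.o x y hx hy).symm.trans h1
  · intro h1
    exact (hk.n x y hx hy).symm.trans h1
  · rintro ⟨i, hi⟩ hw
    have h1 : chd F p i x = true := (chd_iff h).2 ⟨hi, hw⟩
    rw [hc i x y hx hy] at h1
    obtain ⟨hi', hw'⟩ := (chd_iff h').1 h1
    refine ⟨⟨i, hi'⟩, hw', ?_⟩
    rw [hv.2 _ (lit_child_var hC hl hw), hv'.2 _ (lit_child_var hC' hl' hw')]
  · rintro ⟨i, hi⟩ hw
    have h1 : chd F p i y = true := (chd_iff h').2 ⟨hi, hw⟩
    rw [← hc i x y hx hy] at h1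
    obtain ⟨hi', hw'⟩ := (chd_iff h).1 h1
    refine ⟨⟨i, hi'⟩, hw', ?_⟩
    rw [hv'.2 _ (lit_child_var hC' hl' hw), hv.2 _ (lit_child_var hC hl hw')]

theorem lev0_const {hG : ∀ x, GAMMA t' d _ (F.apply x)} {g : Fin F.M → Prop} {ρ : Rst V}
    {p : Fin F.M} {b : Bool}
    (hp : ∀ x, Ext ρ x → ∃ h : F.dom p x = true, (F.apply x).InLevel d b 0 ⟨p, h⟩)
    (hk : Kc F ρ p) (hc : ∀ i, Cst ρ (chd F p i))
    (hk2 : ∀ i, (∃ x, Ext ρ x ∧ chd F p i x = true) → Kc F ρ i ∧ ∀ j, Cst ρ (chd F i j))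
    {x y : V → Bool} (hx : Ext ρ x) (hy : Ext ρ y) : valF hG g p x ↔ valF hG g p y := by
  obtain ⟨h, hl⟩ := hp x hx
  obtain ⟨h', hl'⟩ := hp y hy
  rw [valF_iff h, valF_iff h']
  have hv := evv_spec hG g x
  have hv' := evv_spec hG g y
  have hC := (hG x).1.toIsCircuit
  have hC' := (hG y).1.toIsCircuit
  apply gate_val hC hv.1 hv'.1
  · intro h1
    have h2 : (F.apply y).isVar ⟨p, h'⟩ := (hk.v x y hx hy).symm.trans h1
    rw [hv.2 _ h1, hv'.2 _ h2]
  · intro h1
    exact (hk.a x y hx hy).symm.trans h1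
  · intro h1
    exact (hk.o x y hx hy).symm.trans h1
  · intro h1
    exact (hk.n x y hx hy).symm.trans h1
  · rintro ⟨i, hi⟩ hw
    have h1 : chd F p i x = true := (chd_iff h).2 ⟨hi, hw⟩
    obtain ⟨hki, hci⟩ := hk2 i ⟨x, hx, h1⟩
    rw [hc i x y hx hy] at h1
    obtain ⟨hi', hw'⟩ := (chd_iff h').1 h1
    exact ⟨⟨i, hi'⟩, hw', lit_const hki hci hx hy hi hi' (lev0_child_lit hC hl hw)
      (lev0_child_lit hC' hl' hw')⟩
  · rintro ⟨i, hi⟩ hw
    have h1 : chd F p i y = true := (chd_iff h').2 ⟨hi, hw⟩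
    obtain ⟨hki, hci⟩ := hk2 i ⟨y, hy, h1⟩
    rw [← hc i x y hx hy] at h1
    obtain ⟨hi', hw'⟩ := (chd_iff h).1 h1
    exact ⟨⟨i, hi'⟩, hw', lit_const hki hci hx hy hi' hi (lev0_child_lit hC hl hw')
      (lev0_child_lit hC' hl' hw)⟩

end eval

section query

variable {V : Type} [Fintype V] [DecidableEq V] {F : Red V} {t' d q0 : ℕ}

omit [Fintype V] in
theorem qy_kinds (hJ : F.All (J q0)) (ρ : Rst V) (p : Fin F.M) :
    Qy ρ (4 * q0) (fun ρ' => Kc F ρ' p) := by
  have h1 : Qy ρ (q0 + (q0 + (q0 + q0))) (fun ρ' => Kc F ρ' p) := by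
    refine (Qy.junta ρ (hJ.isVar p)).bind fun ρ1 s1 c1 => ?_
    refine (Qy.junta ρ1 (hJ.isAnd p)).bind fun ρ2 s2 c2 => ?_
    refine (Qy.junta ρ2 (hJ.isOr p)).bind fun ρ3 s3 c3 => ?_
    refine (Qy.junta ρ3 (hJ.isNot p)).weaken (le_refl _) fun ρ4 s4 c4 => ?_
    exact ⟨c1.sub fun x hx => s2 x (s3 x (s4 x hx)), c2.sub fun x hx => s3 x (s4 x hx),
      c3.sub s4, c4⟩
  exact h1.weaken (by omega) fun _ _ h => h

omit [Fintype V] in
theorem chd_J (hJ : F.All (J q0)) (p i : Fin F.M) : J (2 * q0) (chd F p i) := by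
  have := (hJ.dom i).op2 (hJ.wire p i) (fun a b => a && b)
  exact this.mono (by omega)

/-- number of queries for a node of level zero -/
def cL (d q0 : ℕ) : ℕ :=
  4 * q0 + (2 * q0 * ((d + 1) * (2 * q0)) + (d + 1) * (4 * q0 + 2 * q0 * (1 * (2 * q0))))

theorem lev0_qy (hJ : F.All (J q0)) (hG : ∀ x, GAMMA t' d _ (F.apply x)) (g : Fin F.M → Prop)
    (ρ : Rst V) (p : Fin F.M) {b : Bool}
    (hp : ∀ x, Ext ρ x → ∃ h : F.dom p x = true, (F.apply x).InLevel d b 0 ⟨p, h⟩) :
    Qy ρ (cL d q0) (fun ρ' => ∀ x y, Ext ρ' x → Ext ρ' y → (valF hG g p x ↔ valF hG g p y)) := by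
  classical
  refine (qy_kinds hJ ρ p).bind fun ρ1 s1 k1 => ?_
  have hprom : ∀ x, Ext ρ x → (univ.filter fun i => chd F p i x = true).card ≤ d + 1 := by
    intro x hx
    obtain ⟨h, hl⟩ := hp x hx
    have := univ_finite F x
    exact (chd_card h).trans (lev0_card (hG x).1.toIsCircuit hl)
  refine (Qy.findJ (chd_J hJ p) ρ1 fun x hx => hprom x (s1 x hx)).bind fun ρ2 s2 k2 => ?_
  have s12 : ∀ x, Ext ρ2 x → Ext ρ x := fun x hx => s1 x (s2 x hx)
  let x0 : V → Bool := fun v => (ρ2 v).getD false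
  have hx0 : Ext ρ2 x0 := ext_def ρ2
  let I : Finset (Fin F.M) := univ.filter fun i => chd F p i x0 = true
  have hI : I.card ≤ d + 1 := hprom x0 (s12 x0 hx0)
  have h3 := Qy.finset (c := 4 * q0 + 2 * q0 * (1 * (2 * q0)))
    (fun i ρ' => Kc F ρ' i ∧ ∀ j, Cst ρ' (chd F i j))
    (fun i ρ ρ' hs h => ⟨h.1.sub hs, fun j => (h.2 j).sub hs⟩) I ρ2 ?_
  · refine h3.weaken (Nat.mul_le_mul_right _ hI) ?_
    intro ρ3 s3 h4 x y hx hy
    refine lev0_const (hG := hG) (b := b) (fun x hx => hp x (s12 x (s3 x hx)))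
      (k1.sub fun x hx => s2 x (s3 x hx)) (fun i => (k2 i).sub s3) ?_ hx hy
    rintro i ⟨u, hu, hu2⟩
    apply h4
    refine Finset.mem_filter.2 ⟨Finset.mem_univ _, ?_⟩
    rw [← k2 i u x0 (s3 u hu) hx0]
    exact hu2
  · intro i hi ρ' hρ'
    refine (qy_kinds hJ ρ' i).bind fun ρ4 s4 k4 => ?_
    refine (Qy.findJ (d' := 1) (chd_J hJ i) ρ4 ?_).weaken (le_refl _) fun ρ5 s5 k5 =>
      ⟨k4.sub s5, k5⟩
    intro x hx
    have hx2 : Ext ρ2 x := hρ' x (s4 x hx)
    obtain ⟨h, hl⟩ := hp x (s12 x hx2)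
    have h5 : chd F p i x = true := by
      rw [k2 i x x0 hx2 hx0]
      exact (Finset.mem_filter.1 hi).2
    obtain ⟨hi', hw⟩ := (chd_iff h).1 h5
    have h6 := lit_card (hG x).1.toIsCircuit (lev0_child_lit (hG x).1.toIsCircuit hl hw)
    have := univ_finite F x
    exact (chd_card hi').trans (Finite.card_le_one_iff_subsingleton.2 h6)

open Classical in
/-- the values as alternating functions -/
theorem evJ (hJ : F.All (J q0)) (hG : ∀ x, GAMMA t' d _ (F.apply x)) (g : Fin F.M → Prop)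
    {S : ℕ} (hS : 1 ≤ S) (hM : F.M ≤ S) : ∀ (r : ℕ) (b : Bool) (ρ : Rst V) (p : Fin F.M),
      (∀ x, Ext ρ x → ∃ h : F.dom p x = true, (F.apply x).InLevel d b r ⟨p, h⟩) →
      InR ρ S (cL d q0 + r * (6 * q0)) r b (fun x => decide (valF hG g p x)) := by
  intro r
  induction r with
  | zero =>
    intro b ρ p hp
    rw [Nat.zero_mul, Nat.add_zero]
    refine ((lev0_qy hJ hG g ρ p hp).weaken (le_refl _) ?_).toInR hS 0 b
    intro ρ' _ h x y hx hy
    rw [decide_eq_decide]
    exact h x y hx hy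
  | succ r ih =>
    intro b ρ p hp
    have e : cL d q0 + (r + 1) * (6 * q0) = (cL d q0 + r * (6 * q0) + 2 * q0) + 4 * q0 := by ring
    rw [e]
    apply qy_kinds hJ ρ p
    intro ρ1 s1 k1
    have hgc : ∀ x y, Ext ρ1 x → Ext ρ1 y → ∀ (h : F.dom p x = true) (h' : F.dom p y = true),
        (F.apply x).gate b ⟨p, h⟩ → (F.apply y).gate b ⟨p, h'⟩ := by
      intro x y hx hy h h' hgt
      cases b
      · exact (k1.o x y hx hy).symm.trans hgt
      · exact (k1.a x y hx hy).symm.trans hgt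
    obtain ⟨h0, hl0⟩ := hp _ (s1 _ (ext_def ρ1))
    by_cases hgate : (F.apply fun v => (ρ1 v).getD false).gate b ⟨p, h0⟩
    · -- a gate of the right kind
      let u : Fin F.M → (V → Bool) → Bool := fun i x =>
        if b then decide (chd F p i x = true → valF hG g i x)
        else decide (chd F p i x = true ∧ valF hG g i x)
      refine InR.gate hS (ι := Fin F.M) (by rw [Fintype.card_fin]; exact hM) u ?_ ?_
      · intro i
        apply (Qy.junta ρ1 (chd_J hJ p i))
        intro ρ2 s2 k2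
        by_cases hch : chd F p i (fun v => (ρ2 v).getD false) = true
        · have hIH := ih (!b) ρ2 i ?_
          · refine hIH.congr ?_
            intro x hx
            have h1 : chd F p i x = true := by
              rw [k2 x _ hx (ext_def ρ2)]
              exact hch
            simp only [u, h1, true_implies, true_and]
            split <;> rfl
          · intro x hx
            obtain ⟨h, hl⟩ := hp x (s1 x (s2 x hx))
            have h1 : chd F p i x = true := by
              rw [k2 x _ hx (ext_def ρ2)]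
              exact hch
            obtain ⟨hi, hw⟩ := (chd_iff h).1 h1
            have := univ_finite F x
            exact ⟨hi, level_child (hG x).1.toIsCircuit _ _ _ hl
              (hgc _ _ (ext_def ρ1) (s2 x hx) h0 h hgate) _ hw⟩
        · refine InR.const hS _ b _ _ ?_
          intro x hx
          have h1 : ¬ chd F p i x = true := by
            rw [k2 x _ hx (ext_def ρ2)]
            exact hch
          cases b
          · simp [u, h1]
          · simp [u, h1]
      · intro x hx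
        obtain ⟨h, _⟩ := hp x (s1 x hx)
        have hg := hgc _ _ (ext_def ρ1) hx h0 h hgate
        have hev := (evv_spec hG g x).1
        rw [decide_eq_true_eq, valF_iff h]
        cases b
        · simp only [u, Bool.false_eq_true, if_false, decide_eq_true_eq]
          rw [hev.or _ hg]
          constructor
          · rintro ⟨⟨i, hi⟩, hw, hv⟩
            exact ⟨i, (chd_iff h).2 ⟨hi, hw⟩, (valF_iff hi).2 hv⟩
          · rintro ⟨i, h1, h2⟩
            obtain ⟨hi, hw⟩ := (chd_iff h).1 h1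
            exact ⟨⟨i, hi⟩, hw, (valF_iff hi).1 h2⟩
        · simp only [u, if_true, decide_eq_true_eq]
          rw [hev.and _ hg]
          constructor
          · intro h1 i h2
            obtain ⟨hi, hw⟩ := (chd_iff h).1 h2
            exact (valF_iff hi).2 (h1 ⟨i, hi⟩ hw)
          · rintro h1 ⟨i, hi⟩ hw
            exact (valF_iff hi).1 (h1 i ((chd_iff h).2 ⟨hi, hw⟩))
    · -- a node of the other kind
      have h1 := ih (!b) ρ1 p ?_
      · exact (h1.raise hS).mono (by omega)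
      · intro x hx
        obtain ⟨h, hl⟩ := hp x (s1 x hx)
        refine ⟨h, ?_⟩
        rcases hl with hl | ⟨hl, _⟩
        · exact hl
        · exact absurd (hgc _ _ hx (ext_def ρ1) h h0 hl) hgate

end query

end Pool.Agent.WSatAC0
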