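import Pool.Agent.WSatAC0.Slots

/-! Circuits depend on few slots. -/

namespace Pool.Agent.WSatAC0

open Finset Pool.Agent.ParityAC

section medium

variable {O E : Type} [Fintype O] [DecidableEq O] [Fintype E] [DecidableEq E]
  (ends : E → O × O) {N : ℕ}

/-- `f` depends on at most `r` slots -/
def Gd (r : ℕ) (f : (VB E N → Bool) → Bool) (ω : O → Fin N) (x : VB E N → Bool) : Prop :=
  (tch ends (Dp ends f x ω)).card ≤ r

/-- `f` depends on a medium number of slots -/
def Md (r : ℕ) (f : (VB E N → Bool) → Bool) (ω : O → Fin N) (x : VB E N → Bool) : Prop :=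
  r < (tch ends (Dp ends f x ω)).card ∧ (tch ends (Dp ends f x ω)).card ≤ 2 * r

omit [Fintype O] [Fintype E] [DecidableEq E] in
theorem card_le_tch (hinj : Function.Injective ends) (F : Finset E) :
    F.card ≤ (tch ends F).card ^ 2 := by
  classical
  have h1 : F.image ends ⊆ (tch ends F) ×ˢ (tch ends F) := by
    intro p hp
    obtain ⟨e, he, rfl⟩ := Finset.mem_image.1 hp
    exact Finset.mem_product.2 ⟨tch_fst ends he, tch_snd ends he⟩
  have h2 := Finset.card_le_card h1
  rw [Finset.card_image_of_injective _ hinj, Finset.card_product] at h2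
  rw [sq]
  exact h2

/-- the small sets -/
noncomputable def smallSets (E : Type) [Fintype E] [DecidableEq E] (m : ℕ) : Finset (Finset E) := by
  classical
  exact (univ : Finset (Fin m → Option E)).image fun c => univ.filter fun e => ∃ i, c i = some e

theorem smallSets_card (m : ℕ) : (smallSets E m).card ≤ (Fintype.card E + 1) ^ m := by
  classical
  refine Finset.card_image_le.trans ?_
  rw [Finset.card_univ, Fintype.card_fun, Fintype.card_option, Fintype.card_fin]

theorem mem_smallSets {m : ℕ} {F : Finset E} (h : F.card ≤ m) : F ∈ smallSets E m := by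
  classical
  refine Finset.mem_image.2 ⟨fun i => F.toList[i.1]?, Finset.mem_univ _, ?_⟩
  ext e
  rw [Finset.mem_filter]
  constructor
  · rintro ⟨_, i, hi⟩
    have := List.mem_of_getElem? hi
    exact Finset.mem_toList.1 this
  · intro he
    refine ⟨Finset.mem_univ _, ?_⟩
    obtain ⟨i, hi, hie⟩ := List.getElem_of_mem (Finset.mem_toList.2 he)
    have hi' : i < m := by
      rw [Finset.length_toList] at hi
      omega
    refine ⟨⟨i, hi'⟩, ?_⟩
    show F.toList[i]? = some e
    rw [List.getElem?_eq_getElem hi, hie]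

/-- the bound for the medium event -/
noncomputable def mu (E : Type) [Fintype E] (N r d : ℕ) (l err : ℝ) : ℝ :=
  ((Fintype.card E + 1 : ℕ) : ℝ) ^ (4 * r ^ 2) *
    ((l⁻¹) ^ (4 * r ^ 2) * (((2 : ℝ) ^ d) ^ (4 * r ^ 2) * (1 / N) ^ (r + 1) + err))

theorem medium_prob (hinj : Function.Injective ends) (hN : 1 ≤ N) {w : Bool → ℝ}
    (hw : ∀ a, 0 ≤ w a) (hw1 : ∑ a, w a = 1) {l : ℝ}
    (h0 : 0 < l) (h1 : l ≤ 1) {d r : ℕ} {err : ℝ} (f : (VB E N → Bool) → Bool)
    (herr : PP (wo w l) (fun ρ : VB E N → Option Bool => ¬ Sm d (fun x => f (ov ρ x))) ≤ err) :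
    P2 (un N) w (Md ends r f) ≤ mu E N r d l err := by
  classical
  have hu := un_nonneg N
  have herr0 : 0 ≤ err :=
    le_trans (PP_nonneg (fun a => wo_nonneg hw h0.le h1 a) _) herr
  let m0 := 4 * r ^ 2
  let K : ℝ := (l⁻¹) ^ m0 * (((2 : ℝ) ^ d) ^ m0 * (1 / N) ^ (r + 1) + err)
  have hl1 : 1 ≤ l⁻¹ := (one_le_inv₀ h0).2 h1
  have hK : ∀ F : Finset E, F.card ≤ m0 → r < (tch ends F).card →
      P2 (un N) w (fun ω x => Dp ends f x ω = F) ≤ K := by
    intro F hF1 hF2
    have h2 := dep_prob ends hN hw hw1 h0.le h1 f herr F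
    have h3 : P2 (un N) w (fun ω x => Dp ends f x ω = F) ≤
        (l⁻¹) ^ F.card * (((2 : ℝ) ^ d) ^ F.card * (1 / N) ^ (tch ends F).card + err) := by
      have hlF : 0 < l ^ F.card := pow_pos h0 _
      rw [inv_pow]
      rw [inv_mul_eq_div, le_div_iff₀ hlF]
      calc _ = l ^ F.card * P2 (un N) w (fun ω x => Dp ends f x ω = F) := by ring
        _ ≤ _ := h2
    refine h3.trans ?_
    have hN1 : (1 : ℝ) / N ≤ 1 := by
      rw [div_le_one (by exact_mod_cast hN)]
      exact_mod_cast hN
    have hN0 : (0 : ℝ) ≤ 1 / N := by positivity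
    have e1 : (l⁻¹) ^ F.card ≤ (l⁻¹) ^ m0 := pow_le_pow_right₀ hl1 hF1
    have e2 : ((2 : ℝ) ^ d) ^ F.card ≤ ((2 : ℝ) ^ d) ^ m0 :=
      pow_le_pow_right₀ (one_le_pow₀ (by norm_num)) hF1
    have e3 : (1 / (N : ℝ)) ^ (tch ends F).card ≤ (1 / N) ^ (r + 1) :=
      pow_le_pow_of_le_one hN0 hN1 hF2
    have e4 : 0 ≤ (l⁻¹) ^ m0 := by positivity
    have e5 : ((2 : ℝ) ^ d) ^ F.card * (1 / N) ^ (tch ends F).card ≤
        ((2 : ℝ) ^ d) ^ m0 * (1 / N) ^ (r + 1) :=
      mul_le_mul e2 e3 (by positivity) (by positivity)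
    exact mul_le_mul e1 (by linarith) (by positivity) e4
  have h2 : P2 (un N) w (Md ends r f) ≤
      P2 (un N) w (fun ω x => ∃ F ∈ (smallSets E m0).filter (fun F => r < (tch ends F).card),
        Dp ends f x ω = F) := by
    apply P2_mono hu hw
    rintro ω x ⟨h3, h4⟩
    refine ⟨Dp ends f x ω, ?_, rfl⟩
    rw [Finset.mem_filter]
    refine ⟨mem_smallSets ?_, h3⟩
    refine (card_le_tch ends hinj _).trans ?_
    calc (tch ends (Dp ends f x ω)).card ^ 2 ≤ (2 * r) ^ 2 := Nat.pow_le_pow_left h4 2
      _ = m0 := by ring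
  refine h2.trans ((P2_exists hu hw _ _).trans ?_)
  have h5 : ∀ F ∈ (smallSets E m0).filter (fun F => r < (tch ends F).card),
      P2 (un N) w (fun ω x => Dp ends f x ω = F) ≤ K ∨ K < 0 := by
    intro F hF
    by_cases hc : F.card ≤ m0
    · exact Or.inl (hK F hc (Finset.mem_filter.1 hF).2)
    · exfalso
      obtain ⟨c, _, rfl⟩ := Finset.mem_image.1 (Finset.mem_filter.1 hF).1
      apply hc
      have : (univ.filter fun e => ∃ i, c i = some e) ⊆
          (univ : Finset (Fin m0)).biUnion fun i => (c i).toFinset := by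
        intro e he
        obtain ⟨i, hi⟩ := (Finset.mem_filter.1 he).2
        exact Finset.mem_biUnion.2 ⟨i, Finset.mem_univ _, by rw [Option.mem_toFinset]; exact hi⟩
      refine (Finset.card_le_card this).trans ?_
      refine (Finset.card_biUnion_le_card_mul _ _ 1 ?_).trans ?_
      · intro i _
        rw [Option.card_toFinset]
        cases c i <;> simp
      · simp
  have hK0 : 0 ≤ K := by
    have : 0 ≤ l⁻¹ := le_trans zero_le_one hl1
    positivity
  have h6 : ∀ F ∈ (smallSets E m0).filter (fun F => r < (tch ends F).card),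
      P2 (un N) w (fun ω x => Dp ends f x ω = F) ≤ K := by
    intro F hF
    rcases h5 F hF with h | h
    · exact h
    · linarith
  refine (Finset.sum_le_sum h6).trans ?_
  rw [Finset.sum_const, nsmul_eq_mul]
  have h7 : (((smallSets E m0).filter (fun F => r < (tch ends F).card)).card : ℝ) ≤
      ((Fintype.card E + 1 : ℕ) : ℝ) ^ m0 := by
    have := (Finset.card_filter_le (smallSets E m0) (fun F => r < (tch ends F).card)).trans
      (smallSets_card m0)
    exact_mod_cast this
  exact mul_le_mul_of_nonneg_right h7 hK0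

/-! ### induction over the circuit -/

theorem ACG.raise {X : Type} {P : (X → Bool) → Prop} {S D : ℕ} (hS : 1 ≤ S) {f : X → Bool}
    (h : ACG P S D f) : ACG P S (D + 1) f :=
  ⟨1, hS, fun _ => f, fun _ => h, Or.inl fun x => by simp⟩

theorem ACG.raise_le {X : Type} {P : (X → Bool) → Prop} {S D D' : ℕ} (hS : 1 ≤ S) (hD : D ≤ D')
    {f : X → Bool} (h : ACG P S D f) : ACG P S D' f := by
  obtain ⟨k, rfl⟩ := Nat.exists_eq_add_of_le hD
  induction k with
  | zero => exact h
  | succ k ih => exact (ih (Nat.le_add_right _ _)).raise hS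

omit [Fintype O] [Fintype E] [DecidableEq E] in
theorem tch_mono {F G : Finset E} (h : F ⊆ G) : tch ends F ⊆ tch ends G :=
  Finset.union_subset_union (Finset.image_subset_image h) (Finset.image_subset_image h)

omit [Fintype O] [Fintype E] in
theorem tch_union (F G : Finset E) : tch ends (F ∪ G) = tch ends F ∪ tch ends G := by
  ext o
  simp only [tch, Finset.image_union, Finset.mem_union]
  tauto

/-- number of steps -/
def cst (S : ℕ) : ℕ → ℕ
  | 0 => 0
  | D + 1 => S * (cst S D + 1)

theorem good_prob {w : Bool → ℝ} (hw : ∀ a, 0 ≤ w a) {S D r : ℕ} (hr : 2 ≤ r)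
    (hS : 1 ≤ S) {μ : ℝ} (hμ0 : 0 ≤ μ)
    (hμ : ∀ g : (VB E N → Bool) → Bool, ACG (Sm 1) S D g → P2 (un N) w (Md ends r g) ≤ μ) :
    ∀ D' ≤ D, ∀ f : (VB E N → Bool) → Bool, ACG (Sm 1) S D' f →
      P2 (un N) w (fun ω x => ¬ Gd ends r f ω x) ≤ cst S D' * μ := by
  classical
  have hu := un_nonneg N
  -- functions with few slots always
  have hzero : ∀ f : (VB E N → Bool) → Bool, (∀ ω x, Gd ends r f ω x) →
      P2 (un N) w (fun ω x => ¬ Gd ends r f ω x) = 0 := by
    intro f hf
    simp only [hf, not_true_eq_false]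
    unfold P2
    simp only [PP_eq, if_false]
    unfold EE
    simp
  intro D'
  induction D' with
  | zero =>
    rintro _ f ⟨t, ht1, ht2⟩
    rw [hzero]
    · simp [cst]
    · intro ω x
      have h1 : Dp ends f x ω ⊆ (dtVars t).image Prod.fst := by
        intro e he
        obtain ⟨y, hy⟩ := (mem_Dp ends).1 he
        refine Finset.mem_image.2 ⟨st ends ω e, ?_, rfl⟩
        apply relv_mem ht2
        refine ⟨inst ends x ω y, ?_⟩
        rw [← inst_flp]
        exact hy
      have h2 : (Dp ends f x ω).card ≤ 1 := by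
        have h3 := (Finset.card_le_card h1).trans Finset.card_image_le
        have h4 := dtVars_card t 1 ht1
        omega
      show (tch ends (Dp ends f x ω)).card ≤ r
      have h5 := Finset.card_union_le ((Dp ends f x ω).image fun e => (ends e).1)
        ((Dp ends f x ω).image fun e => (ends e).2)
      have h6 := Finset.card_image_le (s := Dp ends f x ω) (f := fun e => (ends e).1)
      have h7 := Finset.card_image_le (s := Dp ends f x ω) (f := fun e => (ends e).2)
      have h8 : (tch ends (Dp ends f x ω)).card ≤ _ := h5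
      omega
  | succ D' ih =>
    rintro hD f ⟨n, hn, g, hg, hf⟩
    have ih' := ih (by omega)
    -- the prefixes
    obtain ⟨p, hp0, hpD, hpstep, hpn⟩ : ∃ p : ℕ → (VB E N → Bool) → Bool,
        (∀ ω x, Gd ends r (p 0) ω x) ∧ (∀ j ≤ n, ACG (Sm 1) S (D' + 1) (p j)) ∧
        (∀ (j : ℕ) (hj : j < n) (ω : O → Fin N) (x : VB E N → Bool),
          Dp ends (p (j + 1)) x ω ⊆ Dp ends (p j) x ω ∪ Dp ends (g ⟨j, hj⟩) x ω) ∧
        p n = f := by
      have hconst : ∀ (c : Bool) (h : (VB E N → Bool) → Bool), (∀ x, h x = c) →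
          ∀ ω x, Gd ends r h ω x := by
        intro c h hh ω x
        have h1 : Dp ends h x ω = ∅ := by
          rw [Finset.eq_empty_iff_forall_notMem]
          intro e he
          obtain ⟨y, hy⟩ := (mem_Dp ends).1 he
          exact hy (by simp only [hh])
        show (tch ends (Dp ends h x ω)).card ≤ r
        rw [h1]
        simp [tch]
      rcases hf with hf | hf
      · refine ⟨fun j x => decide (∀ i : Fin n, i.1 < j → g i x = true), ?_, ?_, ?_, ?_⟩
        · exact hconst true _ fun x => by simp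
        · intro j hj
          refine ⟨j, hj.trans hn, fun i => g ⟨i.1, by omega⟩, fun i => hg _, Or.inl ?_⟩
          intro x
          rw [decide_eq_true_eq]
          constructor
          · intro h i
            exact h ⟨i.1, by omega⟩ i.2
          · intro h i hi
            exact h ⟨i.1, hi⟩
        · intro j hj ω x e he
          rw [Finset.mem_union, mem_Dp, mem_Dp]
          refine relv_and ?_ ((mem_Dp ends).1 he)
          intro y
          simp only
          rw [Bool.eq_iff_iff, Bool.and_eq_true, decide_eq_true_eq, decide_eq_true_eq]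
          constructor
          · intro h
            exact ⟨fun i hi => h i (by omega), h ⟨j, hj⟩ (by simp)⟩
          · rintro ⟨h1, h2⟩ i hi
            rcases Nat.lt_succ_iff_lt_or_eq.1 hi with h3 | h3
            · exact h1 i h3
            · have : i = ⟨j, hj⟩ := Fin.ext h3
              rw [this]
              exact h2
        · funext x
          rw [Bool.eq_iff_iff, decide_eq_true_eq, hf]
          exact ⟨fun h i => h i i.2, fun h i _ => h i⟩
      · refine ⟨fun j x => decide (∃ i : Fin n, i.1 < j ∧ g i x = true), ?_, ?_, ?_, ?_⟩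
        · exact hconst false _ fun x => by simp
        · intro j hj
          refine ⟨j, hj.trans hn, fun i => g ⟨i.1, by omega⟩, fun i => hg _, Or.inr ?_⟩
          intro x
          rw [decide_eq_true_eq]
          constructor
          · rintro ⟨i, hi, h⟩
            exact ⟨⟨i.1, hi⟩, h⟩
          · rintro ⟨i, h⟩
            exact ⟨⟨i.1, by omega⟩, i.2, h⟩
        · intro j hj ω x e he
          rw [Finset.mem_union, mem_Dp, mem_Dp]
          refine relv_or ?_ ((mem_Dp ends).1 he)
          intro y
          simp only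
          rw [Bool.eq_iff_iff, Bool.or_eq_true, decide_eq_true_eq, decide_eq_true_eq]
          constructor
          · rintro ⟨i, hi, h⟩
            rcases Nat.lt_succ_iff_lt_or_eq.1 hi with h3 | h3
            · exact Or.inl ⟨i, h3, h⟩
            · have : i = ⟨j, hj⟩ := Fin.ext h3
              rw [← this]
              exact Or.inr h
          · rintro (⟨i, hi, h⟩ | h)
            · exact ⟨i, by omega, h⟩
            · exact ⟨⟨j, hj⟩, by simp, h⟩
        · funext x
          rw [Bool.eq_iff_iff, decide_eq_true_eq, hf]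
          constructor
          · rintro ⟨i, _, h⟩
            exact ⟨i, h⟩
          · rintro ⟨i, h⟩
            exact ⟨i, i.2, h⟩
    have key : ∀ j ≤ n, P2 (un N) w (fun ω x => ¬ Gd ends r (p j) ω x) ≤
        j * ((cst S D' + 1) * μ) := by
      intro j
      induction j with
      | zero =>
        intro _
        rw [hzero _ hp0]
        simp
      | succ j ihj =>
        intro hj
        have h1 := ihj (by omega)
        have h2 := ih' (g ⟨j, by omega⟩) (hg _)
        have h3 := hμ (p (j + 1)) ((hpD (j + 1) hj).raise_le hS hD)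
        have h4 : P2 (un N) w (fun ω x => ¬ Gd ends r (p (j + 1)) ω x) ≤
            P2 (un N) w (fun ω x => (¬ Gd ends r (p j) ω x ∨ ¬ Gd ends r (g ⟨j, by omega⟩) ω x) ∨
              Md ends r (p (j + 1)) ω x) := by
          apply P2_mono hu hw
          intro ω x h
          by_contra hcon
          push Not at hcon
          obtain ⟨⟨h5, h6⟩, h7⟩ := hcon
          apply h7
          refine ⟨not_le.1 h, ?_⟩
          have h8 := Finset.card_le_card (tch_mono ends (hpstep j (by omega) ω x))
          rw [tch_union] at h8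
          have h9 := h8.trans (Finset.card_union_le _ _)
          unfold Gd at h5 h6
          omega
        refine h4.trans ?_
        refine (P2_or hu hw _ _).trans ?_
        have h5 := P2_or hu hw (fun ω x => ¬ Gd ends r (p j) ω x)
          (fun ω x => ¬ Gd ends r (g ⟨j, by omega⟩) ω x)
        push_cast
        linarith
    have h1 := key n (le_refl _)
    rw [hpn] at h1
    refine h1.trans ?_
    simp only [cst]
    push_cast
    have h2 : (n : ℝ) ≤ S := by exact_mod_cast hn
    have h3 : 0 ≤ ((cst S D' : ℝ) + 1) * μ := by positivity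
    calc (n : ℝ) * (((cst S D' : ℝ) + 1) * μ) ≤ S * (((cst S D' : ℝ) + 1) * μ) :=
          mul_le_mul_of_nonneg_right h2 h3
      _ = _ := by ring

/-- **few slots** for a family of circuits -/
theorem stage_one (hinj : Function.Injective ends) (hN : 1 ≤ N) {w : Bool → ℝ} {l κ : ℝ}
    (H : RW w l κ) (hl : 0 < l) {S D r s : ℕ} (hr : 2 ≤ r) (hS : 1 ≤ S) (hs : 2 ≤ s)
    {I : Type} [Fintype I] (f : I → (VB E N → Bool) → Bool) (hf : ∀ i, ACG (Sm 1) S D (f i))
    (Bad : (O → Fin N) → (VB E N → Bool) → Prop) {β : ℝ} (hBad : P2 (un N) w Bad ≤ β)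
    (hnum : β + Fintype.card I * (cst S D *
      mu E N r (s - 1) (l ^ D) (D * S ^ D * (4 * s * κ) ^ s)) < 1) :
    ∃ (ω : O → Fin N) (x : VB E N → Bool), ¬ Bad ω x ∧ ∀ i, Gd ends r (f i) ω x := by
  classical
  have hu := un_nonneg N
  have hκ := H.κ0
  set err : ℝ := D * S ^ D * (4 * s * κ) ^ s with herr
  set μ := mu E N r (s - 1) (l ^ D) err with hμdef
  have hlD0 : 0 < l ^ D := pow_pos hl _
  have hlD1 : l ^ D ≤ 1 := pow_le_one₀ hl.le H.l1
  have hμ : ∀ g : (VB E N → Bool) → Bool, ACG (Sm 1) S D g →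
      P2 (un N) w (Md ends r g) ≤ μ := by
    intro g hg
    refine medium_prob ends hinj hN H.nonneg H.sum hlD0 hlD1 g ?_
    exact all_rounds H (by omega) hS D 1 g (by omega) hg
  have hμ0 : 0 ≤ μ := by
    rw [hμdef]
    unfold mu
    have : 0 ≤ (l ^ D)⁻¹ := by positivity
    positivity
  have h1 : P2 (un N) w (fun ω x => Bad ω x ∨ ∃ i ∈ (univ : Finset I), ¬ Gd ends r (f i) ω x) < 1 := by
    refine lt_of_le_of_lt (P2_or hu H.nonneg _ _) ?_
    refine lt_of_le_of_lt (add_le_add hBad (P2_exists hu H.nonneg univ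
      (fun i ω x => ¬ Gd ends r (f i) ω x))) ?_
    refine lt_of_le_of_lt (add_le_add (le_refl _) (Finset.sum_le_sum fun i _ =>
      good_prob ends H.nonneg hr hS hμ0 hμ D (le_refl _) (f i) (hf i))) ?_
    rw [Finset.sum_const, Finset.card_univ, nsmul_eq_mul]
    exact hnum
  obtain ⟨ω, x, h⟩ := P2_lt_one hu (un_sum hN) H.sum h1
  push Not at h
  exact ⟨ω, x, h.1, fun i => h.2 i (Finset.mem_univ _)⟩

end medium

end Pool.Agent.WSatAC0
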