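import Pool.Agent.WSatChain.Circuit
import Pool.Agent.WSatChain.Forward
import Pool.Agent.ParityAC.Tree

/-! The source circuits: a hidden clique and hidden bits; every wire is a constant or a literal of
the data. -/

namespace Pool.Agent.WSatAC0

open Pool.Agent.WSatChain Pool.Agent.ParityAC Finset

/-- the names of the nodes -/
inductive Nd (k N A1 : ℕ) (B : Type) : Type
  | var (i : Fin k) (a : Fin N)
  | gam (γ : B → ZMod 2)
  | grp (i : Fin k)
  | grpG
  | dump
  | cl (i j : Fin k) (a a' : Fin N)
  | ncl (i j : Fin k) (a a' : Fin N) (b : Bool)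
  | gate (L : List (B × (B → ZMod 2)))
  | leaf (L : List (B × (B → ZMod 2))) (j : B) (β : ZMod 2) (w : Fin A1) (u : Fin N)
  | nt (L : List (B × (B → ZMod 2))) (j : B) (β : ZMod 2) (w : Fin A1) (u : Fin N) (i : Fin k)
      (a : Fin N)

section src

variable {k N A1 : ℕ} {B : Type} [Fintype B] {s : ℕ}

/-- the history is legal; the first step is not constrained -/
def okL : List (B × (B → ZMod 2)) → Prop
  | [] => True
  | p :: L => okL L ∧ (L = [] ∨ ∑ x, p.2 x = hd 0 L p.1 + 1)

/-- the nodes -/
def vld (s : ℕ) : Nd k N A1 B → Prop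
  | .var _ _ => True
  | .gam γ => ∑ x, γ x = 0
  | .grp _ => True
  | .grpG => True
  | .dump => True
  | .cl _ _ _ _ => True
  | .ncl _ _ _ _ _ => True
  | .gate L => okL L ∧ L.length ≤ s
  | .leaf L j β _ _ => okL L ∧ L.length = s ∧ (L = [] ∨ β = hd 0 L j)
  | .nt L j β _ _ _ _ => okL L ∧ L.length = s ∧ β = hd 0 L j ∧ Odd s

/-- the data: edge bits and column bits (`true` is bad) -/
structure Dat (k N A1 : ℕ) (B : Type) : Type where
  eb : Fin k → Fin k → Fin N → Fin N → Bool
  cb : Fin k → List B → ZMod 2 → Fin A1 → Fin N → Fin N → Bool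

/-- the wires -/
def wrN (s : ℕ) (X : Dat k N A1 B) : Nd k N A1 B → Nd k N A1 B → Prop
  | .gate L, .gate L' => ∃ p, L' = p :: L
  | .gate L, .leaf L' _ _ _ _ => L' = L
  | .gate L, .gam γ => ∃ p, L = [p] ∧ γ p.1 = ∑ x, p.2 x
  | .gate L, .grp _ => L = []
  | .gate L, .grpG => L = []
  | .gate L, .dump => L = []
  | .gate L, .cl _ _ _ _ => L = []
  | .grp i, .var i' _ => i' = i
  | .grpG, .gam _ => True
  | .dump, .gam _ => True
  | .dump, .nt L j β w u i a => X.cb i (j :: pth L) β w a u = true
  | .cl i j a a', .ncl i1 j1 a1 a1' _ => i1 = i ∧ j1 = j ∧ a1 = a ∧ a1' = a'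
  | .cl i j a a', .gam _ => X.eb i j a a' = true
  | .ncl i j a a' b, .var i1 a1 => (b = false ∧ i1 = i ∧ a1 = a) ∨ (b = true ∧ i1 = j ∧ a1 = a')
  | .leaf L j β w u, .var i a => Even s ∧ X.cb i (j :: pth L) β w a u = false
  | .leaf L j β _ _, .gam γ => Even s ∧ L = [] ∧ γ j ≠ β
  | .leaf L j β w u, .nt L' j' β' w' u' i a =>
      L' = L ∧ j' = j ∧ β' = β ∧ w' = w ∧ u' = u ∧ X.cb i (j' :: pth L') β' w' a u' = false
  | .nt _ _ _ _ _ i a, .var i1 a1 => i1 = i ∧ a1 = a
  | _, _ => False

/-- the universe -/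
def UN (k N A1 : ℕ) (B : Type) [Fintype B] (s : ℕ) : Type := {e : Nd k N A1 B // vld s e}

def nVar : Nd k N A1 B → Prop
  | .var _ _ => True
  | .gam _ => True
  | _ => False

def nAnd (s : ℕ) : Nd k N A1 B → Prop
  | .gate L => Even L.length
  | .leaf _ _ _ _ _ => Odd s
  | _ => False

def nOr (s : ℕ) : Nd k N A1 B → Prop
  | .gate L => ¬ Even L.length
  | .leaf _ _ _ _ _ => ¬ Odd s
  | .grp _ => True
  | .grpG => True
  | .dump => True
  | .cl _ _ _ _ => True
  | _ => False

def nNot : Nd k N A1 B → Prop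
  | .ncl _ _ _ _ _ => True
  | .nt _ _ _ _ _ _ _ => True
  | _ => False

def nOut : Nd k N A1 B → Prop
  | .gate L => L = []
  | _ => False

/-- the source circuit -/
def srcN (s : ℕ) (X : Dat k N A1 B) : Circ (UN k N A1 B s) where
  isVar e := nVar e.1
  isAnd e := nAnd s e.1
  isOr e := nOr s e.1
  isNot e := nNot e.1
  isOut e := nOut e.1
  wire e h := wrN s X e.1 h.1

variable {X : Dat k N A1 B}

/-- rank -/
def rkN (s : ℕ) : Nd k N A1 B → ℕ
  | .gate L => L.length
  | .leaf _ _ _ _ _ => s + 1
  | .grp _ => s + 1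
  | .grpG => s + 1
  | .dump => s + 1
  | .cl _ _ _ _ => s + 1
  | .nt _ _ _ _ _ _ _ => s + 2
  | .ncl _ _ _ _ _ => s + 2
  | .var _ _ => s + 3
  | .gam _ => s + 3

theorem wrN_rk {e h : UN k N A1 B s} (hw : (srcN s X).wire e h) : rkN s e.1 < rkN s h.1 := by
  obtain ⟨e, he⟩ := e
  obtain ⟨h, hh⟩ := h
  change wrN s X e h at hw
  show rkN s e < rkN s h
  cases e <;> cases h <;> simp only [wrN, rkN] at hw ⊢
  case gate.gate L L' =>
    obtain ⟨p, rfl⟩ := hw
    simp
  case gate.leaf L L' j β w u =>
    subst hw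
    have := hh.2.1
    omega
  case gate.gam L γ =>
    have := he.2
    omega
  case gate.grp L i =>
    subst hw
    simp
  case gate.grpG L =>
    subst hw
    simp
  case gate.dump L =>
    subst hw
    simp
  case gate.cl L i j a a' =>
    subst hw
    simp
  all_goals omega

theorem srcN_acyclic (g : UN k N A1 B s) : ¬ Relation.TransGen (srcN s X).wire g g := by
  intro h
  have key : ∀ a b : UN k N A1 B s, Relation.TransGen (srcN s X).wire a b →
      rkN s a.1 < rkN s b.1 := by
    intro a b hab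
    induction hab with
    | single h => exact wrN_rk h
    | tail _ h ih => exact ih.trans (wrN_rk h)
  exact absurd (key g g h) (lt_irrefl _)

/-- the output -/
def rootN : UN k N A1 B s := ⟨Nd.gate [], trivial, Nat.zero_le _⟩

theorem rootN_out : (srcN s X).isOut rootN := rfl

theorem out_rootN {g : UN k N A1 B s} (h : (srcN s X).isOut g) : g = rootN := by
  obtain ⟨e, he⟩ := g
  change nOut e at h
  apply Subtype.ext
  show e = Nd.gate []
  cases e <;> simp only [nOut] at h
  rw [h]

theorem srcN_isCircuit : (srcN s X).IsCircuit where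
  kind := by
    rintro ⟨e, he⟩
    show (nVar e ∧ ¬ nAnd s e ∧ ¬ nOr s e ∧ ¬ nNot e) ∨
      (¬ nVar e ∧ nAnd s e ∧ ¬ nOr s e ∧ ¬ nNot e) ∨
      (¬ nVar e ∧ ¬ nAnd s e ∧ nOr s e ∧ ¬ nNot e) ∨
      (¬ nVar e ∧ ¬ nAnd s e ∧ ¬ nOr s e ∧ nNot e)
    cases e <;> simp only [nVar, nAnd, nOr, nNot] <;> tauto
  out := ⟨rootN, rootN_out, fun _ h => out_rootN h⟩
  var_in := by
    rintro ⟨e, he⟩ ⟨h, hh⟩ hv hw
    change nVar e at hv
    change wrN s X e h at hw
    cases e <;> simp only [nVar] at hv <;> cases h <;> simp only [wrN] at hw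
  not_in := by
    rintro ⟨e, he⟩ hv
    change nNot e at hv
    cases e <;> simp only [nNot] at hv
    case ncl i j a a' b =>
      cases b
      · refine ⟨⟨Nd.var i a, trivial⟩, Or.inl ⟨rfl, rfl, rfl⟩, ?_⟩
        rintro ⟨h, hh⟩ hw
        change wrN s X _ h at hw
        apply Subtype.ext
        show h = Nd.var i a
        cases h <;> simp only [wrN] at hw
        rcases hw with hw | hw
        · rw [hw.2.1, hw.2.2]
        · exact absurd hw.1 (by simp)
      · refine ⟨⟨Nd.var j a', trivial⟩, Or.inr ⟨rfl, rfl, rfl⟩, ?_⟩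
        rintro ⟨h, hh⟩ hw
        change wrN s X _ h at hw
        apply Subtype.ext
        show h = Nd.var j a'
        cases h <;> simp only [wrN] at hw
        rcases hw with hw | hw
        · exact absurd hw.1 (by simp)
        · rw [hw.2.1, hw.2.2]
    case nt L j β w u i a =>
      refine ⟨⟨Nd.var i a, trivial⟩, ⟨rfl, rfl⟩, ?_⟩
      rintro ⟨h, hh⟩ hw
      change wrN s X _ h at hw
      apply Subtype.ext
      show h = Nd.var i a
      cases h <;> simp only [wrN] at hw
      rw [hw.1, hw.2]
  acyclic := srcN_acyclic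

theorem srcN_isFormula : (srcN s X).IsFormula where
  toIsCircuit := srcN_isCircuit
  used := by
    rintro ⟨e, he⟩
    cases e with
    | var i a => exact Or.inr ⟨⟨Nd.grp i, trivial⟩, rfl⟩
    | gam γ => exact Or.inr ⟨⟨Nd.grpG, trivial⟩, trivial⟩
    | grp i => exact Or.inr ⟨rootN, rfl⟩
    | grpG => exact Or.inr ⟨rootN, rfl⟩
    | dump => exact Or.inr ⟨rootN, rfl⟩
    | cl i j a a' => exact Or.inr ⟨rootN, rfl⟩
    | ncl i j a a' b => exact Or.inr ⟨⟨Nd.cl i j a a', trivial⟩, rfl, rfl, rfl, rfl⟩
    | gate L =>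
      cases L with
      | nil => exact Or.inl rfl
      | cons p L =>
        obtain ⟨⟨h1, h2⟩, h3⟩ := he
        rw [List.length_cons] at h3
        exact Or.inr ⟨⟨Nd.gate L, h1, by omega⟩, p, rfl⟩
    | leaf L j β w u => exact Or.inr ⟨⟨Nd.gate L, he.1, le_of_eq he.2.1⟩, rfl⟩
    | nt L j β w u i a =>
      cases hb : X.cb i (j :: pth L) β w a u with
      | true => exact Or.inr ⟨⟨Nd.dump, trivial⟩, hb⟩
      | false =>
        exact Or.inr ⟨⟨Nd.leaf L j β w u, he.1, he.2.1, Or.inr he.2.2.1⟩, rfl, rfl, rfl, rfl, rfl,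
          hb⟩
  once := by
    rintro ⟨e, he⟩ ⟨p, hp⟩ ⟨q, hq⟩ hv hwp hwq
    change ¬ nVar e at hv
    change wrN s X p e at hwp
    change wrN s X q e at hwq
    apply Subtype.ext
    show p = q
    cases e <;> simp only [nVar, not_true_eq_false, not_false_eq_true] at hv
    case grp i =>
      cases p <;> simp only [wrN] at hwp
      cases q <;> simp only [wrN] at hwq
      rw [hwp, hwq]
    case grpG =>
      cases p <;> simp only [wrN] at hwp
      cases q <;> simp only [wrN] at hwq
      rw [hwp, hwq]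
    case dump =>
      cases p <;> simp only [wrN] at hwp
      cases q <;> simp only [wrN] at hwq
      rw [hwp, hwq]
    case cl i j a a' =>
      cases p <;> simp only [wrN] at hwp
      cases q <;> simp only [wrN] at hwq
      rw [hwp, hwq]
    case ncl i j a a' b =>
      cases p <;> simp only [wrN] at hwp
      cases q <;> simp only [wrN] at hwq
      obtain ⟨rfl, rfl, rfl, rfl⟩ := hwp
      obtain ⟨rfl, rfl, rfl, rfl⟩ := hwq
      rfl
    case gate L =>
      cases p <;> simp only [wrN] at hwp
      cases q <;> simp only [wrN] at hwq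
      obtain ⟨a, ha⟩ := hwp
      obtain ⟨b, hb⟩ := hwq
      rw [ha] at hb
      simp only [List.cons.injEq] at hb
      rw [hb.2]
    case leaf L j β w u =>
      cases p <;> simp only [wrN] at hwp
      cases q <;> simp only [wrN] at hwq
      rw [← hwp, ← hwq]
    case nt L j β w u i a =>
      cases p <;> simp only [wrN] at hwp
      case dump =>
        cases q <;> simp only [wrN] at hwq
        case dump => rfl
        case leaf =>
          rw [hwp] at hwq
          exact absurd hwq.2.2.2.2.2 (by simp)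
      case leaf =>
        cases q <;> simp only [wrN] at hwq
        case dump =>
          rw [hwq] at hwp
          exact absurd hwp.2.2.2.2.2 (by simp)
        case leaf =>
          rw [← hwp.1, ← hwp.2.1, ← hwp.2.2.1, ← hwp.2.2.2.1, ← hwp.2.2.2.2.1, ← hwq.1,
            ← hwq.2.1, ← hwq.2.2.1, ← hwq.2.2.2.1, ← hwq.2.2.2.2.1]

/-! ### the class -/

theorem lit_level {U : Type} {C : Circ U} {g : U} (h : C.IsLit g) : ∀ (t : ℕ) (b : Bool),
    C.InLevel 1 b t g := by
  intro t
  induction t with
  | zero => intro b; exact Or.inl ⟨le_refl _, h⟩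
  | succ t ih => intro b; exact Or.inl (ih _)

theorem or_level {U : Type} {C : Circ U} {g : U} (h : C.isOr g) (h' : ∀ x, C.wire g x → C.IsLit x)
    (t : ℕ) : C.InLevel 1 false (t + 1) g := Or.inr ⟨h, fun x hx => lit_level (h' x hx) _ _⟩

theorem srcN_lit {e : UN k N A1 B s} (h : nVar e.1 ∨ nNot e.1) : (srcN s X).IsLit e := by
  rcases h with h | h
  · exact Or.inl h
  · refine Or.inr ⟨h, ?_⟩
    rintro ⟨x, hx⟩ hw
    obtain ⟨e, he⟩ := e
    change nNot e at h
    change wrN s X e x at hw
    show nVar x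
    cases e <;> simp only [nNot] at h <;> cases x <;> simp only [wrN] at hw <;> simp [nVar]

theorem lev_leafN {L : List (B × (B → ZMod 2))} {j : B} {β : ZMod 2} {w : Fin A1} {u : Fin N}
    (h : vld (k := k) s (Nd.leaf L j β w u)) :
    (srcN s X).InLevel 1 (!(decide (Even s))) 1 ⟨Nd.leaf L j β w u, h⟩ := by
  refine Or.inr ⟨?_, ?_⟩
  · by_cases hs : Even s
    · simp only [hs, decide_true, Bool.not_true]
      show ¬ Odd s
      rw [Nat.not_odd_iff_even]
      exact hs
    · simp only [hs, decide_false, Bool.not_false]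
      show Odd s
      rw [← Nat.not_even_iff_odd]
      exact hs
  · rintro ⟨x, hx⟩ hw
    change wrN s X (Nd.leaf L j β w u) x at hw
    refine Or.inl ⟨le_refl _, srcN_lit ?_⟩
    show nVar x ∨ nNot x
    cases x <;> simp only [wrN] at hw
    · exact Or.inl trivial
    · exact Or.inl trivial
    · exact Or.inr trivial

theorem lev_gateN : ∀ (r : ℕ) (L : List (B × (B → ZMod 2)))
    (h : vld (k := k) (N := N) (A1 := A1) s (Nd.gate L)), L.length + r = s →
    (srcN s X).InLevel 1 (decide (Even L.length)) (r + 2) ⟨Nd.gate L, h⟩ := by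
  have hor : ∀ (L : List (B × (B → ZMod 2)))
      (h : vld (k := k) (N := N) (A1 := A1) s (Nd.gate L)) (r : ℕ)
      (x : Nd k N A1 B) (hx : vld s x), wrN s X (Nd.gate L) x → (∀ L', x ≠ Nd.gate L') →
      (∀ L' j β w u, x ≠ Nd.leaf L' j β w u) →
      (srcN s X).InLevel 1 (!(decide (Even L.length))) (r + 1) ⟨x, hx⟩ := by
    intro L h r x hx hw h1 h2
    cases x <;> simp only [wrN] at hw
    case gam γ => exact lit_level (srcN_lit (e := ⟨Nd.gam γ, hx⟩) (Or.inl trivial)) _ _
    case grp i =>
      subst hw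
      refine or_level trivial ?_ r
      rintro ⟨x, hx⟩ hw
      change wrN s X _ x at hw
      apply srcN_lit
      show nVar x ∨ nNot x
      cases x <;> simp only [wrN] at hw
      exact Or.inl trivial
    case grpG =>
      subst hw
      refine or_level trivial ?_ r
      rintro ⟨x, hx⟩ hw
      change wrN s X _ x at hw
      apply srcN_lit
      show nVar x ∨ nNot x
      cases x <;> simp only [wrN] at hw
      exact Or.inl trivial
    case dump =>
      subst hw
      refine or_level trivial ?_ r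
      rintro ⟨x, hx⟩ hw
      change wrN s X _ x at hw
      apply srcN_lit
      show nVar x ∨ nNot x
      cases x <;> simp only [wrN] at hw
      · exact Or.inl trivial
      · exact Or.inr trivial
    case cl i j a a' =>
      subst hw
      refine or_level trivial ?_ r
      rintro ⟨x, hx⟩ hw
      change wrN s X _ x at hw
      apply srcN_lit
      show nVar x ∨ nNot x
      cases x <;> simp only [wrN] at hw
      · exact Or.inl trivial
      · exact Or.inr trivial
    case gate L' => exact absurd rfl (h1 L')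
    case leaf L' j β w u => exact absurd rfl (h2 L' j β w u)
  have hkind : ∀ (L : List (B × (B → ZMod 2)))
      (h : vld (k := k) (N := N) (A1 := A1) s (Nd.gate L)),
      (srcN s X).gate (decide (Even L.length)) ⟨Nd.gate L, h⟩ := by
    intro L h
    by_cases hs : Even L.length
    · simp only [hs, decide_true]
      exact hs
    · simp only [hs, decide_false]
      exact hs
  intro r
  induction r with
  | zero =>
    intro L h hr
    rw [Nat.add_zero] at hr
    refine Or.inr ⟨hkind L h, ?_⟩
    rintro ⟨x, hx⟩ hw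
    change wrN s X (Nd.gate L) x at hw
    by_cases h1 : ∃ L', x = Nd.gate L'
    · obtain ⟨L', rfl⟩ := h1
      obtain ⟨p, rfl⟩ := hw
      have := hx.2
      rw [List.length_cons] at this
      omega
    by_cases h2 : ∃ L' j β w u, x = Nd.leaf L' j β w u
    · obtain ⟨L', j, β, w, u, rfl⟩ := h2
      change L' = L at hw
      subst hw
      have h3 := lev_leafN (X := X) hx
      have e : decide (Even L'.length) = decide (Even s) := by rw [hr]
      rw [e]
      exact h3
    exact hor L h 0 x hx hw (fun L' h' => h1 ⟨L', h'⟩)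
      (fun L' j β w u h' => h2 ⟨L', j, β, w, u, h'⟩)
  | succ r ih =>
    intro L h hr
    refine Or.inr ⟨hkind L h, ?_⟩
    rintro ⟨x, hx⟩ hw
    change wrN s X (Nd.gate L) x at hw
    by_cases h1 : ∃ L', x = Nd.gate L'
    · obtain ⟨L', rfl⟩ := h1
      obtain ⟨p, rfl⟩ := hw
      have h3 := ih (p :: L) hx (by rw [List.length_cons]; omega)
      have h2 : decide (Even (p :: L).length) = !(decide (Even L.length)) := by
        rw [List.length_cons]
        by_cases hs : Even L.length
        · simp [hs, Nat.even_add_one]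
        · simp [hs, Nat.even_add_one]
      rw [h2] at h3
      exact h3
    by_cases h2 : ∃ L' j β w u, x = Nd.leaf L' j β w u
    · obtain ⟨L', j, β, w, u, rfl⟩ := h2
      change L' = L at hw
      subst hw
      have := hx.2.1
      omega
    exact hor L h (r + 1) x hx hw (fun L' h' => h1 ⟨L', h'⟩)
      (fun L' j β w u h' => h2 ⟨L', j, β, w, u, h'⟩)

theorem srcN_gamma : GAMMA (s + 2) 1 _ (srcN s X) := by
  refine ⟨srcN_isFormula, ?_⟩
  intro g hg
  rw [out_rootN hg]
  exact lev_gateN (X := X) s [] ⟨trivial, Nat.zero_le _⟩ (by simp)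

end src

end Pool.Agent.WSatAC0
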