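import Pool.Agent.WSatAC0.Nodes

/-! Weighted satisfiability of the source circuits. -/

namespace Pool.Agent.WSatAC0

open Pool.Agent.WSatChain Pool.Agent.ParityAC Finset

section src

variable {k N A1 : ℕ} {B : Type} [Fintype B] {s : ℕ} {X : Dat k N A1 B}
  {val : UN k N A1 B s → Prop}

/-- exactly one variable of every group is true -/
structure Sel (val : UN k N A1 B s → Prop) (α : Fin k → Fin N) (γ : B → ZMod 2) : Prop where
  even : ∑ x, γ x = 0
  var : ∀ i a, val ⟨Nd.var i a, trivial⟩ ↔ a = α i
  gam : ∀ γ' h, val ⟨Nd.gam γ', h⟩ ↔ γ' = γ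

variable {α : Fin k → Fin N} {γ : B → ZMod 2}

theorem ncl_false (hv : (srcN s X).IsEval val) (hs : Sel val α γ) (i j : Fin k) (a a' : Fin N) :
    val ⟨Nd.ncl i j a a' false, trivial⟩ ↔ a ≠ α i := by
  rw [hv.not ⟨Nd.ncl i j a a' false, trivial⟩ trivial]
  constructor
  · intro h1 h2
    exact h1 ⟨Nd.var i a, trivial⟩ (Or.inl ⟨rfl, rfl, rfl⟩) ((hs.var _ _).2 h2)
  · rintro h1 ⟨x, hx⟩ hw
    change wrN s X _ x at hw
    cases x <;> simp only [wrN] at hw
    rcases hw with ⟨_, rfl, rfl⟩ | ⟨h2, _, _⟩
    · rw [hs.var]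
      exact h1
    · exact absurd h2 (by simp)

theorem ncl_true (hv : (srcN s X).IsEval val) (hs : Sel val α γ) (i j : Fin k) (a a' : Fin N) :
    val ⟨Nd.ncl i j a a' true, trivial⟩ ↔ a' ≠ α j := by
  rw [hv.not ⟨Nd.ncl i j a a' true, trivial⟩ trivial]
  constructor
  · intro h1 h2
    exact h1 ⟨Nd.var j a', trivial⟩ (Or.inr ⟨rfl, rfl, rfl⟩) ((hs.var _ _).2 h2)
  · rintro h1 ⟨x, hx⟩ hw
    change wrN s X _ x at hw
    cases x <;> simp only [wrN] at hw
    rcases hw with ⟨h2, _, _⟩ | ⟨_, rfl, rfl⟩
    · exact absurd h2 (by simp)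
    · rw [hs.var]
      exact h1

theorem cl_val (hv : (srcN s X).IsEval val) (hs : Sel val α γ) (i j : Fin k) (a a' : Fin N) :
    val ⟨Nd.cl i j a a', trivial⟩ ↔ (a = α i → a' = α j → X.eb i j a a' = true) := by
  rw [hv.or ⟨Nd.cl i j a a', trivial⟩ trivial]
  constructor
  · rintro ⟨⟨x, hx⟩, hw, h1⟩ h2 h3
    change wrN s X _ x at hw
    cases x <;> simp only [wrN] at hw
    case gam γ' => exact hw
    case ncl i1 j1 a1 a1' b =>
      obtain ⟨rfl, rfl, rfl, rfl⟩ := hw
      cases b
      · rw [ncl_false hv hs] at h1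
        exact absurd h2 h1
      · rw [ncl_true hv hs] at h1
        exact absurd h3 h1
  · intro h1
    by_cases h2 : a = α i
    · by_cases h3 : a' = α j
      · exact ⟨⟨Nd.gam γ, hs.even⟩, h1 h2 h3, (hs.gam _ _).2 rfl⟩
      · exact ⟨⟨Nd.ncl i j a a' true, trivial⟩, ⟨rfl, rfl, rfl, rfl⟩, (ncl_true hv hs i j a a').2 h3⟩
    · exact ⟨⟨Nd.ncl i j a a' false, trivial⟩, ⟨rfl, rfl, rfl, rfl⟩,
        (ncl_false hv hs i j a a').2 h2⟩

theorem grp_val (hv : (srcN s X).IsEval val) (hs : Sel val α γ) (i : Fin k) :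
    val ⟨Nd.grp i, trivial⟩ := by
  rw [hv.or ⟨Nd.grp i, trivial⟩ trivial]
  exact ⟨⟨Nd.var i (α i), trivial⟩, rfl, (hs.var _ _).2 rfl⟩

theorem grpG_val (hv : (srcN s X).IsEval val) (hs : Sel val α γ) : val ⟨Nd.grpG, trivial⟩ := by
  rw [hv.or ⟨Nd.grpG, trivial⟩ trivial]
  exact ⟨⟨Nd.gam γ, hs.even⟩, trivial, (hs.gam _ _).2 rfl⟩

theorem dump_val (hv : (srcN s X).IsEval val) (hs : Sel val α γ) : val ⟨Nd.dump, trivial⟩ := by
  rw [hv.or ⟨Nd.dump, trivial⟩ trivial]
  exact ⟨⟨Nd.gam γ, hs.even⟩, trivial, (hs.gam _ _).2 rfl⟩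

theorem nt_val (hv : (srcN s X).IsEval val) (hs : Sel val α γ)
    {L : List (B × (B → ZMod 2))} {j : B} {β : ZMod 2} {w : Fin A1} {u : Fin N} {i : Fin k}
    {a : Fin N} (h : vld s (Nd.nt L j β w u i a)) :
    val ⟨Nd.nt L j β w u i a, h⟩ ↔ a ≠ α i := by
  rw [hv.not ⟨Nd.nt L j β w u i a, h⟩ trivial]
  constructor
  · intro h1 h2
    exact h1 ⟨Nd.var i a, trivial⟩ ⟨rfl, rfl⟩ ((hs.var _ _).2 h2)
  · rintro h1 ⟨x, hx⟩ hw
    change wrN s X _ x at hw
    cases x <;> simp only [wrN] at hw
    obtain ⟨rfl, rfl⟩ := hw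
    rw [hs.var]
    exact h1

theorem leaf_even (hv : (srcN s X).IsEval val) (hs : Sel val α γ) (he : Even s)
    {L : List (B × (B → ZMod 2))} {j : B} {β : ZMod 2} {w : Fin A1} {u : Fin N}
    (h : vld (k := k) s (Nd.leaf L j β w u)) :
    val ⟨Nd.leaf L j β w u, h⟩ ↔ (∃ i, X.cb i (j :: pth L) β w (α i) u = false) ∨
      (L = [] ∧ γ j ≠ β) := by
  have hno : ¬ Odd s := by rw [Nat.not_odd_iff_even]; exact he
  rw [hv.or ⟨Nd.leaf L j β w u, h⟩ hno]
  constructor
  · rintro ⟨⟨x, hx⟩, hw, h1⟩
    change wrN s X _ x at hw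
    cases x <;> simp only [wrN] at hw
    case var i a =>
      rw [hs.var] at h1
      subst h1
      exact Or.inl ⟨i, hw.2⟩
    case gam γ' =>
      rw [hs.gam] at h1
      subst h1
      exact Or.inr ⟨hw.2.1, hw.2.2⟩
    case nt => exact absurd hx.2.2.2 hno
  · rintro (⟨i, hi⟩ | ⟨h1, h2⟩)
    · exact ⟨⟨Nd.var i (α i), trivial⟩, ⟨he, hi⟩, (hs.var _ _).2 rfl⟩
    · exact ⟨⟨Nd.gam γ, hs.even⟩, ⟨he, h1, h2⟩, (hs.gam _ _).2 rfl⟩

theorem leaf_odd (hv : (srcN s X).IsEval val) (hs : Sel val α γ) (ho : Odd s)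
    {L : List (B × (B → ZMod 2))} {j : B} {β : ZMod 2} {w : Fin A1} {u : Fin N}
    (h : vld (k := k) s (Nd.leaf L j β w u)) :
    val ⟨Nd.leaf L j β w u, h⟩ ↔ ∀ i, X.cb i (j :: pth L) β w (α i) u = true := by
  have hne : ¬ Even s := by rw [Nat.not_even_iff_odd]; exact ho
  have hL : L ≠ [] := by
    rintro rfl
    have := h.2.1
    simp only [List.length_nil] at this
    rw [← this] at ho
    exact absurd ho (by decide)
  have hβ : β = hd 0 L j := h.2.2.resolve_left hL
  rw [hv.and ⟨Nd.leaf L j β w u, h⟩ ho]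
  constructor
  · intro h1 i
    by_contra hcon
    rw [Bool.not_eq_true] at hcon
    have hval : vld s (Nd.nt L j β w u i (α i)) := ⟨h.1, h.2.1, hβ, ho⟩
    have h2 := h1 ⟨_, hval⟩ ⟨rfl, rfl, rfl, rfl, rfl, hcon⟩
    rw [nt_val hv hs hval] at h2
    exact h2 rfl
  · rintro h1 ⟨x, hx⟩ hw
    change wrN s X _ x at hw
    cases x <;> simp only [wrN] at hw
    case var i a => exact absurd hw.1 hne
    case gam γ' => exact absurd hw.1 hne
    case nt L' j' β' w' u' i a =>
      obtain ⟨rfl, rfl, rfl, rfl, rfl, h2⟩ := hw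
      rw [nt_val hv hs hx]
      rintro rfl
      rw [h1 i] at h2
      exact absurd h2 (by simp)

/-- the hidden bits -/
def Hid (X : Dat k N A1 B) (s : ℕ) (α : Fin k → Fin N) (ζ : List B → ZMod 2) : Prop :=
  ∀ P : List B, P.length = s + 1 → ∀ β, (∀ w u, ∃ i, X.cb i P β w (α i) u = false) ↔ ζ P = β

/-- the extra wire of the first gates -/
def ex1 (γ : B → ZMod 2) (L : List (B × (B → ZMod 2))) : Prop :=
  ∃ p, L = [p] ∧ γ p.1 = ∑ x, p.2 x

omit [Fintype B] in
theorem hd_ne {g g' : B → ZMod 2} {L : List (B × (B → ZMod 2))} (h : L ≠ []) : hd g L = hd g' L := by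
  cases L with
  | nil => exact absurd rfl h
  | cons p L => rfl

theorem ex1_odd {L : List (B × (B → ZMod 2))} (h : ex1 γ L) : ¬ Even L.length := by
  obtain ⟨p, rfl, _⟩ := h
  simp

variable {ζ : List B → ZMod 2}

theorem gate_semN (hv : (srcN s X).IsEval val) (hs : Sel val α γ) (hh : Hid X s α ζ) :
    ∀ (r : ℕ) (L : List (B × (B → ZMod 2))) (h : vld (k := k) s (Nd.gate L)), L ≠ [] →
    L.length + r = s → (val ⟨Nd.gate L, h⟩ ↔ ex1 γ L ∨ sem γ ζ r L) := by
  intro r
  induction r with
  | zero =>
    intro L h hne hr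
    rw [Nat.add_zero] at hr
    have hlen : ∀ j : B, (j :: pth L).length = s + 1 := by
      intro j
      simp [pth, hr]
    by_cases hL : Even L.length
    · have he : Even s := by rw [← hr]; exact hL
      have hx1 : ¬ ex1 γ L := fun h1 => ex1_odd h1 hL
      rw [sem_even hL, hv.and ⟨Nd.gate L, h⟩ hL, or_iff_right hx1]
      constructor
      · intro h1 j
        show ζ (j :: pth L) = hd γ L j
        rw [← hh _ (hlen j)]
        intro w u
        have hval : vld s (Nd.leaf (k := k) L j (hd γ L j) w u) :=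
          ⟨h.1, hr, Or.inr (by rw [hd_ne hne])⟩
        have h2 := h1 ⟨_, hval⟩ rfl
        rw [leaf_even hv hs he] at h2
        rcases h2 with h2 | h2
        · exact h2
        · exact absurd h2.1 hne
      · rintro h1 ⟨x, hx⟩ hw
        change wrN s X _ x at hw
        cases x <;> simp only [wrN] at hw
        case gam γ' =>
          obtain ⟨p, rfl, _⟩ := hw
          exact absurd hL (by simp)
        case grp => exact absurd hw hne
        case grpG => exact absurd hw hne
        case dump => exact absurd hw hne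
        case cl => exact absurd hw hne
        case gate L' =>
          obtain ⟨p, rfl⟩ := hw
          have := hx.2
          rw [List.length_cons] at this
          omega
        case leaf L' j β w u =>
          subst hw
          rw [leaf_even hv hs he]
          have h2 := h1 j
          change ζ (j :: pth L') = hd γ L' j at h2
          rw [hd_ne (g' := 0) hne, ← hx.2.2.resolve_left hne, ← hh _ (hlen j)] at h2
          exact Or.inl (h2 w u)
    · have ho : Odd s := by rw [← hr, ← Nat.not_even_iff_odd]; exact hL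
      rw [sem_odd hL, hv.or ⟨Nd.gate L, h⟩ hL]
      constructor
      · rintro ⟨⟨x, hx⟩, hw, h1⟩
        change wrN s X _ x at hw
        cases x <;> simp only [wrN] at hw
        case gam γ' =>
          rw [hs.gam] at h1
          subst h1
          exact Or.inl hw
        case grp => exact absurd hw hne
        case grpG => exact absurd hw hne
        case dump => exact absurd hw hne
        case cl => exact absurd hw hne
        case gate L' =>
          obtain ⟨p, rfl⟩ := hw
          have := hx.2
          rw [List.length_cons] at this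
          omega
        case leaf L' j β w u =>
          subst hw
          rw [leaf_odd hv hs ho] at h1
          refine Or.inr ⟨j, ?_⟩
          intro h2
          change ζ (j :: pth L') = hd γ L' j at h2
          rw [hd_ne (g' := 0) hne, ← hx.2.2.resolve_left hne, ← hh _ (hlen j)] at h2
          obtain ⟨i, hi⟩ := h2 w u
          rw [h1 i] at hi
          exact absurd hi (by simp)
      · rintro (h1 | ⟨j, hj⟩)
        · exact ⟨⟨Nd.gam γ, hs.even⟩, h1, (hs.gam _ _).2 rfl⟩
        · change ¬ (ζ (j :: pth L) = hd γ L j) at hj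
          rw [← hh _ (hlen j)] at hj
          push Not at hj
          obtain ⟨w, u, hwu⟩ := hj
          have hval : vld s (Nd.leaf (k := k) L j (hd γ L j) w u) :=
            ⟨h.1, hr, Or.inr (by rw [hd_ne hne])⟩
          refine ⟨⟨_, hval⟩, rfl, ?_⟩
          rw [leaf_odd hv hs ho]
          intro i
          have := hwu i
          simpa using this
  | succ r ih =>
    intro L h hne hr
    by_cases hL : Even L.length
    · have hx1 : ¬ ex1 γ L := fun h1 => ex1_odd h1 hL
      rw [sem_step_even hL, hv.and ⟨Nd.gate L, h⟩ hL, or_iff_right hx1]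
      constructor
      · intro h1 j h' hs'
        have hval : vld (k := k) (N := N) (A1 := A1) s (Nd.gate ((j, h') :: L)) :=
          ⟨⟨h.1, Or.inr (by rw [hd_ne (g' := γ) hne]; exact hs')⟩, by rw [List.length_cons]; omega⟩
        have h2 := h1 ⟨_, hval⟩ ⟨_, rfl⟩
        rw [ih _ hval (by simp) (by rw [List.length_cons]; omega)] at h2
        rcases h2 with ⟨p, hp, _⟩ | h2
        · simp only [List.cons.injEq] at hp
          exact absurd hp.2 hne
        · exact h2
      · rintro h1 ⟨x, hx⟩ hw
        change wrN s X _ x at hw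
        cases x <;> simp only [wrN] at hw
        case gam γ' =>
          obtain ⟨p, rfl, _⟩ := hw
          exact absurd hL (by simp)
        case grp => exact absurd hw hne
        case grpG => exact absurd hw hne
        case dump => exact absurd hw hne
        case cl => exact absurd hw hne
        case gate L' =>
          obtain ⟨p, rfl⟩ := hw
          rw [ih _ hx (by simp) (by rw [List.length_cons]; omega)]
          refine Or.inr (h1 p.1 p.2 ?_)
          rw [hd_ne (g' := 0) hne]
          exact hx.1.2.resolve_left hne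
        case leaf L' j β w u =>
          subst hw
          have := hx.2.1
          omega
    · rw [sem_step_odd hL, hv.or ⟨Nd.gate L, h⟩ hL]
      constructor
      · rintro ⟨⟨x, hx⟩, hw, h1⟩
        change wrN s X _ x at hw
        cases x <;> simp only [wrN] at hw
        case gam γ' =>
          rw [hs.gam] at h1
          subst h1
          exact Or.inl hw
        case grp => exact absurd hw hne
        case grpG => exact absurd hw hne
        case dump => exact absurd hw hne
        case cl => exact absurd hw hne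
        case gate L' =>
          obtain ⟨p, rfl⟩ := hw
          rw [ih _ hx (by simp) (by rw [List.length_cons]; omega)] at h1
          rcases h1 with ⟨p', hp, _⟩ | h1
          · simp only [List.cons.injEq] at hp
            exact absurd hp.2 hne
          · refine Or.inr ⟨p.1, p.2, ?_, h1⟩
            rw [hd_ne (g' := 0) hne]
            exact hx.1.2.resolve_left hne
        case leaf L' j β w u =>
          subst hw
          have := hx.2.1
          omega
      · rintro (h1 | ⟨j, h', hs', h1⟩)
        · exact ⟨⟨Nd.gam γ, hs.even⟩, h1, (hs.gam _ _).2 rfl⟩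
        · have hval : vld (k := k) (N := N) (A1 := A1) s (Nd.gate ((j, h') :: L)) :=
            ⟨⟨h.1, Or.inr (by rw [hd_ne (g' := γ) hne]; exact hs')⟩,
              by rw [List.length_cons]; omega⟩
          refine ⟨⟨_, hval⟩, ⟨_, rfl⟩, ?_⟩
          rw [ih _ hval (by simp) (by rw [List.length_cons]; omega)]
          exact Or.inr h1

/-- the root checks the clique -/
theorem root_clique (hv : (srcN s X).IsEval val) (hs : Sel val α γ) (h : val rootN) (i j : Fin k) :
    X.eb i j (α i) (α j) = true := by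
  rw [hv.and rootN Even.zero] at h
  have h1 := h ⟨Nd.cl i j (α i) (α j), trivial⟩ rfl
  rw [cl_val hv hs] at h1
  exact h1 rfl rfl

theorem zmod_flip {a b : ZMod 2} : a = b + 1 ↔ ¬ b = a := by
  revert a b
  decide

/-- the value of the root -/
theorem root_val (hv : (srcN s X).IsEval val) (hs : Sel val α γ) (hh : Hid X s α ζ)
    (hc : ∀ i j, X.eb i j (α i) (α j) = true) :
    val rootN ↔ ∀ j, bp ζ s [j] = γ j := by
  rw [hv.and rootN Even.zero]
  have hsimple : ∀ (x : Nd k N A1 B) (hx : vld s x), wrN s X (Nd.gate []) x →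
      (∀ L', x ≠ Nd.gate L') → (∀ L' j β w u, x ≠ Nd.leaf L' j β w u) → val ⟨x, hx⟩ := by
    intro x hx hw h1 h2
    cases x <;> simp only [wrN] at hw
    case gam γ' =>
      obtain ⟨p, hp, _⟩ := hw
      simp at hp
    case grp i => exact grp_val hv hs i
    case grpG => exact grpG_val hv hs
    case dump => exact dump_val hv hs
    case cl i j a a' =>
      rw [cl_val hv hs]
      rintro rfl rfl
      exact hc i j
    case gate L' => exact absurd rfl (h1 L')
    case leaf L' j β w u => exact absurd rfl (h2 L' j β w u)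
  cases s with
  | zero =>
    have he : Even 0 := Even.zero
    constructor
    · intro h1 j
      show ζ [j] = γ j
      rw [← hh [j] rfl]
      intro w u
      have hval : vld 0 (Nd.leaf (k := k) [] j (γ j) w u) := ⟨trivial, rfl, Or.inl rfl⟩
      have h2 := h1 ⟨_, hval⟩ rfl
      rw [leaf_even hv hs he] at h2
      rcases h2 with h2 | h2
      · exact h2
      · exact absurd rfl h2.2
    · rintro h1 ⟨x, hx⟩ hw
      change wrN 0 X (Nd.gate []) x at hw
      by_cases h2 : ∃ L', x = Nd.gate L'
      · obtain ⟨L', rfl⟩ := h2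
        obtain ⟨p, rfl⟩ := hw
        have := hx.2
        simp at this
      by_cases h3 : ∃ L' j β w u, x = Nd.leaf L' j β w u
      · obtain ⟨L', j, β, w, u, rfl⟩ := h3
        change L' = [] at hw
        subst hw
        rw [leaf_even hv hs he]
        by_cases hβ : γ j = β
        · left
          have h4 := h1 j
          change ζ [j] = γ j at h4
          rw [hβ, ← hh [j] rfl] at h4
          exact h4 w u
        · exact Or.inr ⟨rfl, hβ⟩
      exact hsimple x hx hw (fun L' h' => h2 ⟨L', h'⟩)
        (fun L' j β w u h' => h3 ⟨L', j, β, w, u, h'⟩)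
  | succ s =>
    have hsem : (∀ j, bp ζ (s + 1) [j] = γ j) ↔ sem γ ζ (s + 1) [] := by
      rw [sem_even (by simp)]
      rfl
    rw [hsem, sem_step_even (by simp)]
    constructor
    · intro h1 j h' hs'
      have hval : vld (k := k) (N := N) (A1 := A1) (s + 1) (Nd.gate [(j, h')]) :=
        ⟨⟨trivial, Or.inl rfl⟩, by simp⟩
      have h2 := h1 ⟨_, hval⟩ ⟨_, rfl⟩
      rw [gate_semN hv hs hh s _ hval (by simp) (by simp [add_comm])] at h2
      rcases h2 with ⟨p, hp, hp2⟩ | h2
      · exfalso
        simp only [List.cons.injEq, and_true] at hp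
        subst hp
        change ∑ x, h' x = γ j + 1 at hs'
        rw [zmod_flip] at hs'
        exact hs' hp2
      · exact h2
    · rintro h1 ⟨x, hx⟩ hw
      change wrN (s + 1) X (Nd.gate []) x at hw
      by_cases h2 : ∃ L', x = Nd.gate L'
      · obtain ⟨L', rfl⟩ := h2
        obtain ⟨p, rfl⟩ := hw
        rw [gate_semN hv hs hh s _ hx (by simp) (by simp [add_comm])]
        by_cases hp : γ p.1 = ∑ x, p.2 x
        · exact Or.inl ⟨p, rfl, hp⟩
        · refine Or.inr (h1 p.1 p.2 ?_)
          show ∑ x, p.2 x = γ p.1 + 1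
          rw [zmod_flip]
          exact hp
      by_cases h3 : ∃ L' j β w u, x = Nd.leaf L' j β w u
      · obtain ⟨L', j, β, w, u, rfl⟩ := h3
        change L' = [] at hw
        subst hw
        have := hx.2.1
        simp at this
      exact hsimple x hx hw (fun L' h' => h2 ⟨L', h'⟩)
        (fun L' j β w u h' => h3 ⟨L', j, β, w, u, h'⟩)


end src

end Pool.Agent.WSatAC0
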