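import Pool.Agent.WSatAC0.Core
import Pool.Agent.WSatCount.CountLink

/-! Estimates. -/

namespace Pool.Agent.WSatAC0

open Finset Pool.Agent.ParityAC Pool.Agent.WSatChain Pool.Agent.WSatCount Filter

theorem rw_of {x : ℝ} (h0 : 0 < x) (h1 : x ≤ 1 / 2) : RW (lw x) (x ^ 2) (2 * x) where
  nonneg := fun a => lw_nonneg h0.le (by linarith) a
  sum := lw_sum x
  l0 := by positivity
  l1 := by nlinarith
  κ0 := by positivity
  ineq := by
    have h2 : x ^ 2 ≤ 1 / 4 := by nlinarith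
    intro a
    cases a
    · simp only [lw, Bool.false_eq_true, if_false]
      have h3 : x ^ 2 ≤ x * (1 / 2) := by nlinarith
      have h4 : (3 / 4 : ℝ) * (1 / 2) ≤ (1 - x ^ 2) * (1 - x) :=
        mul_le_mul (by linarith) (by linarith) (by norm_num) (by linarith)
      nlinarith
    · simp only [lw, if_true]
      have h3 : 0 ≤ x ^ 2 * (1 - 2 * x ^ 2) := by
        apply mul_nonneg (by positivity)
        linarith
      nlinarith

theorem one_add_pow_le {x : ℝ} (h0 : 0 ≤ x) (h1 : x ≤ 1) (k : ℕ) :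
    (1 + x) ^ k ≤ 1 + (2 ^ k - 1) * x := by
  induction k with
  | zero => simp
  | succ k ih =>
    have h2 : (1 : ℝ) ≤ 2 ^ k := one_le_pow₀ (by norm_num)
    have h3 : (0 : ℝ) ≤ (2 ^ k - 1) * (x - x ^ 2) := by
      apply mul_nonneg (by linarith)
      nlinarith
    calc (1 + x) ^ (k + 1) = (1 + x) ^ k * (1 + x) := pow_succ _ _
      _ ≤ (1 + (2 ^ k - 1) * x) * (1 + x) := mul_le_mul_of_nonneg_right ih (by linarith)
      _ ≤ 1 + (2 ^ (k + 1) - 1) * x := by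
        rw [pow_succ]
        nlinarith

theorem cst_le {S : ℕ} (hS : 1 ≤ S) (D : ℕ) : cst S D + 1 ≤ (2 * S) ^ D := by
  induction D with
  | zero => simp [cst]
  | succ D ih =>
    simp only [cst]
    have h1 : 1 ≤ (2 * S) ^ D := Nat.one_le_pow _ _ (by omega)
    calc S * (cst S D + 1) + 1 ≤ S * (2 * S) ^ D + S * (2 * S) ^ D := by
          apply Nat.add_le_add (Nat.mul_le_mul_left _ ih)
          exact Nat.mul_pos hS h1
      _ = (2 * S) ^ (D + 1) := by ring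

theorem mu_le {Y : ℝ} (hY : 2 ≤ Y) {N r dd D a : ℕ} {E : Type} [Fintype E] {l err : ℝ}
    (hE : ((Fintype.card E + 1 : ℕ) : ℝ) ≤ Y ^ 4) (hl : l = (Y ^ 2)⁻¹) (hN : (N : ℝ) = Y ^ a)
    (h2 : ((2 : ℝ) ^ dd) ^ (4 * r ^ 2) ≤ Y) (herr : err ≤ Y * (Y ^ (a * (r + 1)))⁻¹)
    (herr0 : 0 ≤ err) :
    mu E N r dd (l ^ D) err ≤ Y ^ ((16 + 8 * D) * r ^ 2 + 2) * (Y ^ (a * (r + 1)))⁻¹ := by
  have hY0 : 0 < Y := by linarith
  have hY1 : 1 ≤ Y := by linarith
  unfold mu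
  have e1 : ((Fintype.card E + 1 : ℕ) : ℝ) ^ (4 * r ^ 2) ≤ Y ^ (16 * r ^ 2) := by
    calc ((Fintype.card E + 1 : ℕ) : ℝ) ^ (4 * r ^ 2) ≤ (Y ^ 4) ^ (4 * r ^ 2) :=
          pow_le_pow_left₀ (by positivity) hE _
      _ = Y ^ (16 * r ^ 2) := by rw [← pow_mul]; congr 1; ring
  have e2 : ((l ^ D)⁻¹) ^ (4 * r ^ 2) = Y ^ (8 * D * r ^ 2) := by
    have h3 : ((Y ^ 2)⁻¹ ^ D)⁻¹ = Y ^ (2 * D) := by
      rw [inv_pow, inv_inv, ← pow_mul]
    rw [hl, h3, ← pow_mul]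
    congr 1
    ring
  have e3 : (1 / (N : ℝ)) ^ (r + 1) = (Y ^ (a * (r + 1)))⁻¹ := by
    rw [hN, one_div, inv_pow, ← pow_mul]
  rw [e2, e3]
  set Z : ℝ := (Y ^ (a * (r + 1)))⁻¹ with hZ
  have hZ0 : 0 ≤ Z := by positivity
  have e4 : ((2 : ℝ) ^ dd) ^ (4 * r ^ 2) * Z + err ≤ Y ^ 2 * Z := by
    have h3 : ((2 : ℝ) ^ dd) ^ (4 * r ^ 2) * Z ≤ Y * Z := mul_le_mul_of_nonneg_right h2 hZ0
    have h4 : 2 * Y * Z ≤ Y * Y * Z := by
      apply mul_le_mul_of_nonneg_right _ hZ0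
      exact mul_le_mul_of_nonneg_right hY hY0.le
    nlinarith
  have e5 : 0 ≤ ((2 : ℝ) ^ dd) ^ (4 * r ^ 2) * Z + err := by positivity
  calc ((Fintype.card E + 1 : ℕ) : ℝ) ^ (4 * r ^ 2) *
        (Y ^ (8 * D * r ^ 2) * (((2 : ℝ) ^ dd) ^ (4 * r ^ 2) * Z + err))
      ≤ Y ^ (16 * r ^ 2) * (Y ^ (8 * D * r ^ 2) * (Y ^ 2 * Z)) := by
        apply mul_le_mul e1 _ (by positivity) (by positivity)
        exact mul_le_mul_of_nonneg_left e4 (by positivity)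
    _ = Y ^ ((16 + 8 * D) * r ^ 2 + 2) * Z := by
        rw [← mul_assoc, ← mul_assoc, ← pow_add, ← pow_add]
        congr 2
        ring

theorem half_pow {L : ℕ} (hL : 2 ≤ L) : (1 - (1 : ℝ) / L) ^ L ≤ 1 / 2 := by
  have hL0 : (0 : ℝ) < L := by
    have : 0 < L := by omega
    exact_mod_cast this
  have hL2 : (2 : ℝ) ≤ L := by exact_mod_cast hL
  have h1 : (1 - (1 : ℝ) / L) = (1 + 1 / ((L : ℝ) - 1))⁻¹ := by
    have : (L : ℝ) - 1 ≠ 0 := by linarith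
    field_simp
    ring_nf
    field_simp
  have h2 : (2 : ℝ) ≤ (1 + 1 / ((L : ℝ) - 1)) ^ L := by
    have h3 := one_add_mul_le_pow (a := 1 / ((L : ℝ) - 1)) (by
      have : 0 ≤ 1 / ((L : ℝ) - 1) := by
        apply div_nonneg (by norm_num)
        linarith
      linarith) L
    have h4 : (1 : ℝ) ≤ L * (1 / ((L : ℝ) - 1)) := by
      rw [mul_one_div, le_div_iff₀ (by linarith)]
      linarith
    linarith
  rw [h1, inv_pow]
  have h3 := inv_anti₀ (by norm_num) h2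
  linarith

theorem four_mul_le {L : ℕ} (hL : 4 ≤ L) : 4 * L ≤ 2 ^ L := by
  induction L, hL using Nat.le_induction with
  | base => norm_num
  | succ L hL ih =>
    rw [pow_succ]
    omega

theorem ACFun.monoS {V : Type} {S S' : ℕ} (hS : S ≤ S') : ∀ {D : ℕ} {f : (V → Bool) → Bool},
    ACFun S D f → ACFun S' D f := by
  intro D
  induction D with
  | zero => intro f h; exact h
  | succ D ih =>
    rintro f ⟨n, hn, g, hg, hf⟩
    exact ⟨n, hn.trans hS, g, fun i => ih (hg i), hf⟩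

theorem Red.All.mono {V : Type} {F : Red V} {P Q : ((V → Bool) → Bool) → Prop} (hF : F.All P)
    (h : ∀ f, P f → Q f) : F.All Q := Red.comp_all (τ := fun x => x) h hF

end Pool.Agent.WSatAC0
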