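import Pool.Agent.WSatAC0.Medium

/-! The planted positions: bad events. -/

namespace Pool.Agent.WSatAC0

open Finset Pool.Agent.ParityAC

section plant

variable {k N : ℕ} {G : Type}

/-- the slots: rows and columns -/
abbrev Os (k : ℕ) (G : Type) : Type := Fin k ⊕ G

/-- the pairs of a row and a slot -/
abbrev Es (k : ℕ) (G : Type) : Type := Fin k × (Fin k ⊕ G)

/-- the two slots of a pair -/
def endsK (e : Es k G) : Os k G × Os k G := (Sum.inl e.1, e.2)

theorem endsK_inj : Function.Injective (endsK (k := k) (G := G)) := by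
  rintro ⟨i, o⟩ ⟨i', o'⟩ h
  simp only [endsK, Prod.mk.injEq, Sum.inl.injEq] at h
  rw [h.1, h.2]

/-- another tuple survives -/
def BadE (ω : Os k G → Fin N) (x : VB (Es k G) N → Bool) : Prop :=
  ∃ α : Fin k → Fin N, α ≠ (fun i => ω (Sum.inl i)) ∧
    ∀ i j, α i ≠ ω (Sum.inl i) → x ((i, Sum.inl j), α i, α j) = true

/-- a column position is entirely bad -/
def BadC (ω : Os k G → Fin N) (x : VB (Es k G) N → Bool) : Prop :=
  ∃ (g : G) (u : Fin N), ∀ i, x ((i, Sum.inr g), ω (Sum.inl i), u) = true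

variable [Fintype G] [DecidableEq G]

theorem PP_true (p : ℝ) (T : Finset (VB (Es k G) N)) :
    PP (lw p) (fun x : VB (Es k G) N → Bool => ∀ v ∈ T, x v = true) = p ^ T.card := by
  rw [PP_forall (lw_sum p) T (fun _ c => c = true)]
  simp [lw]

theorem badC_le {p : ℝ} (h0 : 0 ≤ p) (h1 : p ≤ 1) (ω : Os k G → Fin N) :
    PP (lw p) (BadC ω) ≤ Fintype.card G * N * p ^ k := by
  classical
  have hl := fun a => lw_nonneg h0 h1 a
  have h2 : PP (lw p) (BadC ω) ≤ PP (lw p) (fun x : VB (Es k G) N → Bool =>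
      ∃ c ∈ (univ : Finset (G × Fin N)), ∀ v ∈ (univ : Finset (Fin k)).image
        (fun i => (((i, Sum.inr c.1), ω (Sum.inl i), c.2) : VB (Es k G) N)), x v = true) := by
    apply PP_mono hl
    rintro x ⟨g, u, h⟩
    refine ⟨(g, u), Finset.mem_univ _, ?_⟩
    intro v hv
    obtain ⟨i, _, rfl⟩ := Finset.mem_image.1 hv
    exact h i
  refine h2.trans ((PP_exists hl _ _).trans ?_)
  have h3 : ∀ c : G × Fin N, PP (lw p) (fun x : VB (Es k G) N → Bool =>
      ∀ v ∈ (univ : Finset (Fin k)).image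
        (fun i => (((i, Sum.inr c.1), ω (Sum.inl i), c.2) : VB (Es k G) N)), x v = true) = p ^ k := by
    intro c
    rw [PP_true, Finset.card_image_of_injective, Finset.card_univ, Fintype.card_fin]
    intro i j hij
    simp only [Prod.mk.injEq] at hij
    exact hij.1.1
  rw [Finset.sum_congr rfl fun c _ => h3 c, Finset.sum_const, Finset.card_univ, Fintype.card_prod,
    Fintype.card_fin, nsmul_eq_mul]
  push_cast
  exact le_refl _

theorem badE_le {p : ℝ} (h0 : 0 ≤ p) (h1 : p ≤ 1) (ω : Os k G → Fin N) :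
    PP (lw p) (BadE ω) ≤ (1 + N * p ^ k) ^ k - 1 := by
  classical
  have hl := fun a => lw_nonneg h0 h1 a
  let ω' : Fin k → Fin N := fun i => ω (Sum.inl i)
  let T : (Fin k → Fin N) → Finset (VB (Es k G) N) := fun α =>
    ((univ.filter fun i => α i ≠ ω' i) ×ˢ (univ : Finset (Fin k))).image
      fun c => ((c.1, Sum.inl c.2), α c.1, α c.2)
  have h2 : PP (lw p) (BadE ω) ≤ PP (lw p) (fun x : VB (Es k G) N → Bool =>
      ∃ α ∈ (univ : Finset (Fin k → Fin N)).erase ω', ∀ v ∈ T α, x v = true) := by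
    apply PP_mono hl
    rintro x ⟨α, h3, h4⟩
    refine ⟨α, Finset.mem_erase.2 ⟨h3, Finset.mem_univ _⟩, ?_⟩
    intro v hv
    obtain ⟨c, hc, rfl⟩ := Finset.mem_image.1 hv
    exact h4 _ _ (Finset.mem_filter.1 (Finset.mem_product.1 hc).1).2
  refine h2.trans ((PP_exists hl _ _).trans ?_)
  have h3 : ∀ α : Fin k → Fin N, PP (lw p) (fun x : VB (Es k G) N → Bool =>
      ∀ v ∈ T α, x v = true) = ∏ i, (if α i = ω' i then 1 else p ^ k) := by
    intro α
    rw [PP_true, Finset.card_image_of_injective, Finset.card_product, Finset.card_univ,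
      Fintype.card_fin, Finset.prod_ite, Finset.prod_const_one, one_mul, Finset.prod_const,
      ← pow_mul, mul_comm]
    intro c c' hcc
    simp only [Prod.mk.injEq, Sum.inl.injEq] at hcc
    exact Prod.ext hcc.1.1 hcc.1.2
  rw [Finset.sum_congr rfl fun α _ => h3 α]
  have h4 := Finset.sum_erase_add (univ : Finset (Fin k → Fin N))
    (fun α => ∏ i, (if α i = ω' i then (1 : ℝ) else p ^ k)) (Finset.mem_univ ω')
  have h5 : ∏ i, (if ω' i = ω' i then (1 : ℝ) else p ^ k) = 1 := by simp
  rw [h5] at h4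
  have h6 := EE_prodform (V := Fin k) (fun _ : Fin N => (1 : ℝ))
    (fun i a => if a = ω' i then 1 else p ^ k)
  unfold EE at h6
  simp only [Finset.prod_const_one, one_mul] at h6
  rw [h6] at h4
  have h7 : ∀ i : Fin k, ∑ a : Fin N, (if a = ω' i then (1 : ℝ) else p ^ k) ≤ 1 + N * p ^ k := by
    intro i
    have h8 : ∀ a : Fin N, (if a = ω' i then (1 : ℝ) else p ^ k) ≤
        (if a = ω' i then (1 : ℝ) else 0) + p ^ k := by
      intro a
      have : 0 ≤ p ^ k := pow_nonneg h0 _
      split <;> linarith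
    refine (Finset.sum_le_sum fun a _ => h8 a).trans ?_
    rw [Finset.sum_add_distrib, Finset.sum_ite_eq' univ (ω' i), Finset.sum_const, Finset.card_univ,
      Fintype.card_fin, nsmul_eq_mul]
    simp
  have h9 : ∏ i : Fin k, ∑ a : Fin N, (if a = ω' i then (1 : ℝ) else p ^ k) ≤
      (1 + N * p ^ k) ^ k := by
    have h10 := Finset.prod_le_prod (s := (univ : Finset (Fin k)))
      (f := fun i => ∑ a : Fin N, (if a = ω' i then (1 : ℝ) else p ^ k))
      (g := fun _ => 1 + N * p ^ k) (fun i _ => Finset.sum_nonneg fun a _ => by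
        split
        · norm_num
        · exact pow_nonneg h0 _) (fun i _ => h7 i)
    rw [Finset.prod_const, Finset.card_univ, Fintype.card_fin] at h10
    exact h10
  linarith

/-- the bad events are unlikely -/
theorem plant_bad (hN : 1 ≤ N) {p : ℝ} (h0 : 0 ≤ p) (h1 : p ≤ 1) :
    P2 (un N) (lw p) (fun (ω : Os k G → Fin N) (x : VB (Es k G) N → Bool) =>
      BadE ω x ∨ BadC ω x) ≤ ((1 + N * p ^ k) ^ k - 1) + Fintype.card G * N * p ^ k := by
  have hl := fun a => lw_nonneg h0 h1 a
  unfold P2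
  rw [← EE_const (V := Os k G) (un_sum hN)
    (((1 + N * p ^ k) ^ k - 1) + Fintype.card G * N * p ^ k)]
  apply EE_mono (un_nonneg N)
  intro ω
  exact (PP_or hl _ _).trans (add_le_add (badE_le h0 h1 ω) (badC_le h0 h1 ω))

/-! ### consequences -/

/-- the values at the planted positions -/
def yv (v : Fin k × G → Bool) : Es k G → Bool := fun e =>
  match e.2 with
  | Sum.inl _ => true
  | Sum.inr g => v (e.1, g)

variable {ω : Os k G → Fin N} {x : VB (Es k G) N → Bool}

omit [Fintype G] in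
theorem inst_edge (v : Fin k × G → Bool) (i j : Fin k) (a a' : Fin N) :
    inst endsK x ω (yv v) ((i, Sum.inl j), a, a') =
      if a = ω (Sum.inl i) ∧ a' = ω (Sum.inl j) then true else x ((i, Sum.inl j), a, a') := by
  unfold inst
  simp only [st, endsK, Prod.mk.injEq, true_and, yv]

omit [Fintype G] in
theorem inst_col (v : Fin k × G → Bool) (i : Fin k) (g : G) (a u : Fin N) :
    inst endsK x ω (yv v) ((i, Sum.inr g), a, u) =
      if a = ω (Sum.inl i) ∧ u = ω (Sum.inr g) then v (i, g) else x ((i, Sum.inr g), a, u) := by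
  unfold inst
  simp only [st, endsK, Prod.mk.injEq, true_and, yv]

omit [Fintype G] in
theorem uniq_tuple (h : ¬ BadE ω x) (v : Fin k × G → Bool) (α : Fin k → Fin N) :
    (∀ i j, inst endsK x ω (yv v) ((i, Sum.inl j), α i, α j) = true) ↔
      α = fun i => ω (Sum.inl i) := by
  constructor
  · intro h1
    by_contra hne
    apply h
    refine ⟨α, hne, ?_⟩
    intro i j hij
    have h2 := h1 i j
    rw [inst_edge, if_neg (fun hc => hij hc.1)] at h2
    exact h2
  · rintro rfl i j
    rw [inst_edge, if_pos ⟨rfl, rfl⟩]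

omit [Fintype G] in
theorem col_good (h : ¬ BadC ω x) (v : Fin k × G → Bool) (g : G) :
    (∀ u, ∃ i, inst endsK x ω (yv v) ((i, Sum.inr g), ω (Sum.inl i), u) = false) ↔
      ∃ i, v (i, g) = false := by
  constructor
  · intro h1
    obtain ⟨i, hi⟩ := h1 (ω (Sum.inr g))
    rw [inst_col, if_pos ⟨rfl, rfl⟩] at hi
    exact ⟨i, hi⟩
  · rintro ⟨i, hi⟩ u
    by_cases hu : u = ω (Sum.inr g)
    · refine ⟨i, ?_⟩
      rw [inst_col, if_pos ⟨rfl, hu⟩]
      exact hi
    · by_contra hcon
      push Not at hcon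
      apply h
      refine ⟨g, u, ?_⟩
      intro i
      have h2 := hcon i
      rw [inst_col, if_neg (fun hc => hu hc.2)] at h2
      simpa using h2

end plant

end Pool.Agent.WSatAC0
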