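import Pool.Agent.WSatAC0.Rounds

/-! Relevant variables. -/

namespace Pool.Agent.WSatAC0

open Finset Pool.Agent.ParityAC

variable {V : Type} [DecidableEq V]

/-- flip one bit -/
def flp (x : V → Bool) (v : V) : V → Bool := Function.update x v (!x v)

theorem flp_self (x : V → Bool) (v : V) : flp x v v = !x v := by simp [flp]

theorem flp_ne (x : V → Bool) {v w : V} (h : w ≠ v) : flp x v w = x w := by simp [flp, h]

/-- `v` is relevant for `g` -/
def Relv (g : (V → Bool) → Bool) (v : V) : Prop := ∃ y, g (flp y v) ≠ g y

/-- the variables of a decision tree -/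
def dtVars : DT V → Finset V
  | .leaf _ => ∅
  | .node v t0 t1 => insert v (dtVars t0 ∪ dtVars t1)

theorem dtVars_card : ∀ (t : DT V) (d : ℕ), t.depth ≤ d → (dtVars t).card + 1 ≤ 2 ^ d := by
  intro t
  induction t with
  | leaf b =>
    intro d _
    simp only [dtVars, Finset.card_empty, Nat.zero_add]
    exact Nat.one_le_two_pow
  | node v t0 t1 h0 h1 =>
    intro d h
    simp only [DT.depth] at h
    obtain ⟨e, rfl⟩ : ∃ e, d = e + 1 := ⟨d - 1, by omega⟩
    have a0 := h0 e (by omega)
    have a1 := h1 e (by omega)
    have a2 := Finset.card_insert_le v (dtVars t0 ∪ dtVars t1)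
    have a3 := Finset.card_union_le (dtVars t0) (dtVars t1)
    simp only [dtVars]
    rw [pow_succ]
    omega

theorem dt_eval_congr {x y : V → Bool} : ∀ (t : DT V), (∀ v ∈ dtVars t, x v = y v) →
    t.eval x = t.eval y := by
  intro t
  induction t with
  | leaf b => intro _; rfl
  | node v t0 t1 h0 h1 =>
    intro h
    simp only [dtVars, Finset.mem_insert, Finset.mem_union] at h
    simp only [DT.eval, h v (Or.inl rfl)]
    split
    · exact h1 fun w hw => h w (Or.inr (Or.inr hw))
    · exact h0 fun w hw => h w (Or.inr (Or.inl hw))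

theorem relv_mem {g : (V → Bool) → Bool} {t : DT V} (ht : ∀ x, t.eval x = g x) {v : V}
    (h : Relv g v) : v ∈ dtVars t := by
  by_contra hv
  obtain ⟨y, hy⟩ := h
  apply hy
  rw [← ht, ← ht]
  apply dt_eval_congr
  intro w hw
  exact flp_ne _ (fun h => hv (h ▸ hw))

/-- few relevant variables -/
theorem relv_finset [Fintype V] {g : (V → Bool) → Bool} {d : ℕ} (h : Sm d g) :
    ∃ R : Finset V, R.card ≤ 2 ^ d ∧ ∀ v, Relv g v → v ∈ R := by
  obtain ⟨t, h1, h2⟩ := h
  exact ⟨dtVars t, by have := dtVars_card t d h1; omega, fun v hv => relv_mem h2 hv⟩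

/-- a function depends only on its relevant variables -/
theorem eq_of_agree [Fintype V] {g : (V → Bool) → Bool} {x y : V → Bool}
    (h : ∀ v, Relv g v → x v = y v) : g x = g y := by
  classical
  have key : ∀ S : Finset V, (∀ v ∈ S, ¬ Relv g v) →
      g (fun v => if v ∈ S then y v else x v) = g x := by
    intro S
    induction S using Finset.induction_on with
    | empty => intro _; simp
    | insert a S ha ih =>
      intro hS
      have h1 := ih fun v hv => hS v (Finset.mem_insert_of_mem hv)
      rw [← h1]
      have h2 : ¬ Relv g a := hS a (Finset.mem_insert_self _ _)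
      by_cases hxa : y a = x a
      · congr 1
        funext v
        by_cases hv : v = a
        · subst hv
          simp [ha, hxa]
        · simp [hv]
      · by_contra hcon
        apply h2
        refine ⟨fun v => if v ∈ S then y v else x v, ?_⟩
        have h3 : flp (fun v => if v ∈ S then y v else x v) a =
            fun v => if v ∈ insert a S then y v else x v := by
          funext v
          by_cases hv : v = a
          · subst hv
            rw [flp_self]
            simp only [ha, if_false, Finset.mem_insert_self, if_true]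
            cases hx : x v <;> cases hy : y v <;> simp [hx, hy] at hxa ⊢
          · rw [flp_ne _ hv]
            simp [hv]
        rw [h3]
        exact hcon
  have h1 := key (univ.filter fun v => ¬ Relv g v) (fun v hv => (Finset.mem_filter.1 hv).2)
  rw [← h1]
  congr 1
  funext v
  by_cases hv : Relv g v
  · simp [hv, h v hv]
  · simp [hv]

theorem relv_and {g h f : (V → Bool) → Bool} (hf : ∀ x, f x = (g x && h x)) {v : V}
    (hv : Relv f v) : Relv g v ∨ Relv h v := by
  obtain ⟨y, hy⟩ := hv
  by_contra hcon
  push Not at hcon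
  obtain ⟨h1, h2⟩ := hcon
  have a1 : g (flp y v) = g y := by
    by_contra h3
    exact h1 ⟨y, h3⟩
  have a2 : h (flp y v) = h y := by
    by_contra h3
    exact h2 ⟨y, h3⟩
  apply hy
  rw [hf, hf, a1, a2]

theorem relv_or {g h f : (V → Bool) → Bool} (hf : ∀ x, f x = (g x || h x)) {v : V}
    (hv : Relv f v) : Relv g v ∨ Relv h v := by
  obtain ⟨y, hy⟩ := hv
  by_contra hcon
  push Not at hcon
  obtain ⟨h1, h2⟩ := hcon
  have a1 : g (flp y v) = g y := by
    by_contra h3
    exact h1 ⟨y, h3⟩
  have a2 : h (flp y v) = h y := by
    by_contra h3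
    exact h2 ⟨y, h3⟩
  apply hy
  rw [hf, hf, a1, a2]

end Pool.Agent.WSatAC0
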