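import Pool.Agent.WSatAC0.SwitchW
import Pool.Agent.ParityAC.Switch

/-! Several rounds of random restrictions. -/

namespace Pool.Agent.WSatAC0

open Finset Pool.Agent.ParityAC

/-- `f` has a decision tree of depth at most `d` -/
def Sm {V : Type} (d : ℕ) (f : (V → Bool) → Bool) : Prop :=
  ∃ t : DT V, t.depth ≤ d ∧ ∀ x, t.eval x = f x

theorem Sm.mono {V : Type} {d d' : ℕ} {f : (V → Bool) → Bool} (h : Sm d f) (hd : d ≤ d') :
    Sm d' f := by
  obtain ⟨t, h1, h2⟩ := h
  exact ⟨t, h1.trans hd, h2⟩

/-- `D` levels of AND and OR gates of fan-in at most `S` over functions with property `P` -/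
def ACG {X : Type} (P : (X → Bool) → Prop) (S : ℕ) : ℕ → (X → Bool) → Prop
  | 0, f => P f
  | D + 1, f => ∃ n ≤ S, ∃ g : Fin n → (X → Bool), (∀ i, ACG P S D (g i)) ∧
      ((∀ x, f x = true ↔ ∀ i, g i x = true) ∨ (∀ x, f x = true ↔ ∃ i, g i x = true))

theorem ACG.mapX {X Y : Type} {P : (X → Bool) → Prop} {Q : (Y → Bool) → Prop} {S : ℕ}
    (τ : Y → X) (h : ∀ f, P f → Q (fun y => f (τ y))) : ∀ {D : ℕ} {f : X → Bool}, ACG P S D f →
    ACG Q S D (fun y => f (τ y)) := by
  intro D
  induction D with
  | zero => intro f hf; exact h f hf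
  | succ D ih =>
    rintro f ⟨n, hn, g, hg, hf⟩
    refine ⟨n, hn, fun i y => g i (τ y), fun i => ih (hg i), ?_⟩
    rcases hf with hf | hf
    · exact Or.inl fun y => hf (τ y)
    · exact Or.inr fun y => hf (τ y)

section rounds

variable {V : Type}

/-- override by a restriction -/
def ov {A : Type} (ρ : V → Option A) (x : V → A) : V → A := fun v => (ρ v).getD (x v)

/-- composition of restrictions -/
def cmpO {A : Type} : Option A × Option A → Option A
  | (none, o) => o
  | (some a, _) => some a

theorem ov_cmp {A : Type} (ρ ρ' : V → Option A) (x : V → A) :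
    ov (fun v => cmpO (ρ v, ρ' v)) x = ov ρ (ov ρ' x) := by
  funext v
  simp only [ov]
  cases ρ v <;> simp [cmpO]

theorem extA_ov {A : Type} (ρ : V → Option A) (x : V → A) : ExtA ρ (ov ρ x) := by
  intro v b hv
  simp [ov, hv]

/-- from trees over the alphabet `Bool` to decision trees -/
def toDT (ρ : V → Option Bool) : DTA V Bool → DT V
  | .leaf b => .leaf b
  | .node v t =>
    match ρ v with
    | some a => toDT ρ (t a)
    | none => .node v (toDT ρ (t false)) (toDT ρ (t true))

theorem toDT_depth (ρ : V → Option Bool) : ∀ (t : DTA V Bool) (d : ℕ), t.DepthLe d →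
    (toDT ρ t).depth ≤ d := by
  intro t
  induction t with
  | leaf b => intro d _; exact Nat.zero_le _
  | node v t ih =>
    intro d h
    cases d with
    | zero => exact h.elim
    | succ d =>
      simp only [toDT]
      split
      · exact (ih _ d (h _)).trans (Nat.le_succ _)
      · simp only [DT.depth]
        have h1 := ih false d (h false)
        have h2 := ih true d (h true)
        omega

theorem toDT_eval (ρ : V → Option Bool) (x : V → Bool) : ∀ t : DTA V Bool,
    (toDT ρ t).eval x = t.eval (ov ρ x) := by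
  intro t
  induction t with
  | leaf b => rfl
  | node v t ih =>
    simp only [toDT, DTA.eval]
    have hv : ov ρ x v = (ρ v).getD (x v) := rfl
    rw [hv]
    cases hρ : ρ v with
    | some a => simp only [Option.getD_some, ih]
    | none =>
      simp only [DT.eval, Option.getD_none, ih]
      cases x v <;> simp

theorem sm_of_small {f : (V → Bool) → Bool} {ρ : V → Option Bool} {d : ℕ} (h : SmallA f ρ d) :
    Sm d (fun x => f (ov ρ x)) := by
  obtain ⟨t, h1, h2⟩ := h
  refine ⟨toDT ρ t, toDT_depth ρ t d h1, ?_⟩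
  intro x
  rw [toDT_eval]
  exact h2 _ (extA_ov ρ x)

theorem small_of_neg {f : (V → Bool) → Bool} {d : ℕ} (h : Sm d (fun x => !(f x))) : Sm d f := by
  obtain ⟨t, h1, h2⟩ := h
  refine ⟨t.neg, by rw [DT.depth_neg]; exact h1, ?_⟩
  intro x
  rw [DT.eval_neg, h2]
  simp

variable [Fintype V] [DecidableEq V]

/-- the terms of an OR of decision trees -/
noncomputable def dnfA {n : ℕ} (t : Fin n → DT V) : List (TermA V Bool) := by
  classical
  exact ((univ : Finset (Fin n × (V → Bool))).filter
    (fun p => (t p.1).eval p.2 = true)).toList.map fun p =>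
      { vars := (t p.1).path p.2
        ok := fun v a => a == p.2 v
        sat := p.2
        hsat := fun v _ => by simp }

theorem dnfA_width {n q : ℕ} (t : Fin n → DT V) (h : ∀ i, (t i).depth ≤ q) :
    ∀ C ∈ dnfA t, C.vars.length ≤ q := by
  classical
  intro C hC
  rw [dnfA] at hC
  obtain ⟨p, hp, rfl⟩ := List.mem_map.1 hC
  exact (DT.path_length _ _).trans (h p.1)

theorem dnfA_eval {n : ℕ} (t : Fin n → DT V) (x : V → Bool) :
    evalF (dnfA t) x = true ↔ ∃ i, (t i).eval x = true := by
  classical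
  rw [evalF_iff]
  constructor
  · rintro ⟨C, hC, hx⟩
    rw [dnfA] at hC
    obtain ⟨p, hp, rfl⟩ := List.mem_map.1 hC
    rw [Finset.mem_toList, Finset.mem_filter] at hp
    refine ⟨p.1, ?_⟩
    rw [DT.eval_of_path p.2 x (t p.1)]
    · exact hp.2
    · intro v hv
      simpa using hx v hv
  · rintro ⟨i, hi⟩
    refine ⟨{ vars := (t i).path x, ok := fun v a => a == x v, sat := x,
              hsat := fun v _ => by simp }, ?_, ?_⟩
    · rw [dnfA]
      refine List.mem_map.2 ⟨(i, x), ?_, rfl⟩
      rw [Finset.mem_toList, Finset.mem_filter]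
      exact ⟨Finset.mem_univ _, hi⟩
    · intro v _
      simp

/-- weights for the rounds -/
structure RW (w : Bool → ℝ) (l κ : ℝ) : Prop where
  nonneg : ∀ a, 0 ≤ w a
  sum : ∑ a, w a = 1
  l0 : 0 ≤ l
  l1 : l ≤ 1
  κ0 : 0 ≤ κ
  ineq : ∀ a, l ≤ κ * ((1 - l) * w a)

variable {w : Bool → ℝ} {l κ : ℝ}

theorem gate_round (H : RW w l κ) {n q s : ℕ} (hs : 1 ≤ s) (g : Fin n → (V → Bool) → Bool)
    (hg : ∀ i, Sm q (g i)) (f : (V → Bool) → Bool)
    (hf : (∀ x, f x = true ↔ ∀ i, g i x = true) ∨ (∀ x, f x = true ↔ ∃ i, g i x = true)) :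
    PP (wo w l) (fun ρ : V → Option Bool => ¬ Sm (s - 1) (fun x => f (ov ρ x))) ≤
      (4 * q * κ) ^ s := by
  have hw : (2 * (q : ℝ) * (Fintype.card Bool : ℝ) * κ) ^ s = (4 * q * κ) ^ s := by
    congr 1
    rw [Fintype.card_bool]
    push_cast
    ring
  rw [← hw]
  choose t ht1 ht2 using hg
  rcases hf with hf | hf
  · let t' : Fin n → DT V := fun i => (t i).neg
    have h1 : ∀ i, (t' i).depth ≤ q := fun i => by rw [DT.depth_neg]; exact ht1 i
    refine le_trans (PP_mono (fun a => wo_nonneg H.nonneg H.l0 H.l1 a) ?_)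
      (switchW H.nonneg H.sum H.l0 H.l1 (good := fun _ => True) H.κ0 (fun a _ => H.ineq a)
        (dnfA t') (dnfA_width t' h1) (fun _ _ _ => trivial) hs)
    intro ρ hρ hsm
    apply hρ
    have h2 := sm_of_small hsm
    apply small_of_neg
    convert h2 using 1
    funext x
    rw [Bool.eq_iff_iff, dnfA_eval, Bool.not_eq_true', Bool.eq_false_iff, ne_eq, hf]
    push Not
    constructor
    · rintro ⟨i, hi⟩
      refine ⟨i, ?_⟩
      simp only [t', DT.eval_neg, ht2]
      simpa using hi
    · rintro ⟨i, hi⟩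
      refine ⟨i, ?_⟩
      simp only [t', DT.eval_neg, ht2] at hi
      simpa using hi
  · refine le_trans (PP_mono (fun a => wo_nonneg H.nonneg H.l0 H.l1 a) ?_)
      (switchW H.nonneg H.sum H.l0 H.l1 (good := fun _ => True) H.κ0 (fun a _ => H.ineq a)
        (dnfA t) (dnfA_width t ht1) (fun _ _ _ => trivial) hs)
    intro ρ hρ hsm
    apply hρ
    have h2 := sm_of_small hsm
    convert h2 using 1
    funext x
    rw [Bool.eq_iff_iff, dnfA_eval, hf]
    simp only [ht2]

/-- one round for a circuit -/
theorem one_round (H : RW w l κ) {S q s : ℕ} (hs : 1 ≤ s) :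
    ∀ (D : ℕ) (f : (V → Bool) → Bool), ACG (Sm q) S (D + 1) f →
    PP (wo w l) (fun ρ : V → Option Bool => ¬ ACG (Sm (s - 1)) S D (fun x => f (ov ρ x))) ≤
      S ^ D * (4 * q * κ) ^ s := by
  have hwo := fun a => wo_nonneg H.nonneg H.l0 H.l1 a
  intro D
  induction D with
  | zero =>
    rintro f ⟨n, hn, g, hg, hf⟩
    rw [pow_zero, one_mul]
    exact gate_round H hs g hg f hf
  | succ D ih =>
    rintro f ⟨n, hn, g, hg, hf⟩
    have h1 : PP (wo w l) (fun ρ : V → Option Bool =>
        ¬ ACG (Sm (s - 1)) S (D + 1) (fun x => f (ov ρ x))) ≤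
        ∑ i : Fin n, PP (wo w l) (fun ρ : V → Option Bool =>
          ¬ ACG (Sm (s - 1)) S D (fun x => g i (ov ρ x))) := by
      refine le_trans (PP_mono hwo ?_) (PP_exists hwo Finset.univ _)
      intro ρ hρ
      by_contra hcon
      push Not at hcon
      apply hρ
      refine ⟨n, hn, fun i x => g i (ov ρ x), fun i => hcon i (Finset.mem_univ _), ?_⟩
      rcases hf with hf | hf
      · exact Or.inl fun x => hf _
      · exact Or.inr fun x => hf _
    refine h1.trans ?_
    refine (Finset.sum_le_sum fun i _ => ih (g i) (hg i)).trans ?_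
    rw [Finset.sum_const, Finset.card_univ, Fintype.card_fin, nsmul_eq_mul, pow_succ]
    have hnS : (n : ℝ) ≤ S := by exact_mod_cast hn
    have hnn : 0 ≤ (S : ℝ) ^ D * (4 * q * κ) ^ s := by
      have := H.κ0
      positivity
    calc (n : ℝ) * ((S : ℝ) ^ D * (4 * q * κ) ^ s) ≤ S * ((S : ℝ) ^ D * (4 * q * κ) ^ s) :=
          mul_le_mul_of_nonneg_right hnS hnn
      _ = _ := by ring

/-- composition of two independent restrictions -/
theorem PP_comp (hw1 : ∑ a, w a = 1) (l1 l2 : ℝ) (P : (V → Option Bool) → Prop) :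
    PP (wo w (l1 * l2)) P =
      EE (wo w l1) (fun ρ => PP (wo w l2) (fun ρ' => P (fun v => cmpO (ρ v, ρ' v)))) := by
  classical
  unfold PP
  rw [← EE_pair (wo w l1) (wo w l2)
    (fun g : V → Option Bool × Option Bool => if P (fun v => cmpO (g v)) then (1 : ℝ) else 0)]
  rw [EE_push (fun p : Option Bool × Option Bool => wo w l1 p.1 * wo w l2 p.2) cmpO
    (fun ρ => if P ρ then (1 : ℝ) else 0)]
  congr 1
  funext b
  rw [Finset.sum_filter, Fintype.sum_prod_type]
  have hs := wo_sum hw1 l2
  have hw2 : w true + w false = 1 := by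
    rw [Fintype.sum_bool] at hw1
    exact hw1
  simp only [Fintype.sum_option, Fintype.sum_bool, cmpO, wo]
  cases b with
  | none => simp
  | some b =>
    cases b
    · simp only [reduceCtorEq, if_false, Option.some.injEq, if_true, Bool.true_eq_false]
      have : w true = 1 - w false := by linarith
      rw [this]
      ring
    · simp only [reduceCtorEq, if_false, Option.some.injEq, if_true, Bool.false_eq_true]
      have : w false = 1 - w true := by linarith
      rw [this]
      ring

/-- all rounds -/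
theorem all_rounds (H : RW w l κ) {S s : ℕ} (hs : 1 ≤ s) (hS : 1 ≤ S) :
    ∀ (D q : ℕ) (f : (V → Bool) → Bool), q ≤ s - 1 → ACG (Sm q) S D f →
    PP (wo w (l ^ D)) (fun ρ : V → Option Bool => ¬ Sm (s - 1) (fun x => f (ov ρ x))) ≤
      D * S ^ D * (4 * s * κ) ^ s := by
  intro D
  have hκ := H.κ0
  have hS' : (1 : ℝ) ≤ S := by exact_mod_cast hS
  induction D with
  | zero =>
    intro q f hq hf
    have h1 : ∀ ρ : V → Option Bool, Sm (s - 1) (fun x => f (ov ρ x)) := by
      intro ρ
      obtain ⟨t, h1, h2⟩ := hf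
      apply sm_of_small
      have key : ∀ t : DT V, ∃ t' : DTA V Bool, t'.DepthLe t.depth ∧ ∀ x, t'.eval x = t.eval x := by
        intro t
        induction t with
        | leaf b => exact ⟨.leaf b, trivial, fun _ => rfl⟩
        | node v t0 t1 ih0 ih1 =>
          obtain ⟨t0', a0, b0⟩ := ih0
          obtain ⟨t1', a1, b1⟩ := ih1
          refine ⟨.node v (fun b => if b then t1' else t0'), ?_, ?_⟩
          · simp only [DT.depth]
            intro b
            cases b
            · exact a0.mono (le_max_left _ _)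
            · exact a1.mono (le_max_right _ _)
          · intro x
            simp only [DTA.eval, DT.eval]
            cases x v
            · simp [b0]
            · simp [b1]
      obtain ⟨t', a, b⟩ := key t
      exact ⟨t', a.mono (h1.trans hq), fun x _ => (b x).trans (h2 x)⟩
    simp only [h1, not_true_eq_false]
    unfold PP EE
    simp
  | succ D ih =>
    intro q f hq hf
    classical
    have hwo := fun a => wo_nonneg H.nonneg H.l0 H.l1 a
    have hlD1 : l ^ D ≤ 1 := pow_le_one₀ H.l0 H.l1
    have hlD0 : 0 ≤ l ^ D := pow_nonneg H.l0 _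
    have hwoD := fun a => wo_nonneg H.nonneg hlD0 hlD1 a
    rw [pow_succ', PP_comp H.sum l (l ^ D)]
    have hb : (0 : ℝ) ≤ D * S ^ D * (4 * s * κ) ^ s := by positivity
    have hstep : ∀ ρ : V → Option Bool, PP (wo w (l ^ D)) (fun ρ' : V → Option Bool =>
        ¬ Sm (s - 1) (fun x => f (ov (fun v => cmpO (ρ v, ρ' v)) x))) ≤
        (if ¬ ACG (Sm (s - 1)) S D (fun x => f (ov ρ x)) then 1 else 0) +
          D * S ^ D * (4 * s * κ) ^ s := by
      intro ρ
      by_cases h : ACG (Sm (s - 1)) S D (fun x => f (ov ρ x))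
      · simp only [h, not_true_eq_false, if_false, zero_add]
        have := ih (s - 1) _ (le_refl _) h
        refine le_trans (le_of_eq ?_) this
        congr 1
        funext ρ'
        congr 2
        funext x
        rw [ov_cmp]
      · simp only [h, not_false_eq_true, if_true]
        have := PP_le_one hwoD (wo_sum H.sum (l ^ D)) (fun ρ' : V → Option Bool =>
          ¬ Sm (s - 1) (fun x => f (ov (fun v => cmpO (ρ v, ρ' v)) x)))
        linarith
    refine (EE_mono hwo hstep).trans ?_
    rw [EE_add, EE_const (wo_sum H.sum l)]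
    have h1 := one_round H (S := S) (q := q) hs D f hf
    have h2 : EE (wo w l) (fun ρ : V → Option Bool =>
        if ¬ ACG (Sm (s - 1)) S D (fun x => f (ov ρ x)) then (1 : ℝ) else 0) =
        PP (wo w l) (fun ρ : V → Option Bool => ¬ ACG (Sm (s - 1)) S D (fun x => f (ov ρ x))) :=
      (PP_eq _ _).symm
    rw [h2]
    have h3 : (4 * (q : ℝ) * κ) ^ s ≤ (4 * s * κ) ^ s := by
      apply pow_le_pow_left₀ (by positivity)
      have : (q : ℝ) ≤ s := by
        have : q ≤ s := by omega
        exact_mod_cast this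
      gcongr
    calc _ ≤ (S : ℝ) ^ D * (4 * q * κ) ^ s + D * S ^ D * (4 * s * κ) ^ s := by linarith
      _ ≤ (S : ℝ) ^ D * (4 * s * κ) ^ s + D * S ^ D * (4 * s * κ) ^ s := by gcongr
      _ = (D + 1) * S ^ D * (4 * s * κ) ^ s := by ring
      _ ≤ (D + 1) * S ^ (D + 1) * (4 * s * κ) ^ s := by
          gcongr
          omega
      _ = _ := by push_cast; ring

end rounds

end Pool.Agent.WSatAC0
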