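import Pool.Agent.WSatAC0.Rel

/-! Dependence on the bits between the chosen positions of the slots. -/

namespace Pool.Agent.WSatAC0

open Finset Pool.Agent.ParityAC

section live

variable {V : Type} [Fintype V] [DecidableEq V]

/-- weights of the live set -/
def lw (l : ℝ) : Bool → ℝ := fun c => if c then l else 1 - l

theorem lw_nonneg {l : ℝ} (h0 : 0 ≤ l) (h1 : l ≤ 1) (c : Bool) : 0 ≤ lw l c := by
  unfold lw
  split
  · exact h0
  · linarith

theorem lw_sum (l : ℝ) : ∑ c, lw l c = 1 := by
  rw [Fintype.sum_bool]
  simp [lw]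

/-- the restriction of an assignment to the dead variables -/
def rst (x L : V → Bool) : V → Option Bool := fun v => if L v then none else some (x v)

/-- a random restriction as a random assignment and a random live set -/
theorem PP_live (w : Bool → ℝ) (hw : ∑ a, w a = 1) (l : ℝ) (P : (V → Option Bool) → Prop) :
    PP (wo w l) P = EE w (fun x => PP (lw l) (fun L => P (rst x L))) := by
  classical
  unfold PP
  let c : Bool × Bool → Option Bool := fun p => if p.2 then none else some p.1
  have h1 := EE_pair w (lw l) (fun g : V → Bool × Bool => if P (fun v => c (g v)) then (1 : ℝ) else 0)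
  have h2 := EE_push (fun p : Bool × Bool => w p.1 * lw l p.2) c
    (fun ρ : V → Option Bool => if P ρ then (1 : ℝ) else 0)
  have h3 : (fun b => ∑ a with c a = b, w a.1 * lw l a.2) = wo w l := by
    funext b
    have hw2 : w true + w false = 1 := by
      rw [Fintype.sum_bool] at hw
      exact hw
    rw [Finset.sum_filter, Fintype.sum_prod_type]
    simp only [Fintype.sum_bool, c, lw, wo]
    cases b with
    | none =>
      simp only [if_true, Bool.false_eq_true, if_false, reduceCtorEq]
      have : w true = 1 - w false := by linarith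
      rw [this]
      ring
    | some b =>
      cases b
      · simp
        ring
      · simp
        ring
  rw [h3] at h2
  rw [← h2, h1]
  rfl

end live

section slots

variable {O E : Type} [Fintype O] [DecidableEq O] [Fintype E] [DecidableEq E]
  (ends : E → O × O) {N : ℕ}

/-- the bits -/
abbrev VB (E : Type) (N : ℕ) : Type := E × Fin N × Fin N

/-- the bit of the pair `e` at the chosen positions -/
def st (ω : O → Fin N) (e : E) : VB E N := (e, ω (ends e).1, ω (ends e).2)

/-- the assignment `x` with the bits at the chosen positions replaced by `y` -/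
def inst (x : VB E N → Bool) (ω : O → Fin N) (y : E → Bool) : VB E N → Bool :=
  fun v => if v = st ends ω v.1 then y v.1 else x v

omit [Fintype O] [DecidableEq O] [Fintype E] in
theorem inst_st (x : VB E N → Bool) (ω : O → Fin N) (y : E → Bool) (e : E) :
    inst ends x ω y (st ends ω e) = y e := by
  simp [inst, st]

omit [Fintype O] [DecidableEq O] [Fintype E] in
theorem inst_flp (x : VB E N → Bool) (ω : O → Fin N) (y : E → Bool) (e : E) :
    inst ends x ω (flp y e) = flp (inst ends x ω y) (st ends ω e) := by
  funext v
  by_cases hv : v = st ends ω e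
  · subst hv
    rw [inst_st, flp_self, flp_self, inst_st]
  · rw [flp_ne _ hv]
    simp only [inst]
    by_cases h : v = st ends ω v.1
    · rw [if_pos h, if_pos h]
      apply flp_ne
      rintro rfl
      exact hv h
    · rw [if_neg h, if_neg h]

/-- the pairs on which `f` depends -/
noncomputable def Dp (f : (VB E N → Bool) → Bool) (x : VB E N → Bool) (ω : O → Fin N) :
    Finset E := by
  classical
  exact univ.filter fun e => Relv (fun y => f (inst ends x ω y)) e

omit [Fintype O] [DecidableEq O] in
theorem mem_Dp {f : (VB E N → Bool) → Bool} {x : VB E N → Bool} {ω : O → Fin N} {e : E} :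
    e ∈ Dp ends f x ω ↔ Relv (fun y => f (inst ends x ω y)) e := by
  simp [Dp]

/-- the touched slots -/
def tch (F : Finset E) : Finset O := F.image (fun e => (ends e).1) ∪ F.image (fun e => (ends e).2)

omit [Fintype O] [Fintype E] [DecidableEq E] in
theorem tch_fst {F : Finset E} {e : E} (h : e ∈ F) : (ends e).1 ∈ tch ends F :=
  Finset.mem_union_left _ (Finset.mem_image_of_mem _ h)

omit [Fintype O] [Fintype E] [DecidableEq E] in
theorem tch_snd {F : Finset E} {e : E} (h : e ∈ F) : (ends e).2 ∈ tch ends F :=
  Finset.mem_union_right _ (Finset.mem_image_of_mem _ h)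

omit [Fintype O] [DecidableEq O] [Fintype E] [DecidableEq E] in
theorem st_inj (ω : O → Fin N) : Function.Injective (st ends ω) := by
  intro e e' h
  exact congrArg Prod.fst h

/-- the bits of the dependence set are relevant for the restricted function -/
theorem dep_rel {f : (VB E N → Bool) → Bool} {x L : VB E N → Bool} {ω : O → Fin N} {F : Finset E}
    (hF : Dp ends f x ω = F) (hL : ∀ e ∈ F, L (st ends ω e) = true) :
    ∀ e ∈ F, Relv (fun z => f (ov (rst x L) z)) (st ends ω e) := by
  classical
  intro e he
  have he' : e ∈ Dp ends f x ω := by rw [hF]; exact he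
  obtain ⟨y, hy⟩ := (mem_Dp ends).1 he'
  let y' : E → Bool := fun e' => if e' ∈ F then y e' else x (st ends ω e')
  have h1 : f (inst ends x ω y') = f (inst ends x ω y) := by
    apply eq_of_agree (g := fun y => f (inst ends x ω y))
    intro e' he''
    have : e' ∈ F := by rw [← hF]; exact (mem_Dp ends).2 he''
    simp [y', this]
  have h2 : f (inst ends x ω (flp y' e)) = f (inst ends x ω (flp y e)) := by
    apply eq_of_agree (g := fun y => f (inst ends x ω y))
    intro e' he''
    have h3 : e' ∈ F := by rw [← hF]; exact (mem_Dp ends).2 he''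
    by_cases h4 : e' = e
    · subst h4
      rw [flp_self, flp_self]
      simp [y', h3]
    · rw [flp_ne _ h4, flp_ne _ h4]
      simp [y', h3]
  have h5 : ov (rst x L) (inst ends x ω y') = inst ends x ω y' := by
    funext v
    simp only [ov, rst]
    by_cases hv : L v = true
    · simp [hv]
    · simp only [hv, Bool.false_eq_true, if_false, Option.getD_some]
      simp only [inst]
      by_cases h6 : v = st ends ω v.1
      · rw [if_pos h6]
        by_cases h7 : v.1 ∈ F
        · exfalso
          apply hv
          rw [h6]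
          exact hL _ h7
        · simp only [y', h7, if_false]
          rw [← h6]
      · rw [if_neg h6]
  have h6 : ov (rst x L) (flp (inst ends x ω y') (st ends ω e)) =
      flp (inst ends x ω y') (st ends ω e) := by
    funext v
    by_cases hv : v = st ends ω e
    · subst hv
      simp only [ov, rst, hL e he, if_true, Option.getD_none]
    · have := congrFun h5 v
      simp only [ov] at this ⊢
      rw [flp_ne _ hv]
      exact this
  refine ⟨inst ends x ω y', ?_⟩
  show f (ov (rst x L) (flp (inst ends x ω y') (st ends ω e))) ≠ f (ov (rst x L) (inst ends x ω y'))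
  rw [h5, h6, ← inst_flp, h1, h2]
  exact hy

/-- uniform weights -/
noncomputable def un (N : ℕ) : Fin N → ℝ := fun _ => 1 / N

theorem un_nonneg (N : ℕ) (a : Fin N) : 0 ≤ un N a := by
  unfold un
  positivity

theorem un_sum {N : ℕ} (hN : 1 ≤ N) : ∑ a, un N a = 1 := by
  unfold un
  rw [Finset.sum_const, Finset.card_univ, Fintype.card_fin, nsmul_eq_mul]
  have : (N : ℝ) ≠ 0 := by
    have : 0 < N := hN
    positivity
  field_simp

theorem PP_un_agree (hN : 1 ≤ N) (T : Finset O) (ω0 : O → Fin N) :
    PP (un N) (fun ω : O → Fin N => ∀ o ∈ T, ω o = ω0 o) = (1 / N) ^ T.card := by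
  rw [PP_forall (un_sum hN) T (fun o a => a = ω0 o)]
  simp [un]

theorem omega_count (hN : 1 ≤ N) (R : Finset (VB E N)) (F : Finset E) :
    PP (un N) (fun ω : O → Fin N => ∀ e ∈ F, st ends ω e ∈ R) ≤
      (R.card : ℝ) ^ F.card * (1 / N) ^ (tch ends F).card := by
  classical
  have h1 : PP (un N) (fun ω : O → Fin N => ∀ e ∈ F, st ends ω e ∈ R) ≤
      ∑ c : F → R, PP (un N) (fun ω : O → Fin N => ∀ e : F, st ends ω e = c e) := by
    refine le_trans (PP_mono (un_nonneg N) ?_) (PP_exists (un_nonneg N) Finset.univ _)
    intro ω hω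
    exact ⟨fun e => ⟨st ends ω e, hω e e.2⟩, Finset.mem_univ _, fun e => rfl⟩
  refine h1.trans ?_
  have h2 : ∀ c : F → R, PP (un N) (fun ω : O → Fin N => ∀ e : F, st ends ω e = c e) ≤
      (1 / N) ^ (tch ends F).card := by
    intro c
    by_cases hex : ∃ ω0 : O → Fin N, ∀ e : F, st ends ω0 e = c e
    · obtain ⟨ω0, h0⟩ := hex
      rw [← PP_un_agree hN (tch ends F) ω0]
      apply PP_mono (un_nonneg N)
      intro ω hω o ho
      rcases Finset.mem_union.1 ho with ho | ho
      · obtain ⟨e, he, rfl⟩ := Finset.mem_image.1 ho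
        have h3 := (hω ⟨e, he⟩).trans (h0 ⟨e, he⟩).symm
        simp only [st, Prod.mk.injEq, true_and] at h3
        exact h3.1
      · obtain ⟨e, he, rfl⟩ := Finset.mem_image.1 ho
        have h3 := (hω ⟨e, he⟩).trans (h0 ⟨e, he⟩).symm
        simp only [st, Prod.mk.injEq, true_and] at h3
        exact h3.2
    · have h3 : PP (un N) (fun ω : O → Fin N => ∀ e : F, st ends ω e = c e) = 0 := by
        rw [PP_eq]
        have : ∀ ω : O → Fin N, ¬ ∀ e : F, st ends ω e = c e := fun ω h => hex ⟨ω, h⟩
        simp only [this, if_false]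
        unfold EE
        simp
      rw [h3]
      positivity
  refine (Finset.sum_le_sum fun c _ => h2 c).trans ?_
  rw [Finset.sum_const, Finset.card_univ, Fintype.card_fun, Fintype.card_coe, Fintype.card_coe,
    nsmul_eq_mul]
  push_cast
  exact le_refl _

/-- the probability of a given dependence set -/
theorem dep_prob (hN : 1 ≤ N) {w : Bool → ℝ} (hw : ∀ a, 0 ≤ w a) (hw1 : ∑ a, w a = 1) {l : ℝ}
    (h0 : 0 ≤ l) (h1 : l ≤ 1) {d : ℕ} {err : ℝ} (f : (VB E N → Bool) → Bool)
    (herr : PP (wo w l) (fun ρ : VB E N → Option Bool => ¬ Sm d (fun x => f (ov ρ x))) ≤ err)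
    (F : Finset E) :
    l ^ F.card * P2 (un N) w (fun ω x => Dp ends f x ω = F) ≤
      ((2 : ℝ) ^ d) ^ F.card * (1 / N) ^ (tch ends F).card + err := by
  classical
  have hl := fun a => lw_nonneg h0 h1 a
  have hu := un_nonneg N
  -- first step
  have s1 : l ^ F.card * P2 (un N) w (fun ω x => Dp ends f x ω = F) ≤
      EE (un N) (fun ω : O → Fin N => EE w (fun x => PP (lw l) (fun L =>
        ∀ e ∈ F, Relv (fun z => f (ov (rst x L) z)) (st ends ω e)))) := by
    unfold P2
    rw [← EE_mul]
    apply EE_mono hu
    intro ω
    rw [PP_eq, ← EE_mul]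
    apply EE_mono hw
    intro x
    by_cases hD : Dp ends f x ω = F
    · rw [if_pos hD, mul_one]
      have h2 : PP (lw l) (fun L : VB E N → Bool => ∀ v ∈ F.image (st ends ω), L v = true) =
          l ^ F.card := by
        rw [PP_forall (lw_sum l) (F.image (st ends ω)) (fun _ c => c = true)]
        simp only [Fintype.sum_bool, lw]
        simp [Finset.card_image_of_injective F (st_inj ends ω)]
      rw [← h2]
      apply PP_mono hl
      intro L hL
      exact dep_rel ends hD fun e he => hL _ (Finset.mem_image_of_mem _ he)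
    · rw [if_neg hD, mul_zero]
      exact PP_nonneg hl _
  refine s1.trans ?_
  -- exchange
  rw [EE_comm]
  have s2 : ∀ x : VB E N → Bool, EE (un N) (fun ω : O → Fin N => PP (lw l) (fun L =>
      ∀ e ∈ F, Relv (fun z => f (ov (rst x L) z)) (st ends ω e))) ≤
      ((2 : ℝ) ^ d) ^ F.card * (1 / N) ^ (tch ends F).card +
        PP (lw l) (fun L => ¬ Sm d (fun z => f (ov (rst x L) z))) := by
    intro x
    simp only [PP_eq]
    rw [EE_comm]
    have h3 : ∀ L : VB E N → Bool, EE (un N) (fun ω : O → Fin N =>
        if ∀ e ∈ F, Relv (fun z => f (ov (rst x L) z)) (st ends ω e) then (1 : ℝ) else 0) ≤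
        ((2 : ℝ) ^ d) ^ F.card * (1 / N) ^ (tch ends F).card +
          (if ¬ Sm d (fun z => f (ov (rst x L) z)) then (1 : ℝ) else 0) := by
      intro L
      rw [← PP_eq]
      by_cases hS : Sm d (fun z => f (ov (rst x L) z))
      · simp only [hS, not_true_eq_false, if_false, add_zero]
        obtain ⟨R, hR1, hR2⟩ := relv_finset hS
        refine le_trans (PP_mono hu (Q := fun ω => ∀ e ∈ F, st ends ω e ∈ R) ?_) ?_
        · intro ω hω e he
          exact hR2 _ (hω e he)
        · refine (omega_count ends hN R F).trans ?_
          gcongr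
          exact_mod_cast hR1
      · simp only [hS, not_false_eq_true, if_true]
        have := PP_le_one hu (un_sum hN) (fun ω : O → Fin N =>
          ∀ e ∈ F, Relv (fun z => f (ov (rst x L) z)) (st ends ω e))
        have h4 : (0 : ℝ) ≤ ((2 : ℝ) ^ d) ^ F.card * (1 / N) ^ (tch ends F).card := by positivity
        linarith
    refine (EE_mono hl h3).trans ?_
    rw [EE_add, EE_const (lw_sum l)]
  refine (EE_mono hw s2).trans ?_
  rw [EE_add, EE_const hw1]
  have s3 := PP_live (V := VB E N) w hw1 l (fun ρ => ¬ Sm d (fun x => f (ov ρ x)))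
  rw [← s3]
  linarith

end slots

end Pool.Agent.WSatAC0
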