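import Pool.Agent.WSatAC0.Gam11

/-! Clique as weighted satisfiability of 2-CNF formulas; every wire is a constant or a literal. -/

namespace Pool.Agent.WSatAC0

open Finset Pool.Agent.ParityAC Pool.Agent.WSatChain Pool.Agent.WSatCount

/-- the nodes -/
inductive N2 (k N : ℕ) : Type
  | var (i : Fin k) (a : Fin N)
  | dv
  | ndv
  | root
  | cl (i j : Fin k) (a a' : Fin N)
  | ncl (i j : Fin k) (a a' : Fin N) (b : Bool)

section src

variable {k N : ℕ}

/-- the clause is active -/
def act (eb : Fin k → Fin k → Fin N → Fin N → Bool) (i j : Fin k) (a a' : Fin N) : Prop :=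
  (i = j ∧ a ≠ a') ∨ eb i j a a' = false

/-- the wires -/
def wr2 (eb : Fin k → Fin k → Fin N → Fin N → Bool) : N2 k N → N2 k N → Prop
  | .root, .ndv => True
  | .root, .cl _ _ _ _ => True
  | .ndv, .dv => True
  | .cl i j a a', .ncl i1 j1 a1 a1' _ => i1 = i ∧ j1 = j ∧ a1 = a ∧ a1' = a'
  | .ncl i j a a' b, .var i1 a1 => (b = false ∧ i1 = i ∧ a1 = a) ∨
      ((b = true ∧ i1 = j ∧ a1 = a') ∧ act eb i j a a')
  | .ncl i j a a' b, .dv => b = true ∧ ¬ act eb i j a a'
  | _, _ => False

def v2 : N2 k N → Prop
  | .var _ _ => True
  | .dv => True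
  | _ => False

def a2 : N2 k N → Prop
  | .root => True
  | _ => False

def o2 : N2 k N → Prop
  | .cl _ _ _ _ => True
  | _ => False

def n2 : N2 k N → Prop
  | .ndv => True
  | .ncl _ _ _ _ _ => True
  | _ => False

/-- the source circuit -/
def src2 (eb : Fin k → Fin k → Fin N → Fin N → Bool) : Circ (N2 k N) where
  isVar := v2
  isAnd := a2
  isOr := o2
  isNot := n2
  isOut := a2
  wire := wr2 eb

variable {eb : Fin k → Fin k → Fin N → Fin N → Bool}

/-- rank -/
def rk2 : N2 k N → ℕ
  | .root => 0
  | .cl _ _ _ _ => 1
  | .ndv => 2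
  | .ncl _ _ _ _ _ => 2
  | .var _ _ => 3
  | .dv => 3

theorem wr2_rk {e h : N2 k N} (hw : wr2 eb e h) : rk2 e < rk2 h := by
  cases e <;> cases h <;> simp only [wr2, rk2] at hw ⊢ <;> omega

theorem src2_isCircuit : (src2 eb).IsCircuit where
  kind := by
    intro e
    show (v2 e ∧ ¬ a2 e ∧ ¬ o2 e ∧ ¬ n2 e) ∨ (¬ v2 e ∧ a2 e ∧ ¬ o2 e ∧ ¬ n2 e) ∨
      (¬ v2 e ∧ ¬ a2 e ∧ o2 e ∧ ¬ n2 e) ∨ (¬ v2 e ∧ ¬ a2 e ∧ ¬ o2 e ∧ n2 e)
    cases e <;> simp only [v2, a2, o2, n2] <;> tauto
  out := by
    refine ⟨N2.root, trivial, ?_⟩
    intro y hy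
    change a2 y at hy
    cases y <;> simp only [a2] at hy
    rfl
  var_in := by
    intro e h hv hw
    change v2 e at hv
    change wr2 eb e h at hw
    cases e <;> simp only [v2] at hv <;> cases h <;> simp only [wr2] at hw
  not_in := by
    intro e hv
    change n2 e at hv
    show ∃! h, wr2 eb e h
    cases e <;> simp only [n2] at hv
    case ndv =>
      refine ⟨N2.dv, trivial, ?_⟩
      intro h hw
      cases h <;> simp only [wr2] at hw
      rfl
    case ncl i j a a' b =>
      cases b
      · refine ⟨N2.var i a, Or.inl ⟨rfl, rfl, rfl⟩, ?_⟩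
        intro h hw
        cases h <;> simp only [wr2] at hw
        case var =>
          rcases hw with hw | hw
          · rw [hw.2.1, hw.2.2]
          · exact absurd hw.1.1 (by simp)
        case dv => exact absurd hw.1 (by simp)
      · by_cases hact : act eb i j a a'
        · refine ⟨N2.var j a', Or.inr ⟨⟨rfl, rfl, rfl⟩, hact⟩, ?_⟩
          intro h hw
          cases h <;> simp only [wr2] at hw
          case var =>
            rcases hw with hw | hw
            · exact absurd hw.1 (by simp)
            · rw [hw.1.2.1, hw.1.2.2]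
          case dv => exact absurd hact hw.2
        · refine ⟨N2.dv, ⟨rfl, hact⟩, ?_⟩
          intro h hw
          cases h <;> simp only [wr2] at hw
          case var =>
            rcases hw with hw | hw
            · exact absurd hw.1 (by simp)
            · exact absurd hw.2 hact
          case dv => rfl
  acyclic := by
    intro g h
    have key : ∀ a b : N2 k N, Relation.TransGen (src2 eb).wire a b → rk2 a < rk2 b := by
      intro a b hab
      induction hab with
      | single h => exact wr2_rk h
      | tail _ h ih => exact ih.trans (wr2_rk h)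
    exact absurd (key g g h) (lt_irrefl _)

theorem src2_isFormula : (src2 eb).IsFormula where
  toIsCircuit := src2_isCircuit
  used := by
    intro e
    show a2 e ∨ ∃ p, wr2 eb p e
    cases e with
    | var i a => exact Or.inr ⟨N2.ncl i i a a false, Or.inl ⟨rfl, rfl, rfl⟩⟩
    | dv => exact Or.inr ⟨N2.ndv, trivial⟩
    | ndv => exact Or.inr ⟨N2.root, trivial⟩
    | root => exact Or.inl trivial
    | cl i j a a' => exact Or.inr ⟨N2.root, trivial⟩
    | ncl i j a a' b => exact Or.inr ⟨N2.cl i j a a', rfl, rfl, rfl, rfl⟩
  once := by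
    intro e p q hv hwp hwq
    change ¬ v2 e at hv
    change wr2 eb p e at hwp
    change wr2 eb q e at hwq
    cases e <;> simp only [v2, not_true_eq_false, not_false_eq_true] at hv
    case ndv =>
      cases p <;> simp only [wr2] at hwp
      cases q <;> simp only [wr2] at hwq
      rfl
    case root =>
      cases p <;> simp only [wr2] at hwp
    case cl =>
      cases p <;> simp only [wr2] at hwp
      cases q <;> simp only [wr2] at hwq
      rfl
    case ncl =>
      cases p <;> simp only [wr2] at hwp
      cases q <;> simp only [wr2] at hwq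
      obtain ⟨rfl, rfl, rfl, rfl⟩ := hwp
      obtain ⟨rfl, rfl, rfl, rfl⟩ := hwq
      rfl

theorem src2_lit {e : N2 k N} (h : n2 e) : (src2 eb).IsLit e := by
  refine Or.inr ⟨h, ?_⟩
  intro x hw
  change wr2 eb e x at hw
  show v2 x
  cases e <;> simp only [n2] at h <;> cases x <;> simp only [wr2] at hw <;> simp [v2]

theorem src2_gamma : GAMMA 1 2 _ (src2 eb) := by
  refine ⟨src2_isFormula, ?_⟩
  intro g hg
  change a2 g at hg
  cases g <;> simp only [a2] at hg
  refine Or.inr ⟨trivial, ?_⟩
  intro h hw
  change wr2 eb N2.root h at hw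
  cases h <;> simp only [wr2] at hw
  case ndv => exact Or.inl ⟨by norm_num, src2_lit (e := N2.ndv) trivial⟩
  case cl i j a a' =>
    refine Or.inr ⟨trivial, ?_, ?_⟩
    · intro x hx
      change wr2 eb _ x at hx
      cases x <;> simp only [wr2] at hx
      case ncl i1 j1 a1 a1' b => exact src2_lit (e := N2.ncl i1 j1 a1 a1' b) trivial
    · let φ : {h // (src2 eb).wire (N2.cl i j a a') h} → Bool := fun h =>
        match h.1 with
        | .ncl _ _ _ _ b => b
        | _ => false
      have hφ : Function.Injective φ := by
        rintro ⟨x, hx⟩ ⟨y, hy⟩ hxy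
        change wr2 eb _ x at hx
        change wr2 eb _ y at hy
        apply Subtype.ext
        show x = y
        cases x <;> simp only [wr2] at hx
        cases y <;> simp only [wr2] at hy
        obtain ⟨rfl, rfl, rfl, rfl⟩ := hx
        obtain ⟨rfl, rfl, rfl, rfl⟩ := hy
        simp only [φ] at hxy
        rw [hxy]
      have h1 := Nat.card_le_card_of_injective φ hφ
      have h2 : Nat.card Bool = 2 := by rw [Nat.card_eq_fintype_card, Fintype.card_bool]
      rw [h2] at h1
      exact h1

/-- the codes -/
def code2 : N2 k N → (Option (Fin k) × Option (Fin k)) × ((Option (Fin N) × Option (Fin N)) ×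
    (Bool × Fin 6))
  | .var i a => ((some i, none), (some a, none), false, 0)
  | .dv => ((none, none), (none, none), false, 1)
  | .ndv => ((none, none), (none, none), false, 2)
  | .root => ((none, none), (none, none), false, 3)
  | .cl i j a a' => ((some i, some j), (some a, some a'), false, 4)
  | .ncl i j a a' b => ((some i, some j), (some a, some a'), b, 5)

theorem code2_inj : Function.Injective (code2 (k := k) (N := N)) := by
  intro e e' he
  cases e <;> cases e' <;> simp only [code2, Prod.mk.injEq, Option.some.injEq, Fin.isValue,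
    Fin.reduceEq, and_false, and_true, reduceCtorEq] at he
  case var.var => rw [he.1, he.2]
  case dv.dv => rfl
  case ndv.ndv => rfl
  case root.root => rfl
  case cl.cl => rw [he.1.1, he.1.2, he.2.1, he.2.2]
  case ncl.ncl => rw [he.1.1, he.1.2, he.2.1.1, he.2.1.2, he.2.2]

instance : Finite (N2 k N) := Finite.of_injective _ code2_inj

theorem card_N2_le : Nat.card (N2 k N) ≤ (k + 1) * (k + 1) * ((N + 1) * (N + 1) * (2 * 6)) := by
  refine (Nat.card_le_card_of_injective _ code2_inj).trans ?_
  simp only [Nat.card_eq_fintype_card, Fintype.card_option, Fintype.card_prod, Fintype.card_fin,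
    Fintype.card_bool]
  exact le_refl _

/-- weighted satisfiability -/
theorem src2_wsat : (src2 eb).WSat k ↔
    ∃ α : Fin k → Fin N, ∀ i j, eb i j (α i) (α j) = true := by
  classical
  constructor
  · rintro ⟨val, hv, hout, hcard⟩
    have hroot := hout N2.root trivial
    rw [hv.and N2.root trivial] at hroot
    have hndv := hroot N2.ndv trivial
    rw [hv.not N2.ndv trivial] at hndv
    have hdv : ¬ val N2.dv := hndv N2.dv trivial
    have hcl : ∀ i j a a', act eb i j a a' → val (N2.var i a) → val (N2.var j a') → False := by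
      intro i j a a' hact h1 h2
      have h3 := hroot (N2.cl i j a a') trivial
      rw [hv.or (N2.cl i j a a') trivial] at h3
      obtain ⟨x, hw, hx⟩ := h3
      change wr2 eb _ x at hw
      cases x <;> simp only [wr2] at hw
      case ncl i1 j1 a1 a1' b =>
        obtain ⟨rfl, rfl, rfl, rfl⟩ := hw
        rw [hv.not (N2.ncl i1 j1 a1 a1' b) trivial] at hx
        cases b
        · exact hx (N2.var i1 a1) (Or.inl ⟨rfl, rfl, rfl⟩) h1
        · exact hx (N2.var j1 a1') (Or.inr ⟨⟨rfl, rfl, rfl⟩, hact⟩) h2
    -- the rows
    let φ : {g // (src2 eb).isVar g ∧ val g} → Option (Fin k) := fun g =>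
      match g.1 with
      | .var i _ => some i
      | _ => none
    have hφ1 : ∀ g, φ g ≠ none := by
      rintro ⟨g, hg1, hg2⟩
      change v2 g at hg1
      cases g <;> simp only [v2] at hg1
      · simp [φ]
      · exact absurd hg2 hdv
    have hφ2 : Function.Injective φ := by
      rintro ⟨g, hg1, hg2⟩ ⟨g', hg1', hg2'⟩ he
      change v2 g at hg1
      change v2 g' at hg1'
      apply Subtype.ext
      show g = g'
      cases g <;> simp only [v2] at hg1
      case dv => exact absurd hg2 hdv
      cases g' <;> simp only [v2] at hg1'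
      case dv => exact absurd hg2' hdv
      simp only [φ, Option.some.injEq] at he
      subst he
      rename_i i a a'
      by_cases haa : a = a'
      · rw [haa]
      · exact (hcl i i a a' (Or.inl ⟨rfl, haa⟩) hg2 hg2').elim
    let ψ : {g // (src2 eb).isVar g ∧ val g} → Fin k := fun g =>
      (φ g).get (Option.ne_none_iff_isSome.1 (hφ1 g))
    have hψ : Function.Injective ψ := by
      intro g g' he
      apply hφ2
      have h1 : φ g = some (ψ g) := (Option.some_get _).symm
      have h2 : φ g' = some (ψ g') := (Option.some_get _).symm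
      rw [h1, h2, he]
    have hbij : Function.Bijective ψ := by
      have : Fintype {g // (src2 eb).isVar g ∧ val g} := Fintype.ofFinite _
      rw [Fintype.bijective_iff_injective_and_card]
      refine ⟨hψ, ?_⟩
      rw [Fintype.card_fin, ← Nat.card_eq_fintype_card, hcard]
    have hex : ∀ i : Fin k, ∃ a, val (N2.var i a) := by
      intro i
      obtain ⟨g, hg⟩ := hbij.2 i
      have h1 : φ g = some i := by
        rw [← hg]
        exact (Option.some_get _).symm
      obtain ⟨g, hg1, hg2⟩ := g
      change v2 g at hg1
      cases g <;> simp only [v2] at hg1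
      case dv => exact absurd hg2 hdv
      simp only [φ, Option.some.injEq] at h1
      subst h1
      exact ⟨_, hg2⟩
    choose α hα using hex
    refine ⟨α, ?_⟩
    intro i j
    by_contra hcon
    rw [Bool.not_eq_true] at hcon
    exact hcl i j (α i) (α j) (Or.inr hcon) (hα i) (hα j)
  · rintro ⟨α, hα⟩
    obtain ⟨val, hv, hvar⟩ := eval_exists (src2_isCircuit (eb := eb))
      (fun e => ∃ i, e = N2.var i (α i))
    have hX : ∀ i a, val (N2.var i a) ↔ a = α i := by
      intro i a
      rw [hvar (N2.var i a) trivial]
      constructor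
      · rintro ⟨i', hi'⟩
        simp only [N2.var.injEq] at hi'
        obtain ⟨rfl, rfl⟩ := hi'
        rfl
      · rintro rfl
        exact ⟨i, rfl⟩
    have hdv : ¬ val N2.dv := by
      rw [hvar N2.dv trivial]
      rintro ⟨i, hi⟩
      simp at hi
    refine ⟨val, hv, ?_, ?_⟩
    · intro g hg
      change a2 g at hg
      cases g <;> simp only [a2] at hg
      rw [hv.and N2.root trivial]
      intro h hw
      change wr2 eb _ h at hw
      cases h <;> simp only [wr2] at hw
      case ndv =>
        rw [hv.not N2.ndv trivial]
        intro h hw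
        change wr2 eb _ h at hw
        cases h <;> simp only [wr2] at hw
        exact hdv
      case cl i j a a' =>
        rw [hv.or (N2.cl i j a a') trivial]
        by_cases h1 : a = α i
        · refine ⟨N2.ncl i j a a' true, ⟨rfl, rfl, rfl, rfl⟩, ?_⟩
          rw [hv.not (N2.ncl i j a a' true) trivial]
          intro h hw
          change wr2 eb _ h at hw
          cases h <;> simp only [wr2] at hw
          case var i1 a1 =>
            rcases hw with ⟨h2, _⟩ | ⟨⟨_, rfl, rfl⟩, hact⟩
            · exact absurd h2 (by simp)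
            · rw [hX]
              rintro rfl
              subst h1
              rcases hact with ⟨rfl, h3⟩ | h3
              · exact h3 rfl
              · rw [hα] at h3
                exact absurd h3 (by simp)
          case dv => exact hdv
        · refine ⟨N2.ncl i j a a' false, ⟨rfl, rfl, rfl, rfl⟩, ?_⟩
          rw [hv.not (N2.ncl i j a a' false) trivial]
          intro h hw
          change wr2 eb _ h at hw
          cases h <;> simp only [wr2] at hw
          case var i1 a1 =>
            rcases hw with ⟨_, rfl, rfl⟩ | ⟨⟨h2, _⟩, _⟩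
            · rw [hX]
              exact h1
            · exact absurd h2 (by simp)
          case dv => exact absurd hw.1 (by simp)
    · let φ : Fin k → {g // (src2 eb).isVar g ∧ val g} :=
        fun i => ⟨N2.var i (α i), trivial, (hX _ _).2 rfl⟩
      have hbij : Function.Bijective φ := by
        constructor
        · intro i i' h
          have h2 := congrArg (fun x => x.1) h
          simp only [φ, N2.var.injEq] at h2
          exact h2.1
        · rintro ⟨x, h1, h2⟩
          change v2 x at h1
          cases x <;> simp only [v2] at h1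
          case var i a =>
            have h3 := (hX _ _).1 h2
            subst h3
            exact ⟨i, rfl⟩
          case dv => exact absurd h2 hdv
      rw [← Nat.card_congr (Equiv.ofBijective φ hbij), Nat.card_fin]

end src

section bits

variable {k N : ℕ}

/-- the edge bits -/
def eb2 (x : VB (Es k Empty) N → Bool) (i j : Fin k) (a a' : Fin N) : Bool :=
  x ((i, Sum.inl j), a, a')

theorem act_bp (i j : Fin k) (a a' : Fin N) :
    Bp (fun x : VB (Es k Empty) N → Bool => act (eb2 x) i j a a') := by
  unfold act eb2
  by_cases h : i = j ∧ a ≠ a'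
  · exact Or.inl ⟨True, fun x => ⟨fun _ => trivial, fun _ => Or.inl h⟩⟩
  · exact Or.inr (Or.inr ⟨_, fun x => or_iff_right h⟩)

theorem nact_bp (i j : Fin k) (a a' : Fin N) :
    Bp (fun x : VB (Es k Empty) N → Bool => ¬ act (eb2 x) i j a a') := by
  unfold act eb2
  by_cases h : i = j ∧ a ≠ a'
  · exact Or.inl ⟨False, fun x => ⟨fun h2 => h2 (Or.inl h), fun h2 => h2.elim⟩⟩
  · refine Or.inr (Or.inl ⟨((i, Sum.inl j), a, a'), fun x => ?_⟩)
    show ¬ (i = j ∧ a ≠ a' ∨ x ((i, Sum.inl j), a, a') = false) ↔ x ((i, Sum.inl j), a, a') = true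
    rw [or_iff_right h, Bool.not_eq_false]

theorem wr2_bp (e h : N2 k N) : Bp (fun x : VB (Es k Empty) N → Bool => wr2 (eb2 x) e h) := by
  cases e <;> cases h <;> simp only [wr2]
  case ncl.var i j a a' b i1 a1 =>
    cases b
    · simp only [true_and, Bool.false_eq_true, false_and, or_false]
      exact Bp.const _
    · simp only [Bool.true_eq_false, false_and, false_or, true_and]
      exact (act_bp _ _ _ _).and
  case ncl.dv i j a a' b => exact (nact_bp _ _ _ _).and
  all_goals exact Bp.const _

/-- the source circuit on `Fin n` -/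
def src2F {n : ℕ} (e : N2 k N ≃ Fin n) (eb : Fin k → Fin k → Fin N → Fin N → Bool) :
    Circ (Fin n) where
  isVar p := v2 (e.symm p)
  isAnd p := a2 (e.symm p)
  isOr p := o2 (e.symm p)
  isNot p := n2 (e.symm p)
  isOut p := a2 (e.symm p)
  wire p q := wr2 eb (e.symm p) (e.symm q)

theorem src2F_iso {n : ℕ} (e : N2 k N ≃ Fin n) (eb : Fin k → Fin k → Fin N → Fin N → Bool) :
    CIso (src2 eb) (src2F e eb) e where
  var g := by simp only [src2F, e.symm_apply_apply]; exact Iff.rfl
  and g := by simp only [src2F, e.symm_apply_apply]; exact Iff.rfl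
  or g := by simp only [src2F, e.symm_apply_apply]; exact Iff.rfl
  not g := by simp only [src2F, e.symm_apply_apply]; exact Iff.rfl
  out g := by simp only [src2F, e.symm_apply_apply]; exact Iff.rfl
  wire g h := by simp only [src2F, e.symm_apply_apply]; exact Iff.rfl

/-- the bits of the source circuit -/
noncomputable def src2B {n : ℕ} (e : N2 k N ≃ Fin n) (x : VB (Es k Empty) N → Bool) :
    Bit n → Bool := bits (src2F e (eb2 x))

theorem src2B_sm {n : ℕ} (e : N2 k N ≃ Fin n) (v : Bit n) :
    Sm 1 (fun x : VB (Es k Empty) N → Bool => src2B e x v) := by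
  cases v with
  | isVar g => exact (Bp.const _).sm
  | isAnd g => exact (Bp.const _).sm
  | isOr g => exact (Bp.const _).sm
  | isNot g => exact (Bp.const _).sm
  | isOut g => exact (Bp.const _).sm
  | wire g h => exact (wr2_bp _ _).sm

end bits

end Pool.Agent.WSatAC0
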