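import Mathlib

/-! The switching lemma over an arbitrary alphabet: decoding. -/

namespace Pool.Agent.WSatAC0

/-- decision trees over an alphabet -/
inductive DTA (V A : Type) : Type
  | leaf (b : Bool)
  | node (v : V) (t : A → DTA V A)

namespace DTA

variable {V A : Type}

/-- evaluation -/
def eval (x : V → A) : DTA V A → Bool
  | leaf b => b
  | node v t => (t (x v)).eval x

/-- the depth is at most `d` -/
def DepthLe : ℕ → DTA V A → Prop
  | _, leaf _ => True
  | 0, node _ _ => False
  | d + 1, node _ t => ∀ a, (t a).DepthLe d

theorem DepthLe.mono {t : DTA V A} : ∀ {d d' : ℕ}, t.DepthLe d → d ≤ d' → t.DepthLe d' := by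
  induction t with
  | leaf b =>
    intro d d' _ _
    cases d' <;> exact trivial
  | node v t ih =>
    intro d d' h hd
    cases d with
    | zero => exact h.elim
    | succ d =>
      obtain ⟨e, rfl⟩ : ∃ e, d' = e + 1 := ⟨d' - 1, by omega⟩
      exact fun a => ih a (h a) (by omega)

end DTA

variable {V A : Type}

/-- restrictions -/
abbrev RA (V A : Type) : Type := V → Option A

/-- `x` is compatible with `ρ` -/
def ExtA (ρ : RA V A) (x : V → A) : Prop := ∀ v b, ρ v = some b → x v = b

/-- `f` has a decision tree of depth at most `d` under `ρ` -/
def SmallA (f : (V → A) → Bool) (ρ : RA V A) (d : ℕ) : Prop :=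
  ∃ t : DTA V A, t.DepthLe d ∧ ∀ x, ExtA ρ x → t.eval x = f x

theorem SmallA.mono {f : (V → A) → Bool} {ρ : RA V A} {d d' : ℕ} (h : SmallA f ρ d)
    (hd : d ≤ d') : SmallA f ρ d' := by
  obtain ⟨t, h1, h2⟩ := h
  exact ⟨t, h1.mono hd, h2⟩

section enc

variable [DecidableEq V]

/-- set the variables in `B` according to `π` -/
def setA (ρ : RA V A) (B : List V) (π : V → A) : RA V A :=
  fun v => if v ∈ B then some (π v) else ρ v

theorem small_queryA [Nonempty A] {f : (V → A) → Bool} {d : ℕ} : ∀ (B : List V) (ρ : RA V A),
    (∀ π, SmallA f (setA ρ B π) d) → SmallA f ρ (B.length + d) := by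
  intro B
  induction B with
  | nil =>
    intro ρ h
    have h1 := h (fun _ => Classical.arbitrary A)
    have h2 : setA ρ [] (fun _ => Classical.arbitrary A) = ρ := by
      funext v
      simp [setA]
    rw [h2] at h1
    exact h1.mono (Nat.le_add_left _ _)
  | cons v B ih =>
    intro ρ h
    have key : ∀ b : A, SmallA f (fun w => if w = v then some b else ρ w) (B.length + d) := by
      intro b
      apply ih
      intro π
      have h1 := h (fun w => if w ∈ B then π w else b)
      obtain ⟨t, ht1, ht2⟩ := h1
      refine ⟨t, ht1, ?_⟩
      intro x hx
      apply ht2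
      intro w c hw
      apply hx w c
      simp only [setA, List.mem_cons] at hw ⊢
      by_cases hA : w ∈ B
      · simpa [hA] using hw
      · by_cases hv : w = v
        · subst hv
          simpa [hA] using hw
        · simpa [hA, hv] using hw
    choose t ht1 ht2 using key
    refine ⟨DTA.node v t, ?_, ?_⟩
    · have : (v :: B).length + d = (B.length + d) + 1 := by
        rw [List.length_cons]
        omega
      rw [this]
      exact fun a => ht1 a
    · intro x hx
      simp only [DTA.eval]
      apply ht2
      intro w c hw
      by_cases hwv : w = v
      · subst hwv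
        simpa using hw
      · simp only [hwv, if_false] at hw
        exact hx w c hw

/-- terms: the conjunction of the conditions `ok v (x v)` over the listed variables; `sat` is a
satisfying assignment -/
structure TermA (V A : Type) where
  vars : List V
  ok : V → A → Bool
  sat : V → A
  hsat : ∀ v ∈ vars, ok v (sat v) = true

/-- a term is falsified -/
def falsA (ρ : RA V A) (C : TermA V A) : Bool := C.vars.any fun v =>
  match ρ v with
  | none => false
  | some a => !(C.ok v a)

omit [DecidableEq V] in
theorem falsA_iff {ρ : RA V A} {C : TermA V A} :
    falsA ρ C = true ↔ ∃ v ∈ C.vars, ∃ a, ρ v = some a ∧ C.ok v a = false := by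
  unfold falsA
  rw [List.any_eq_true]
  constructor
  · rintro ⟨v, hv, h⟩
    refine ⟨v, hv, ?_⟩
    cases hρ : ρ v with
    | none => rw [hρ] at h; simp at h
    | some a =>
      rw [hρ] at h
      exact ⟨a, rfl, by simpa using h⟩
  · rintro ⟨v, hv, a, h1, h2⟩
    refine ⟨v, hv, ?_⟩
    rw [h1]
    simpa using h2

/-- the value of a DNF -/
def evalF (F : List (TermA V A)) (x : V → A) : Bool :=
  F.any fun C => C.vars.all fun v => C.ok v (x v)

omit [DecidableEq V] in
theorem evalF_iff {F : List (TermA V A)} {x : V → A} :
    evalF F x = true ↔ ∃ C ∈ F, ∀ v ∈ C.vars, C.ok v (x v) = true := by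
  simp [evalF]

/-- the first term that is not falsified -/
def firstA (F : List (TermA V A)) (ρ : RA V A) : Option (TermA V A) :=
  F.find? fun C => !(falsA ρ C)

omit [DecidableEq V] in
theorem firstA_none {F : List (TermA V A)} {ρ : RA V A} (h : firstA F ρ = none) (x : V → A)
    (hx : ExtA ρ x) : evalF F x = false := by
  rw [Bool.eq_false_iff]
  intro he
  obtain ⟨C, hC, hv⟩ := evalF_iff.1 he
  have h2 := List.find?_eq_none.1 h C hC
  simp only [Bool.not_eq_true', Bool.not_eq_false] at h2
  obtain ⟨v, hv1, a, hv2, hv3⟩ := falsA_iff.1 h2
  have h3 := hx v _ hv2
  have h4 := hv v hv1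
  rw [h3, hv3] at h4
  simp at h4

/-- decoding -/
def decA (F : List (TermA V A)) : List (ℕ × A × Bool) → RA V A → RA V A → Finset V
  | [], _, _ => ∅
  | (i, b, last) :: L, h, g =>
    match firstA F h with
    | none => ∅
    | some C =>
      match C.vars[i]? with
      | none => ∅
      | some v =>
        insert v (if last then
            decA F L (Function.update g v (some b)) (Function.update g v (some b))
          else decA F L h (Function.update g v (some b)))

theorem decA_block {F : List (TermA V A)} {h : RA V A} {C : TermA V A}
    (hC : firstA F h = some C) {k : ℕ} (hk : C.vars.length ≤ k) (π : V → A) :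
    ∀ vs : List V, vs ≠ [] → (∀ v ∈ vs, v ∈ C.vars) → ∃ Lb : List (ℕ × A × Bool),
      Lb.length = vs.length ∧ (∀ e ∈ Lb, e.1 < k) ∧
      ∀ (L : List (ℕ × A × Bool)) (g : RA V A),
        decA F (Lb ++ L) h g = vs.toFinset ∪ decA F L (setA g vs π) (setA g vs π) := by
  intro vs
  induction vs with
  | nil => intro h; exact absurd rfl h
  | cons v vs ih =>
    intro _ hvs
    obtain ⟨i, hi, hiv⟩ := List.getElem_of_mem (hvs v (by simp))
    have hget : C.vars[i]? = some v := by rw [List.getElem?_eq_getElem hi, hiv]
    by_cases hnil : vs = []
    · subst hnil
      refine ⟨[(i, π v, true)], rfl, ?_, ?_⟩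
      · intro e he
        rw [List.mem_singleton] at he
        subst he
        show i < k
        omega
      · intro L g
        have hset : setA g [v] π = Function.update g v (some (π v)) := by
          funext w
          by_cases hw : w = v
          · subst hw
            simp [setA]
          · simp [setA, hw]
        rw [hset]
        show decA F ((i, π v, true) :: L) h g = _
        simp only [decA, hC, hget, if_true]
        rw [List.toFinset_cons, List.toFinset_nil, Finset.insert_union, Finset.empty_union]
    · obtain ⟨Lb, h1, h2, h3⟩ := ih hnil (fun w hw => hvs w (by simp [hw]))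
      refine ⟨(i, π v, false) :: Lb, by simp [h1], ?_, ?_⟩
      · intro e he
        rcases List.mem_cons.1 he with rfl | he
        · show i < k
          omega
        · exact h2 e he
      · intro L g
        have hset : setA (Function.update g v (some (π v))) vs π = setA g (v :: vs) π := by
          funext w
          by_cases hw : w = v
          · subst hw
            simp [setA]
          · simp [setA, hw]
        show decA F ((i, π v, false) :: (Lb ++ L)) h g = _
        simp only [decA, hC, hget]
        rw [if_neg (by simp), h3, hset]
        simp [Finset.insert_union]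

/-- the encoding exists -/
theorem enc_existsA [Nonempty A] (F : List (TermA V A)) (k : ℕ) (hk : ∀ C ∈ F, C.vars.length ≤ k)
    (good : A → Prop) (hgood : ∀ C ∈ F, ∀ v, good (C.sat v)) :
    ∀ (s : ℕ) (ρ : RA V A), 1 ≤ s → ¬ SmallA (evalF F) ρ (s - 1) →
      ∃ (L : List (ℕ × A × Bool)) (B : List V) (σ : V → A), L.length = s ∧
        (∀ e ∈ L, e.1 < k) ∧ B.Nodup ∧ B.length = s ∧ (∀ v ∈ B, ρ v = none) ∧
        (∀ v, good (σ v)) ∧
        decA F L (setA ρ B σ) (setA ρ B σ) = B.toFinset := by
  intro s
  induction s using Nat.strong_induction_on with
  | _ s ih =>
    intro ρ hs hns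
    -- the first term
    cases hfirst : firstA F ρ with
    | none =>
      exfalso
      apply hns
      refine ⟨DTA.leaf false, by cases (s - 1) <;> exact trivial, ?_⟩
      intro x hx
      exact (firstA_none hfirst x hx).symm
    | some C =>
      have hCmem : C ∈ F := List.mem_of_find?_eq_some hfirst
      have hCk := hk C hCmem
      obtain ⟨hCn, as, bs, hF, has⟩ := List.find?_eq_some_iff_append.1 hfirst
      have hCnf : ∀ v ∈ C.vars, ∀ a, ρ v = some a → C.ok v a = true := by
        intro v hv a he
        by_contra hcon
        have : falsA ρ C = true := falsA_iff.2 ⟨v, hv, a, he, by simpa using hcon⟩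
        simp [this] at hCn
      -- first term under extensions
      have hfirst' : ∀ h : RA V A, (∀ v, ρ v ≠ none → h v = ρ v) →
          (∀ v ∈ C.vars, ∀ a, h v = some a → C.ok v a = true) → firstA F h = some C := by
        intro h h1 h2
        apply List.find?_eq_some_iff_append.2
        refine ⟨?_, as, bs, hF, ?_⟩
        · simp only [Bool.not_eq_true', Bool.eq_false_iff]
          intro he
          obtain ⟨v, hv1, a, hv2, hv3⟩ := falsA_iff.1 he
          rw [h2 v hv1 a hv2] at hv3
          simp at hv3
        · intro D hD
          have h3 := has D hD
          simp only [Bool.not_not] at h3 ⊢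
          obtain ⟨v, hv1, a, hv2, hv3⟩ := falsA_iff.1 h3
          refine falsA_iff.2 ⟨v, hv1, a, ?_, hv3⟩
          rw [h1 v (by rw [hv2]; simp)]
          exact hv2
      -- the free variables of the first term
      set B : List V := (C.vars.filter fun v => (ρ v).isNone).dedup with hB
      have hBnd : B.Nodup := List.nodup_dedup _
      have hBmem : ∀ v, v ∈ B ↔ v ∈ C.vars ∧ ρ v = none := by
        intro v
        simp [hB, List.mem_dedup, List.mem_filter]
      have hBne : B ≠ [] := by
        intro hnil
        apply hns
        refine ⟨DTA.leaf true, by cases (s - 1) <;> exact trivial, ?_⟩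
        intro x hx
        symm
        refine evalF_iff.2 ⟨C, hCmem, ?_⟩
        intro v hv
        have h1 : ρ v ≠ none := by
          intro h
          have : v ∈ B := (hBmem v).2 ⟨hv, h⟩
          rw [hnil] at this
          simp at this
        obtain ⟨b, hb⟩ := Option.ne_none_iff_exists'.1 h1
        rw [hx v b hb]
        exact hCnf v hv b hb
      by_cases hlen : s ≤ B.length
      · -- truncated block
        set B' := B.take s with hB'
        have hB'len : B'.length = s := by
          rw [hB', List.length_take]
          omega
        have hB'sub : ∀ v ∈ B', v ∈ B := fun v hv => List.mem_of_mem_take hv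
        have hB'ne : B' ≠ [] := by
          intro h
          rw [h] at hB'len
          simp at hB'len
          omega
        have hfirstA : firstA F (setA ρ B' C.sat) = some C := by
          apply hfirst'
          · intro v hv
            have : v ∉ B' := fun h => hv ((hBmem v).1 (hB'sub v h)).2
            simp [setA, this]
          · intro v hv a ha
            by_cases hvA : v ∈ B'
            · simp only [setA, hvA, if_true, Option.some.injEq] at ha
              rw [← ha]
              exact C.hsat v hv
            · simp only [setA, hvA, if_false] at ha
              exact hCnf v hv a ha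
        obtain ⟨Lb, h1, h2, h3⟩ := decA_block hfirstA hCk (fun _ => Classical.arbitrary A) B' hB'ne
          (fun v hv => ((hBmem v).1 (hB'sub v hv)).1)
        refine ⟨Lb, B', C.sat, by rw [h1, hB'len], h2, ?_, hB'len, ?_, hgood C hCmem, ?_⟩
        · exact hBnd.sublist (List.take_sublist _ _)
        · intro v hv
          exact ((hBmem v).1 (hB'sub v hv)).2
        · have := h3 [] (setA ρ B' C.sat)
          rw [List.append_nil] at this
          rw [this]
          simp [decA]
      · -- full block
        push Not at hlen
        have hBlen : 1 ≤ B.length := by
          rcases Nat.eq_zero_or_pos B.length with h | h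
          · exact absurd (List.eq_nil_of_length_eq_zero h) hBne
          · exact h
        have hex : ∃ π, ¬ SmallA (evalF F) (setA ρ B π) (s - B.length - 1) := by
          by_contra hcon
          push Not at hcon
          apply hns
          refine (small_queryA B ρ hcon).mono ?_
          omega
        obtain ⟨π, hπ⟩ := hex
        obtain ⟨L, B2, σ, g1, g2, g3, g4, g5, g6, g7⟩ := ih (s - B.length) (by omega) (setA ρ B π)
          (by omega) hπ
        have hdisj : ∀ v ∈ B2, v ∉ B := by
          intro v hv hvA
          have := g5 v hv
          simp [setA, hvA] at this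
        have hB2ρ : ∀ v ∈ B2, ρ v = none := by
          intro v hv
          have := g5 v hv
          simpa [setA, hdisj v hv] using this
        let σ' : V → A := fun v => if v ∈ B then C.sat v else σ v
        have hfirstA : firstA F (setA ρ (B ++ B2) σ') = some C := by
          apply hfirst'
          · intro v hv
            have h1 : v ∉ B := fun h => hv ((hBmem v).1 h).2
            have h2 : v ∉ B2 := fun h => hv (hB2ρ v h)
            simp [setA, h1, h2]
          · intro v hv a ha
            by_cases hvA : v ∈ B
            · have : v ∈ B ++ B2 := by simp [hvA]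
              simp only [setA, this, if_true, σ', hvA, Option.some.injEq] at ha
              rw [← ha]
              exact C.hsat v hv
            · by_cases hvA2 : v ∈ B2
              · exact absurd ((hBmem v).2 ⟨hv, hB2ρ v hvA2⟩) hvA
              · have : v ∉ B ++ B2 := by simp [hvA, hvA2]
                simp only [setA, this, if_false] at ha
                exact hCnf v hv a ha
        obtain ⟨Lb, h1, h2, h3⟩ := decA_block hfirstA hCk π B hBne
          (fun v hv => ((hBmem v).1 hv).1)
        refine ⟨Lb ++ L, B ++ B2, σ', ?_, ?_, ?_, ?_, ?_, ?_, ?_⟩
        · rw [List.length_append, h1, g1]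
          omega
        · intro e he
          rcases List.mem_append.1 he with he | he
          · exact h2 e he
          · exact g2 e he
        · rw [List.nodup_append]
          refine ⟨hBnd, g3, ?_⟩
          intro a ha b hb hab
          subst hab
          exact hdisj a hb ha
        · rw [List.length_append, g4]
          omega
        · intro v hv
          rcases List.mem_append.1 hv with hv | hv
          · exact ((hBmem v).1 hv).2
          · exact hB2ρ v hv
        · intro v
          simp only [σ']
          split
          · exact hgood C hCmem v
          · exact g6 v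
        · rw [h3]
          have hset : setA (setA ρ (B ++ B2) σ') B π = setA (setA ρ B π) B2 σ := by
            funext v
            by_cases hvA : v ∈ B
            · have : v ∉ B2 := fun h => hdisj v h hvA
              simp [setA, hvA, this]
            · by_cases hvA2 : v ∈ B2
              · simp [setA, hvA, hvA2, σ']
              · simp [setA, hvA, hvA2]
          rw [hset, g7]
          simp [List.toFinset_append]

end enc

end Pool.Agent.WSatAC0
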