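import Mathlib

/-! Finite product weights. -/

namespace Pool.Agent.WSatAC0

open Finset

section ee

variable {V α β : Type} [Fintype V] [DecidableEq V] [Fintype α] [Fintype β]

/-- expectation with respect to product weights -/
def EE (w : α → ℝ) (F : (V → α) → ℝ) : ℝ := ∑ g : V → α, (∏ v, w (g v)) * F g

theorem EE_mono {w : α → ℝ} (hw : ∀ a, 0 ≤ w a) {F G : (V → α) → ℝ} (h : ∀ g, F g ≤ G g) :
    EE w F ≤ EE w G :=
  Finset.sum_le_sum fun g _ => mul_le_mul_of_nonneg_left (h g)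
    (Finset.prod_nonneg fun _ _ => hw _)

theorem EE_nonneg {w : α → ℝ} (hw : ∀ a, 0 ≤ w a) {F : (V → α) → ℝ} (h : ∀ g, 0 ≤ F g) :
    0 ≤ EE w F :=
  Finset.sum_nonneg fun g _ => mul_nonneg (Finset.prod_nonneg fun _ _ => hw _) (h g)

theorem EE_add (w : α → ℝ) (F G : (V → α) → ℝ) :
    EE w (fun g => F g + G g) = EE w F + EE w G := by
  unfold EE
  rw [← Finset.sum_add_distrib]
  exact Finset.sum_congr rfl fun g _ => by ring

theorem EE_mul (w : α → ℝ) (c : ℝ) (F : (V → α) → ℝ) :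
    EE w (fun g => c * F g) = c * EE w F := by
  unfold EE
  rw [Finset.mul_sum]
  exact Finset.sum_congr rfl fun g _ => by ring

theorem EE_sum {ι : Type} (w : α → ℝ) (s : Finset ι) (F : ι → (V → α) → ℝ) :
    EE w (fun g => ∑ i ∈ s, F i g) = ∑ i ∈ s, EE w (F i) := by
  unfold EE
  rw [Finset.sum_comm]
  exact Finset.sum_congr rfl fun g _ => by rw [Finset.mul_sum]

theorem EE_prodform (w : α → ℝ) (φ : V → α → ℝ) :
    EE w (fun g => ∏ v, φ v (g v)) = ∏ v, ∑ a, w a * φ v a := by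
  unfold EE
  rw [Finset.prod_univ_sum, Fintype.piFinset_univ]
  exact Finset.sum_congr rfl fun g _ => by rw [Finset.prod_mul_distrib]

theorem EE_const {w : α → ℝ} (hw : ∑ a, w a = 1) (c : ℝ) : EE w (fun _ : V → α => c) = c := by
  have h := EE_prodform (V := V) w (fun _ _ => 1)
  simp only [Finset.prod_const_one, mul_one, hw] at h
  have h2 := EE_mul w c (fun _ : V → α => (1 : ℝ))
  rw [h] at h2
  simpa using h2

/-- push-forward -/
theorem EE_push [DecidableEq β] (w : α → ℝ) (c : α → β) (F : (V → β) → ℝ) :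
    EE w (fun g => F (fun v => c (g v))) =
      EE (fun b => ∑ a with c a = b, w a) F := by
  classical
  unfold EE
  have h1 : ∀ h : V → β, (∏ v, ∑ a with c a = h v, w a) * F h =
      ∑ g ∈ univ.filter (fun g : V → α => (fun v => c (g v)) = h),
        (∏ v, w (g v)) * F (fun v => c (g v)) := by
    intro h
    rw [Finset.prod_univ_sum, Finset.sum_mul]
    have h2 : (Fintype.piFinset fun v => univ.filter fun a => c a = h v) =
        univ.filter (fun g : V → α => (fun v => c (g v)) = h) := by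
      ext g
      simp [Fintype.mem_piFinset, funext_iff]
    rw [h2]
    apply Finset.sum_congr rfl
    intro g hg
    rw [(Finset.mem_filter.1 hg).2]
  rw [Finset.sum_congr rfl fun h _ => h1 h]
  exact (Finset.sum_fiberwise (univ : Finset (V → α)) (fun g => (fun v => c (g v))) _).symm

/-- product of two weights -/
theorem EE_pair (w1 : α → ℝ) (w2 : β → ℝ) (F : (V → α × β) → ℝ) :
    EE (fun p : α × β => w1 p.1 * w2 p.2) F =
      EE w1 (fun g => EE w2 (fun h => F (fun v => (g v, h v)))) := by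
  unfold EE
  rw [← (Equiv.arrowProdEquivProdArrow V (fun _ => α) (fun _ => β)).symm.sum_comp,
    Fintype.sum_prod_type]
  apply Finset.sum_congr rfl
  intro g _
  rw [Finset.mul_sum]
  apply Finset.sum_congr rfl
  intro h _
  simp only [Equiv.arrowProdEquivProdArrow, Equiv.coe_fn_symm_mk, Finset.prod_mul_distrib]
  ring

/-- the probability of `P` -/
noncomputable def PP (w : α → ℝ) (P : (V → α) → Prop) : ℝ := by
  classical
  exact EE w (fun g => if P g then 1 else 0)

theorem PP_eq (w : α → ℝ) (P : (V → α) → Prop) [∀ g, Decidable (P g)] :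
    PP w P = EE w (fun g => if P g then 1 else 0) := by
  unfold PP
  congr 1
  funext g
  by_cases h : P g
  · simp [h]
  · simp [h]

theorem PP_nonneg {w : α → ℝ} (hw : ∀ a, 0 ≤ w a) (P : (V → α) → Prop) : 0 ≤ PP w P := by
  classical
  apply EE_nonneg hw
  intro g
  split <;> norm_num

theorem PP_mono {w : α → ℝ} (hw : ∀ a, 0 ≤ w a) {P Q : (V → α) → Prop} (h : ∀ g, P g → Q g) :
    PP w P ≤ PP w Q := by
  classical
  apply EE_mono hw
  intro g
  by_cases hP : P g
  · simp [hP, h g hP]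
  · simp only [hP, if_false]
    split <;> norm_num

theorem PP_or {w : α → ℝ} (hw : ∀ a, 0 ≤ w a) (P Q : (V → α) → Prop) :
    PP w (fun g => P g ∨ Q g) ≤ PP w P + PP w Q := by
  classical
  unfold PP
  rw [← EE_add]
  apply EE_mono hw
  intro g
  by_cases hP : P g <;> by_cases hQ : Q g <;> simp [hP, hQ]

theorem PP_exists {w : α → ℝ} (hw : ∀ a, 0 ≤ w a) {ι : Type} (s : Finset ι)
    (P : ι → (V → α) → Prop) :
    PP w (fun g => ∃ i ∈ s, P i g) ≤ ∑ i ∈ s, PP w (P i) := by
  classical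
  unfold PP
  rw [← EE_sum]
  apply EE_mono hw
  intro g
  by_cases h : ∃ i ∈ s, P i g
  · obtain ⟨i, hi, hPi⟩ := h
    have h1 : ∃ i ∈ s, P i g := ⟨i, hi, hPi⟩
    rw [if_pos h1]
    have h2 : (if P i g then (1 : ℝ) else 0) ≤ ∑ i ∈ s, if P i g then (1 : ℝ) else 0 :=
      Finset.single_le_sum (f := fun i => if P i g then (1 : ℝ) else 0)
        (fun j _ => by split <;> norm_num) hi
    rw [if_pos hPi] at h2
    exact h2
  · rw [if_neg h]
    exact Finset.sum_nonneg fun j _ => by split <;> norm_num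

theorem PP_le_one {w : α → ℝ} (hw : ∀ a, 0 ≤ w a) (hw1 : ∑ a, w a = 1) (P : (V → α) → Prop) :
    PP w P ≤ 1 := by
  classical
  rw [← EE_const (V := V) hw1 1]
  apply EE_mono hw
  intro g
  split <;> norm_num

/-- if the probability is below one, the complement is not empty -/
theorem PP_lt_one {w : α → ℝ} (hw1 : ∑ a, w a = 1) {P : (V → α) → Prop} (h : PP w P < 1) :
    ∃ g, ¬ P g := by
  classical
  by_contra hcon
  push Not at hcon
  have : PP w P = 1 := by
    unfold PP
    simp only [hcon, if_true]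
    exact EE_const hw1 1
  linarith

/-- independent conditions -/
theorem PP_forall {w : α → ℝ} (hw : ∑ a, w a = 1) (T : Finset V) (Q : V → α → Prop)
    [∀ v a, Decidable (Q v a)] :
    PP w (fun g => ∀ v ∈ T, Q v (g v)) = ∏ v ∈ T, ∑ a, w a * (if Q v a then 1 else 0) := by
  classical
  rw [PP_eq]
  have h1 : (fun g : V → α => if ∀ v ∈ T, Q v (g v) then (1 : ℝ) else 0) =
      fun g => ∏ v, (if v ∈ T then (if Q v (g v) then (1 : ℝ) else 0) else 1) := by
    funext g
    by_cases h : ∀ v ∈ T, Q v (g v)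
    · rw [if_pos h]
      symm
      apply Finset.prod_eq_one
      intro v _
      by_cases hv : v ∈ T
      · simp [hv, h v hv]
      · simp [hv]
    · rw [if_neg h]
      push Not at h
      obtain ⟨v, hv, hQ⟩ := h
      symm
      apply Finset.prod_eq_zero (Finset.mem_univ v)
      simp [hv, hQ]
  rw [h1, EE_prodform w (fun v a => if v ∈ T then (if Q v a then (1 : ℝ) else 0) else 1)]
  rw [← Finset.prod_filter_mul_prod_filter_not univ (· ∈ T)]
  have h2 : ∏ v ∈ univ.filter (fun v => ¬ v ∈ T), ∑ a, w a *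
      (if v ∈ T then (if Q v a then (1 : ℝ) else 0) else 1) = 1 := by
    apply Finset.prod_eq_one
    intro v hv
    have := (Finset.mem_filter.1 hv).2
    simp [this, hw]
  rw [h2, mul_one]
  have h3 : univ.filter (fun v => v ∈ T) = T := by
    ext v
    simp
  rw [h3]
  apply Finset.prod_congr rfl
  intro v hv
  simp [hv]

end ee

section comm

variable {V W α β : Type} [Fintype V] [DecidableEq V] [Fintype W] [DecidableEq W] [Fintype α]
  [Fintype β]

theorem EE_comm (w1 : α → ℝ) (w2 : β → ℝ) (F : (V → α) → (W → β) → ℝ) :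
    EE w1 (fun g => EE w2 (fun h => F g h)) = EE w2 (fun h => EE w1 (fun g => F g h)) := by
  unfold EE
  simp only [Finset.mul_sum]
  rw [Finset.sum_comm]
  exact Finset.sum_congr rfl fun h _ => Finset.sum_congr rfl fun g _ => by ring

/-- the probability over two independent choices -/
noncomputable def P2 (w1 : α → ℝ) (w2 : β → ℝ) (Q : (V → α) → (W → β) → Prop) : ℝ :=
  EE w1 (fun g => PP w2 (fun h => Q g h))

variable {w1 : α → ℝ} {w2 : β → ℝ}

theorem P2_mono (h1 : ∀ a, 0 ≤ w1 a) (h2 : ∀ a, 0 ≤ w2 a) {Q R : (V → α) → (W → β) → Prop}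
    (h : ∀ g h, Q g h → R g h) : P2 w1 w2 Q ≤ P2 w1 w2 R :=
  EE_mono h1 fun g => PP_mono h2 fun k => h g k

theorem P2_nonneg (h1 : ∀ a, 0 ≤ w1 a) (h2 : ∀ a, 0 ≤ w2 a) (Q : (V → α) → (W → β) → Prop) :
    0 ≤ P2 w1 w2 Q := EE_nonneg h1 fun _ => PP_nonneg h2 _

theorem P2_or (h1 : ∀ a, 0 ≤ w1 a) (h2 : ∀ a, 0 ≤ w2 a) (Q R : (V → α) → (W → β) → Prop) :
    P2 w1 w2 (fun g h => Q g h ∨ R g h) ≤ P2 w1 w2 Q + P2 w1 w2 R := by
  unfold P2
  rw [← EE_add]
  exact EE_mono h1 fun g => PP_or h2 _ _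

theorem P2_exists (h1 : ∀ a, 0 ≤ w1 a) (h2 : ∀ a, 0 ≤ w2 a) {ι : Type} (s : Finset ι)
    (Q : ι → (V → α) → (W → β) → Prop) :
    P2 w1 w2 (fun g h => ∃ i ∈ s, Q i g h) ≤ ∑ i ∈ s, P2 w1 w2 (Q i) := by
  unfold P2
  rw [← EE_sum]
  exact EE_mono h1 fun g => PP_exists h2 _ _

theorem P2_lt_one (h1 : ∀ a, 0 ≤ w1 a) (hw1 : ∑ a, w1 a = 1) (hw2 : ∑ a, w2 a = 1)
    {Q : (V → α) → (W → β) → Prop} (h : P2 w1 w2 Q < 1) : ∃ g h, ¬ Q g h := by
  by_contra hcon
  push Not at hcon
  have h3 : ∀ g, PP w2 (fun h => Q g h) = 1 := by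
    intro g
    classical
    rw [PP_eq]
    simp only [hcon, if_true]
    exact EE_const hw2 1
  unfold P2 at h
  simp only [h3] at h
  rw [EE_const hw1] at h
  linarith

end comm

end Pool.Agent.WSatAC0
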