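import Pool.Agent.WSatAC0.SwitchA
import Pool.Agent.WSatAC0.Weights

/-! The switching lemma over an alphabet for product weights. -/

namespace Pool.Agent.WSatAC0

open Finset

variable {V A : Type} [Fintype V] [DecidableEq V] [Fintype A]

/-- weights of a restricted symbol: `none` is a free variable -/
def wo (w : A → ℝ) (l : ℝ) : Option A → ℝ
  | none => l
  | some a => (1 - l) * w a

theorem wo_nonneg {w : A → ℝ} (hw : ∀ a, 0 ≤ w a) {l : ℝ} (h0 : 0 ≤ l) (h1 : l ≤ 1) (o : Option A) :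
    0 ≤ wo w l o := by
  cases o with
  | none => exact h0
  | some a => exact mul_nonneg (by linarith) (hw a)

theorem wo_sum {w : A → ℝ} (hw1 : ∑ a, w a = 1) (l : ℝ) : ∑ o, wo w l o = 1 := by
  rw [Fintype.sum_option]
  simp only [wo, ← Finset.mul_sum, hw1]
  ring

/-- unset the variables in `B` -/
def unsetA (ρ : RA V A) (B : Finset V) : RA V A := fun v => if v ∈ B then none else ρ v

/-- the codes -/
def codesA (A : Type) [Fintype A] [DecidableEq A] (k s : ℕ) : Finset (List (ℕ × A × Bool)) :=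
  (univ : Finset (Fin s → Fin k × A × Bool)).image
    fun g => List.ofFn fun i => (((g i).1 : ℕ), (g i).2.1, (g i).2.2)

theorem codesA_card [DecidableEq A] (k s : ℕ) :
    (codesA A k s).card ≤ (2 * k * Fintype.card A) ^ s := by
  refine Finset.card_image_le.trans ?_
  rw [Finset.card_univ, Fintype.card_fun, Fintype.card_prod, Fintype.card_prod, Fintype.card_bool,
    Fintype.card_fin, Fintype.card_fin]
  apply le_of_eq
  congr 1
  ring

theorem mem_codesA [DecidableEq A] {k s : ℕ} {L : List (ℕ × A × Bool)} (h1 : L.length = s)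
    (h2 : ∀ e ∈ L, e.1 < k) : L ∈ codesA A k s := by
  subst h1
  refine Finset.mem_image.2 ⟨fun i => (⟨(L.get i).1, h2 _ (List.get_mem L i)⟩, (L.get i).2.1,
    (L.get i).2.2), Finset.mem_univ _, ?_⟩
  apply List.ext_get
  · simp
  · intro n h3 h4
    simp

/-- the switching lemma -/
theorem switchW [DecidableEq A] [Nonempty A] {w : A → ℝ} (hw : ∀ a, 0 ≤ w a)
    (hw1 : ∑ a, w a = 1) {l : ℝ} (h0 : 0 ≤ l) (h1 : l ≤ 1) {good : A → Prop} {κ : ℝ}
    (hκ0 : 0 ≤ κ) (hκ : ∀ a, good a → l ≤ κ * ((1 - l) * w a))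
    (F : List (TermA V A)) {k s : ℕ} (hk : ∀ C ∈ F, C.vars.length ≤ k)
    (hgood : ∀ C ∈ F, ∀ v, good (C.sat v)) (hs : 1 ≤ s) :
    PP (wo w l) (fun ρ : V → Option A => ¬ SmallA (evalF F) ρ (s - 1)) ≤
      (2 * k * Fintype.card A * κ) ^ s := by
  classical
  let W : RA V A → ℝ := fun ρ => ∏ v, wo w l (ρ v)
  have hW : ∀ ρ, 0 ≤ W ρ := fun ρ => Finset.prod_nonneg fun _ _ => wo_nonneg hw h0 h1 _
  have hWsum : ∑ ρ, W ρ = 1 := by
    have := EE_const (V := V) (wo_sum hw1 l) 1
    unfold EE at this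
    simpa [W] using this
  let Bad : Finset (RA V A) := univ.filter fun ρ => ¬ SmallA (evalF F) ρ (s - 1)
  have hPP : PP (wo w l) (fun ρ : V → Option A => ¬ SmallA (evalF F) ρ (s - 1)) =
      ∑ ρ ∈ Bad, W ρ := by
    unfold PP EE
    rw [Finset.sum_filter]
    apply Finset.sum_congr rfl
    intro ρ _
    by_cases h : SmallA (evalF F) ρ (s - 1)
    · simp [h]
    · simp [h, W]
  rw [hPP]
  have henc : ∀ ρ ∈ Bad, ∃ p : List (ℕ × A × Bool) × RA V A, p.1 ∈ codesA A k s ∧
      ρ = unsetA p.2 (decA F p.1 p.2 p.2) ∧ W ρ ≤ κ ^ s * W p.2 := by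
    intro ρ hρ
    have hρ' := (Finset.mem_filter.1 hρ).2
    obtain ⟨L, B, σ, g1, g2, g3, g4, g5, g6, g7⟩ := enc_existsA F k hk good hgood s ρ hs hρ'
    refine ⟨(L, setA ρ B σ), mem_codesA g1 g2, ?_, ?_⟩
    · show ρ = unsetA (setA ρ B σ) (decA F L (setA ρ B σ) (setA ρ B σ))
      rw [g7]
      funext v
      by_cases hv : v ∈ B
      · simp [unsetA, hv, g5 v hv]
      · simp [unsetA, setA, hv]
    · have hpt : ∀ v, wo w l (ρ v) ≤ (if v ∈ B.toFinset then κ else 1) * wo w l (setA ρ B σ v) := by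
        intro v
        by_cases hv : v ∈ B
        · rw [if_pos (List.mem_toFinset.2 hv), g5 v hv]
          simp only [setA, hv, if_true]
          exact hκ _ (g6 v)
        · rw [if_neg (fun h => hv (List.mem_toFinset.1 h))]
          simp [setA, hv]
      calc W ρ ≤ ∏ v, (if v ∈ B.toFinset then κ else 1) * wo w l (setA ρ B σ v) :=
            Finset.prod_le_prod (fun _ _ => wo_nonneg hw h0 h1 _) fun v _ => hpt v
        _ = (∏ v, if v ∈ B.toFinset then κ else 1) * W (setA ρ B σ) := Finset.prod_mul_distrib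
        _ = κ ^ s * W (setA ρ B σ) := by
            rw [Finset.prod_ite_mem, Finset.univ_inter, Finset.prod_const,
              List.toFinset_card_of_nodup g3, g4]
  choose! φ hφ1 hφ2 hφ3 using henc
  have hinj : Set.InjOn φ Bad := by
    intro ρ hρ ρ' hρ' h
    rw [hφ2 ρ hρ, hφ2 ρ' hρ', h]
  calc ∑ ρ ∈ Bad, W ρ ≤ ∑ ρ ∈ Bad, κ ^ s * W (φ ρ).2 :=
        Finset.sum_le_sum fun ρ hρ => hφ3 ρ hρ
    _ = ∑ p ∈ Bad.image φ, κ ^ s * W p.2 := by
        rw [Finset.sum_image]
        exact hinj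
    _ ≤ ∑ p ∈ (codesA A k s) ×ˢ (univ : Finset (RA V A)), κ ^ s * W p.2 := by
        apply Finset.sum_le_sum_of_subset_of_nonneg
        · intro p hp
          obtain ⟨ρ, hρ, rfl⟩ := Finset.mem_image.1 hp
          exact Finset.mem_product.2 ⟨hφ1 ρ hρ, Finset.mem_univ _⟩
        · intro p _ _
          exact mul_nonneg (pow_nonneg hκ0 _) (hW _)
    _ = (codesA A k s).card * κ ^ s := by
        rw [Finset.sum_product]
        simp only [← Finset.mul_sum, hWsum, mul_one, Finset.sum_const, nsmul_eq_mul]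
    _ ≤ ((2 * k * Fintype.card A) ^ s : ℕ) * κ ^ s := by
        apply mul_le_mul_of_nonneg_right _ (pow_nonneg hκ0 _)
        exact_mod_cast codesA_card k s
    _ = _ := by
        push_cast
        rw [← mul_pow]

end Pool.Agent.WSatAC0
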