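import Pool.Agent.WSatAC0.Comp

/-! Counting up to a bounded number in constant depth, with a fixed exponent. -/

namespace Pool.Agent.WSatAC0

open Finset Pool.Agent.ParityAC

section hash

/-- covering by halving -/
theorem cover {X H : Type} [Fintype H] [DecidableEq X] [DecidableEq H] (G : X → H → Prop)
    [∀ x h, Decidable (G x h)] (hG : ∀ x, Fintype.card H ≤ 2 * (univ.filter (G x)).card)
    (hH : 0 < Fintype.card H) : ∀ (n : ℕ) (Y : Finset X), (∀ x ∈ Y, True) → Y.card < 2 ^ n →
    ∃ l : Finset H, l.card ≤ n ∧ ∀ x ∈ Y, ∃ h ∈ l, G x h := by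
  intro n
  induction n with
  | zero =>
    intro Y _ hY
    have : Y = ∅ := Finset.card_eq_zero.1 (by omega)
    subst this
    exact ⟨∅, le_refl _, fun x hx => absurd hx (Finset.notMem_empty _)⟩
  | succ n ih =>
    intro Y _ hY
    have hex : ∃ h, Y.card ≤ 2 * (Y.filter fun x => G x h).card := by
      by_contra hcon
      push Not at hcon
      have h1 : ∑ h : H, (Y.filter fun x => G x h).card = ∑ x ∈ Y, (univ.filter (G x)).card := by
        simp only [Finset.card_filter]
        exact Finset.sum_comm
      have h2 : Y.card * Fintype.card H ≤ ∑ x ∈ Y, 2 * (univ.filter (G x)).card := by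
        rw [← smul_eq_mul, ← Finset.sum_const]
        exact Finset.sum_le_sum fun x _ => hG x
      have h3 : ∑ h : H, 2 * (Y.filter fun x => G x h).card < ∑ _h : H, Y.card := by
        apply Finset.sum_lt_sum_of_nonempty
        · have : Nonempty H := Fintype.card_pos_iff.1 hH
          exact Finset.univ_nonempty
        · intro h _
          exact hcon h
      rw [Finset.sum_const, Finset.card_univ, smul_eq_mul, ← Finset.mul_sum, h1,
        Finset.mul_sum] at h3
      rw [mul_comm] at h2
      omega
    obtain ⟨h, hh⟩ := hex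
    have h4 := Finset.card_filter_add_card_filter_not (s := Y) (fun x => G x h)
    obtain ⟨l, hl1, hl2⟩ := ih (Y.filter fun x => ¬ G x h) (fun _ _ => trivial) (by
      rw [pow_succ] at hY
      omega)
    refine ⟨insert h l, ?_, ?_⟩
    · exact (Finset.card_insert_le _ _).trans (by omega)
    · intro x hx
      by_cases hxh : G x h
      · exact ⟨h, Finset.mem_insert_self _ _, hxh⟩
      · obtain ⟨h', h5, h6⟩ := hl2 x (Finset.mem_filter.2 ⟨hx, hxh⟩)
        exact ⟨h', Finset.mem_insert_of_mem h5, h6⟩

theorem coll_card {M R : ℕ} {i i' : Fin M} (hi : i ≠ i') :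
    (univ.filter fun h : Fin M → Fin R => h i = h i').card * R ≤
      Fintype.card (Fin M → Fin R) := by
  classical
  have h1 : ((univ.filter fun h : Fin M → Fin R => h i = h i') ×ˢ (univ : Finset (Fin R))).card ≤
      (univ : Finset (Fin M → Fin R)).card := by
    refine Finset.card_le_card_of_injOn (fun p => Function.update p.1 i p.2)
      (fun _ _ => Finset.mem_coe.2 (Finset.mem_univ _)) ?_
    rintro ⟨h, c⟩ hh ⟨h', c'⟩ hh' he
    simp only [Finset.coe_product, Set.mem_prod, Finset.mem_coe, Finset.mem_filter,
      Finset.mem_univ, true_and, and_true] at hh hh'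
    simp only at he
    have e1 : c = c' := by
      have := congrFun he i
      simpa using this
    have e2 : ∀ j, j ≠ i → h j = h' j := by
      intro j hj
      have := congrFun he j
      simpa [Function.update_of_ne hj] using this
    have e3 : h = h' := by
      funext j
      by_cases hj : j = i
      · rw [hj, hh, hh', e2 i' (Ne.symm hi)]
      · exact e2 j hj
    rw [e1, e3]
  rw [Finset.card_product, Finset.card_univ, Fintype.card_fin, Finset.card_univ] at h1
  exact h1

theorem inj_half {m M R : ℕ} (hR : 2 * m ^ 2 ≤ R) (hR1 : 1 ≤ R) (T : Fin m → Fin M)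
    (hT : Function.Injective T) :
    Fintype.card (Fin M → Fin R) ≤
      2 * (univ.filter fun h : Fin M → Fin R => Function.Injective (h ∘ T)).card := by
  classical
  have h0 := Finset.card_filter_add_card_filter_not (s := (univ : Finset (Fin M → Fin R)))
    (fun h => Function.Injective (h ∘ T))
  rw [Finset.card_univ] at h0
  have h1 : (univ.filter fun h : Fin M → Fin R => ¬ Function.Injective (h ∘ T)) ⊆
      ((univ : Finset (Fin m × Fin m)).filter fun p => p.1 ≠ p.2).biUnion fun p =>
        univ.filter fun h : Fin M → Fin R => h (T p.1) = h (T p.2) := by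
    intro h hh
    have h2 := (Finset.mem_filter.1 hh).2
    simp only [Function.Injective, Function.comp] at h2
    push Not at h2
    obtain ⟨t, t', h3, h4⟩ := h2
    exact Finset.mem_biUnion.2 ⟨(t, t'), Finset.mem_filter.2 ⟨Finset.mem_univ _, h4⟩,
      Finset.mem_filter.2 ⟨Finset.mem_univ _, h3⟩⟩
  have h2 := (Finset.card_le_card h1).trans Finset.card_biUnion_le
  have h3 : (∑ p ∈ (univ : Finset (Fin m × Fin m)).filter (fun p => p.1 ≠ p.2),
      (univ.filter fun h : Fin M → Fin R => h (T p.1) = h (T p.2)).card) * R ≤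
      m ^ 2 * Fintype.card (Fin M → Fin R) := by
    rw [Finset.sum_mul]
    refine (Finset.sum_le_card_nsmul _ _ (Fintype.card (Fin M → Fin R)) ?_).trans ?_
    · intro p hp
      exact coll_card fun h => (Finset.mem_filter.1 hp).2 (hT h)
    · rw [smul_eq_mul]
      apply Nat.mul_le_mul_right
      refine (Finset.card_filter_le _ _).trans ?_
      rw [Finset.card_univ, Fintype.card_prod, Fintype.card_fin, sq]
  have h4 : 2 * (univ.filter fun h : Fin M → Fin R => ¬ Function.Injective (h ∘ T)).card * R ≤
      Fintype.card (Fin M → Fin R) * R := by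
    calc 2 * (univ.filter fun h : Fin M → Fin R => ¬ Function.Injective (h ∘ T)).card * R
        ≤ 2 * ((∑ p ∈ (univ : Finset (Fin m × Fin m)).filter (fun p => p.1 ≠ p.2),
          (univ.filter fun h : Fin M → Fin R => h (T p.1) = h (T p.2)).card) * R) := by
          rw [mul_assoc]
          exact Nat.mul_le_mul_left _ (Nat.mul_le_mul_right _ h2)
      _ ≤ 2 * (m ^ 2 * Fintype.card (Fin M → Fin R)) := Nat.mul_le_mul_left _ h3
      _ = 2 * m ^ 2 * Fintype.card (Fin M → Fin R) := by ring
      _ ≤ R * Fintype.card (Fin M → Fin R) := Nat.mul_le_mul_right _ hR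
      _ = _ := mul_comm _ _
  have h5 := Nat.le_of_mul_le_mul_right h4 hR1
  omega

/-- a small family of hash functions -/
theorem hash_family (m M : ℕ) : ∃ l : Finset (Fin M → Fin (2 * m ^ 2 + 1)), l.card ≤ m * M + 1 ∧
    ∀ T : Fin m → Fin M, Function.Injective T → ∃ h ∈ l, Function.Injective (h ∘ T) := by
  classical
  let X : Type := {T : Fin m → Fin M // Function.Injective T}
  obtain ⟨l, h1, h2⟩ := cover (X := X) (H := Fin M → Fin (2 * m ^ 2 + 1))
    (fun T h => Function.Injective (h ∘ T.1))
    (fun T => inj_half (by omega) (by omega) T.1 T.2) (by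
      rw [Fintype.card_fun, Fintype.card_fin]
      exact Nat.pow_pos (by omega)) (m * M + 1) univ (fun _ _ => trivial) (by
      rw [Finset.card_univ]
      refine lt_of_le_of_lt (Fintype.card_subtype_le _) ?_
      rw [Fintype.card_fun, Fintype.card_fin, Fintype.card_fin]
      calc M ^ m ≤ (2 ^ M) ^ m := Nat.pow_le_pow_left Nat.lt_two_pow_self.le _
        _ = 2 ^ (m * M) := by rw [← pow_mul, mul_comm]
        _ < 2 ^ (m * M + 1) := Nat.pow_lt_pow_right (by norm_num) (Nat.lt_succ_self _))
  exact ⟨l, h1, fun T hT => h2 ⟨T, hT⟩ (Finset.mem_univ _)⟩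

end hash

section closure

variable {X : Type} {P : (X → Bool) → Prop} {S D : ℕ}

theorem ACG.neg (hP : ∀ f, P f → P (fun x => !(f x))) : ∀ {D : ℕ} {f : X → Bool}, ACG P S D f →
    ACG P S D (fun x => !(f x)) := by
  intro D
  induction D with
  | zero => intro f h; exact hP f h
  | succ D ih =>
    rintro f ⟨n, hn, g, hg, hf⟩
    refine ⟨n, hn, fun i x => !(g i x), fun i => ih (hg i), ?_⟩
    rcases hf with hf | hf
    · right
      intro x
      rw [Bool.not_eq_true', Bool.eq_false_iff, ne_eq, hf]
      simp
    · left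
      intro x
      rw [Bool.not_eq_true', Bool.eq_false_iff, ne_eq, hf]
      simp

theorem ACG.all {ι : Type} [Fintype ι] (hι : Fintype.card ι ≤ S) {g : ι → X → Bool}
    (hg : ∀ i, ACG P S D (g i)) {f : X → Bool} (hf : ∀ x, f x = true ↔ ∀ i, g i x = true) :
    ACG P S (D + 1) f := by
  let e := Fintype.equivFin ι
  refine ⟨Fintype.card ι, hι, fun i => g (e.symm i), fun i => hg _, Or.inl ?_⟩
  intro x
  rw [hf]
  constructor
  · intro h i
    exact h _
  · intro h i
    have := h (e i)
    simp only [e.symm_apply_apply] at this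
    exact this

theorem ACG.ex {ι : Type} [Fintype ι] (hι : Fintype.card ι ≤ S) {g : ι → X → Bool}
    (hg : ∀ i, ACG P S D (g i)) {f : X → Bool} (hf : ∀ x, f x = true ↔ ∃ i, g i x = true) :
    ACG P S (D + 1) f := by
  let e := Fintype.equivFin ι
  refine ⟨Fintype.card ι, hι, fun i => g (e.symm i), fun i => hg _, Or.inr ?_⟩
  intro x
  rw [hf]
  constructor
  · rintro ⟨i, h⟩
    exact ⟨e i, by simp only [e.symm_apply_apply]; exact h⟩
  · rintro ⟨i, h⟩
    exact ⟨_, h⟩

theorem ACG.and2 (hS : 2 ≤ S) {f g : X → Bool} (hf : ACG P S D f) (hg : ACG P S D g) :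
    ACG P S (D + 1) (fun x => f x && g x) := by
  refine ACG.all (ι := Bool) (by rw [Fintype.card_bool]; exact hS)
    (g := fun b => if b then f else g) ?_ ?_
  · intro b
    cases b
    · exact hg
    · exact hf
  · intro x
    simp [and_comm]

theorem ACG.or2 (hS : 2 ≤ S) {f g : X → Bool} (hf : ACG P S D f) (hg : ACG P S D g) :
    ACG P S (D + 1) (fun x => f x || g x) := by
  refine ACG.ex (ι := Bool) (by rw [Fintype.card_bool]; exact hS)
    (g := fun b => if b then f else g) ?_ ?_
  · intro b
    cases b
    · exact hg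
    · exact hf
  · intro x
    simp [or_comm]

/-- **thresholds** -/
theorem ACG.thr {m M : ℕ} (h1 : (m * M + 1) * (2 * m ^ 2 + 1) ^ m ≤ S) (hm : m ≤ S) (hM : M ≤ S)
    {p : Fin M → X → Bool} (hp : ∀ i, ACG P S D (p i)) :
    ACG P S (D + 3) (fun x => decide (m ≤ (univ.filter fun i => p i x = true).card)) := by
  classical
  obtain ⟨l, hl1, hl2⟩ := hash_family m M
  refine ACG.ex (ι := {h // h ∈ l} × {c : Fin m → Fin (2 * m ^ 2 + 1) // Function.Injective c})
    ?_ (g := fun i x => decide (∀ t : Fin m, ∃ j : {j : Fin M // i.1.1 j = i.2.1 t},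
      p j.1 x = true)) ?_ ?_
  · rw [Fintype.card_prod, Fintype.card_coe]
    refine le_trans (Nat.mul_le_mul hl1 ?_) h1
    refine (Fintype.card_subtype_le _).trans ?_
    rw [Fintype.card_fun, Fintype.card_fin, Fintype.card_fin]
  · rintro ⟨h, c⟩
    refine ACG.all (ι := Fin m) (by rw [Fintype.card_fin]; exact hm)
      (g := fun t x => decide (∃ j : {j : Fin M // h.1 j = c.1 t}, p j.1 x = true)) ?_ ?_
    · intro t
      refine ACG.ex (ι := {j : Fin M // h.1 j = c.1 t}) ?_ (g := fun j => p j.1)
        (fun j => hp j.1) ?_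
      · refine (Fintype.card_subtype_le _).trans ?_
        rw [Fintype.card_fin]
        exact hM
      · intro x
        rw [decide_eq_true_eq]
    · intro x
      simp only [decide_eq_true_eq]
  · intro x
    simp only [decide_eq_true_eq]
    constructor
    · intro hle
      obtain ⟨T⟩ : Nonempty (Fin m ↪ {i // i ∈ univ.filter fun i => p i x = true}) := by
        apply Function.Embedding.nonempty_of_card_le
        rw [Fintype.card_fin, Fintype.card_coe]
        exact hle
      obtain ⟨h, hh1, hh2⟩ := hl2 (fun t => (T t).1) (fun t t' htt => T.injective (Subtype.ext htt))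
      refine ⟨(⟨h, hh1⟩, ⟨h ∘ fun t => (T t).1, hh2⟩), ?_⟩
      intro t
      exact ⟨⟨(T t).1, rfl⟩, (Finset.mem_filter.1 (T t).2).2⟩
    · rintro ⟨⟨h, c⟩, hc⟩
      choose j hj using hc
      have h3 : Function.Injective fun t => (j t).1 := by
        intro t t' htt
        apply c.2
        rw [← (j t).2, ← (j t').2]
        exact congrArg h.1 htt
      have h4 := Finset.card_le_card_of_injOn (s := (univ : Finset (Fin m)))
        (t := univ.filter fun i => p i x = true) (fun t => (j t).1)
        (fun t _ => Finset.mem_coe.2 (Finset.mem_filter.2 ⟨Finset.mem_univ _, hj t⟩))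
        h3.injOn
      rwa [Finset.card_univ, Fintype.card_fin] at h4

/-- **comparison of a count with a bounded count** -/
theorem ACG.cntEq (hP : ∀ f, P f → P (fun x => !(f x))) {M K : ℕ} (hS : 2 ≤ S) (hK : 2 ^ K ≤ S)
    (h1 : ∀ m ≤ K + 1, (m * M + 1) * (2 * m ^ 2 + 1) ^ m ≤ S) (hM : M ≤ S)
    {p : Fin M → X → Bool} (hp : ∀ i, ACG P S D (p i))
    {q : Fin K → X → Bool} (hq : ∀ i, ACG P S D (q i)) :
    ACG P S (D + 6) (fun x => decide ((univ.filter fun i => p i x = true).card =
      (univ.filter fun j => q j x = true).card)) := by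
  classical
  have hS1 : 1 ≤ S := by omega
  have hKS : K + 1 ≤ S := by
    have : K < 2 ^ K := Nat.lt_two_pow_self
    omega
  refine ACG.ex (ι := Fin K → Bool) (by
      rw [Fintype.card_fun, Fintype.card_bool, Fintype.card_fin]; exact hK)
    (g := fun Q x => (decide (∀ j, (if Q j then q j x else !(q j x)) = true) &&
      decide ((univ.filter fun j => Q j = true).card ≤ (univ.filter fun i => p i x = true).card)) &&
      !(decide ((univ.filter fun j => Q j = true).card + 1 ≤
        (univ.filter fun i => p i x = true).card))) ?_ ?_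
  · intro Q
    have hQ : (univ.filter fun j => Q j = true).card ≤ K := by
      refine (Finset.card_filter_le _ _).trans ?_
      rw [Finset.card_univ, Fintype.card_fin]
    have a1 : ACG P S (D + 3) (fun x => decide (∀ j, (if Q j then q j x else !(q j x)) = true)) := by
      refine ACG.raise_le hS1 (show D + 1 ≤ D + 3 by omega) ?_
      refine ACG.all (ι := Fin K) (by rw [Fintype.card_fin]; omega)
        (g := fun j x => if Q j then q j x else !(q j x)) ?_ ?_
      · intro j
        by_cases hj : Q j = true
        · simp only [hj, if_true]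
          exact hq j
        · simp only [hj]
          exact (hq j).neg hP
      · intro x
        simp only [decide_eq_true_eq]
    have a2 := ACG.thr (m := (univ.filter fun j => Q j = true).card) (h1 _ (by omega))
      (by omega) hM hp
    have a3 := (ACG.thr (m := (univ.filter fun j => Q j = true).card + 1) (h1 _ (by omega))
      (by omega) hM hp).neg hP
    exact ACG.and2 hS (ACG.and2 hS a1 a2) (a3.raise hS1)
  · intro x
    simp only [decide_eq_true_eq, Bool.and_eq_true, Bool.not_eq_true', decide_eq_false_iff_not]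
    constructor
    · intro h
      refine ⟨fun j => q j x, ⟨?_, ?_⟩, ?_⟩
      · intro j
        cases hj : q j x <;> simp [hj]
      · rw [h]
      · rw [h]
        exact Nat.not_succ_le_self _
    · rintro ⟨Q, ⟨h2, h3⟩, h4⟩
      have h5 : ∀ j, Q j = q j x := by
        intro j
        have := h2 j
        cases hQ : Q j <;> cases hq' : q j x <;> simp [hQ, hq'] at this ⊢
      have h6 : (univ.filter fun j => Q j = true) = univ.filter fun j => q j x = true := by
        ext j
        simp [h5 j]
      rw [h6] at h3 h4
      omega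

end closure

end Pool.Agent.WSatAC0
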